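import Pool.Agent.H533R2.VC.Basic

set_option autoImplicit false

/-! A continuum of structures, pairwise non-isomorphic over a finite set, is impossible
(task FEW). -/

namespace Pool.Agent.H533R2.VC

open Set Cardinal

variable {a : ℕ → ℕ}

theorem few_base {K : Set (St a)}
    (few : ¬ ∃ g : (ℕ → Bool) → St a, (∀ c, g c ∈ K) ∧
      ∀ c d, IsoOn (g c) (g d) univ univ ∅ → c = d)
    {F : Set ℕ} (hF : F.Finite) (g : (ℕ → Bool) → St a) (hg : ∀ c, g c ∈ K)
    (h : ∀ c d, IsoOn (g c) (g d) univ univ (idOn F) → c = d) : False := by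
  classical
  have hinv : inv (∅ : Set (ℕ × ℕ)) = ∅ := rfl
  have hcomp : comp (∅ : Set (ℕ × ℕ)) ∅ = ∅ := by
    ext u
    constructor
    · rintro ⟨v, hv, _⟩
      exact hv
    · intro hu
      exact absurd hu (notMem_empty u)
  let R : Setoid (ℕ → Bool) :=
    { r := fun c d => IsoOn (g c) (g d) univ univ ∅
      iseqv :=
        { refl := fun c => (IsoOn.refl (g c) univ).mono (empty_subset _)
          symm := fun {c d} hcd => by
            have := hcd.symm
            rwa [hinv] at this
          trans := fun {c d e} hcd hde => by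
            have := hcd.trans hde
            rwa [hcomp] at this } }
  -- classes are countable
  have hcount : ∀ c : ℕ → Bool, {d | IsoOn (g d) (g c) univ univ ∅}.Countable := by
    intro c
    have hex : ∀ d : {d | IsoOn (g d) (g c) univ univ ∅}, ∃ q : Set (ℕ × ℕ),
        PIso (g d.1) (g c) q ∧ (∀ x : ℕ, ∃ y, (x, y) ∈ q) ∧ (∀ y : ℕ, ∃ x, (x, y) ∈ q) := by
      rintro ⟨d, q, _, _, h3, h4, h5⟩
      exact ⟨q, h3, fun x => h4 x (mem_univ x), fun y => h5 y (mem_univ y)⟩
    choose q hq1 hq2 hq3 using hex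
    choose f hf using hq2
    have : Finite F := hF
    have hinj : Function.Injective
        (fun (d : {d | IsoOn (g d) (g c) univ univ ∅}) (x : F) => f d x.1) := by
      intro d d' hdd
      apply Subtype.ext
      apply h
      refine ⟨comp (q d) (inv (q d')), ?_, fun _ _ => ⟨mem_univ _, mem_univ _⟩,
        (hq1 d).comp (hq1 d').symm, ?_, ?_⟩
      · rintro ⟨x, y⟩ ⟨hxy, hx⟩
        simp only at hxy hx
        subst hxy
        refine ⟨f d x, hf d x, ?_⟩
        have := congrFun hdd ⟨x, hx⟩
        simp only at this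
        rw [this]
        exact hf d' x
      · intro x _
        obtain ⟨z, hz⟩ := hq3 d' (f d x)
        exact ⟨z, f d x, hf d x, hz⟩
      · intro y _
        obtain ⟨z, hz⟩ := hq3 d (f d' y)
        exact ⟨z, f d' y, hz, hf d' y⟩
    have hc : Countable {d | IsoOn (g d) (g c) univ univ ∅} := hinj.countable
    exact hc
  have hle : #(ℕ → Bool) ≤ #(Quotient R) * ℵ₀ := by
    apply mk_le_mk_mul_of_mk_preimage_le (Quotient.mk R)
    intro b
    obtain ⟨c, rfl⟩ := Quotient.exists_rep b
    rw [le_aleph0_iff_set_countable]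
    apply (hcount c).mono
    intro d hd
    exact Quotient.exact hd
  have hcont : #(ℕ → Bool) = 𝔠 := by simp
  have hQ : 𝔠 ≤ #(Quotient R) := by
    by_contra hlt
    rw [not_le] at hlt
    have h1 : #(Quotient R) * ℵ₀ < 𝔠 := mul_lt_of_lt aleph0_le_continuum hlt aleph0_lt_continuum
    rw [hcont] at hle
    exact absurd (hle.trans_lt h1) (lt_irrefl _)
  have hemb : #(ℕ → Bool) ≤ #(Quotient R) := hcont.le.trans hQ
  obtain ⟨φ⟩ := hemb
  apply few
  refine ⟨fun c => g (φ c).out, fun c => hg _, fun c d hcd => ?_⟩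
  apply φ.injective
  rw [← Quotient.out_eq (φ c), ← Quotient.out_eq (φ d)]
  exact Quotient.sound hcd

end Pool.Agent.H533R2.VC
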