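import Pool.Agent.H533R2.VC.Path

set_option autoImplicit false

/-! Finitely many tight separators (task HALIN). -/

namespace Pool.Agent.H533R2.VC

open Set

variable {a : ℕ → ℕ}

theorem halin {M : St a} (hs : ∀ x y, Adj M x y → Adj M y x) (A : Set ℕ) (w : ℕ) (m : ℕ)
    (P : Set ℕ) :
    {Y : Set ℕ | Y.Finite ∧ Y.ncard = m ∧ Disjoint Y P ∧ w ∉ P ∪ Y ∧
      (∀ x ∈ A, ¬ Conn M (P ∪ Y) x w) ∧
      (∀ y ∈ Y, ∃ x, Adj M x y ∧ ∃ z ∈ A, Conn M (P ∪ Y) z x) ∧
      (∀ y ∈ Y, ∃ x, Adj M x y ∧ Conn M (P ∪ Y) w x)}.Finite := by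
  induction m generalizing P with
  | zero =>
    refine (Set.finite_singleton (∅ : Set ℕ)).subset ?_
    rintro Y ⟨hf, hc, -⟩
    rw [Set.mem_singleton_iff]
    exact (Set.ncard_eq_zero hf).1 hc
  | succ m ih =>
    by_cases hne : ∃ Y0 : Set ℕ, Y0.Finite ∧ Y0.ncard = m + 1 ∧ Disjoint Y0 P ∧ w ∉ P ∪ Y0 ∧
      (∀ x ∈ A, ¬ Conn M (P ∪ Y0) x w) ∧
      (∀ y ∈ Y0, ∃ x, Adj M x y ∧ ∃ z ∈ A, Conn M (P ∪ Y0) z x) ∧
      (∀ y ∈ Y0, ∃ x, Adj M x y ∧ Conn M (P ∪ Y0) w x)
    · obtain ⟨Y0, hf, hc, hd, hw, h1, h2, h3⟩ := hne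
      have hne0 : Y0.Nonempty := by
        rw [← Set.ncard_pos hf]; omega
      obtain ⟨y, hy⟩ := hne0
      obtain ⟨x, hxy, z, hz, n1, hzx⟩ := h2 y hy
      obtain ⟨x', hx'y, n2, hwx'⟩ := h3 y hy
      have hyP : y ∉ P := fun h => Set.disjoint_left.1 hd hy h
      have hsub : P ⊆ P ∪ Y0 := Set.subset_union_left
      have p1 : Path M P n1 z x := hzx.mono hsub
      have p2 : Path M P n2 x' w := (Path.symm hs hwx').mono hsub
      have p3 : Path M P (n2 + 1) y w := Path.cons hyP (hs _ _ hx'y) p2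
      have p4 : Path M P (n2 + 1 + 1) x w := Path.cons p1.right_notMem hxy p3
      have p5 : Path M P (n1 + (n2 + 1 + 1)) z w := p1.trans p4
      obtain ⟨Q, -, -, hQd, -, -, hQ⟩ := p5.exists_support
      refine (Set.Finite.biUnion Q.finite_toSet (fun p _ => (ih (P ∪ {p})).image (insert p))).subset ?_
      rintro Y ⟨gf, gc, gd, gw, g1, g2, g3⟩
      have hmeet : ∃ p ∈ Q, p ∈ Y := by
        by_contra hcon
        push Not at hcon
        refine g1 z hz ⟨_, hQ (P ∪ Y) ?_⟩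
        rw [Set.disjoint_union_right]
        exact ⟨hQd, Set.disjoint_left.2 fun q hq => hcon q hq⟩
      obtain ⟨p, hpQ, hpY⟩ := hmeet
      rw [Set.mem_iUnion₂]
      refine ⟨p, hpQ, Y \ {p}, ?_, ?_⟩
      · have e : P ∪ {p} ∪ Y \ {p} = P ∪ Y := by
          ext v
          simp only [Set.mem_union, Set.mem_singleton_iff, Set.mem_sdiff]
          constructor
          · rintro ((h | rfl) | ⟨h, -⟩)
            · exact Or.inl h
            · exact Or.inr hpY
            · exact Or.inr h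
          · rintro (h | h)
            · exact Or.inl (Or.inl h)
            · by_cases hv : v = p
              · exact Or.inl (Or.inr hv)
              · exact Or.inr ⟨h, hv⟩
        refine ⟨gf.subset Set.sdiff_subset, ?_, ?_, ?_, ?_, ?_, ?_⟩
        · rw [Set.ncard_sdiff_singleton_of_mem hpY, gc]; rfl
        · rw [Set.disjoint_union_right]
          exact ⟨gd.mono_left Set.sdiff_subset, Set.disjoint_left.2 fun q hq => hq.2⟩
        · rw [e]; exact gw
        · rw [e]; exact g1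
        · rw [e]; exact fun y hy => g2 y hy.1
        · rw [e]; exact fun y hy => g3 y hy.1
      · rw [Set.insert_sdiff_singleton, Set.insert_eq_of_mem hpY]
    · refine Set.finite_empty.subset ?_
      intro Y hY
      exact (hne ⟨Y, hY⟩).elim

end Pool.Agent.H533R2.VC
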