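import Pool.Agent.H533R2.VC.Path

set_option autoImplicit false

/-! Big flaps: transport and choice of new variations (task CHOICE). -/

namespace Pool.Agent.H533R2.VC

open Set

variable {a : ℕ → ℕ}

/-- The structure `τ` on `C ∪ S` is isomorphic to the closed flap `V` of `N`, `S` going to the
neighbourhood. -/
def FIso (τ : St a) (C S : Set ℕ) (N : St a) (V : Set ℕ) : Prop :=
  ∃ q : Set (ℕ × ℕ), PIso τ N q ∧ q ⊆ (C ∪ S) ×ˢ (cl N V) ∧ (∀ x ∈ C ∪ S, ∃ y, (x, y) ∈ q) ∧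
    (∀ y ∈ cl N V, ∃ x, (x, y) ∈ q) ∧ ∀ u ∈ q, (u.1 ∈ S ↔ u.2 ∈ nbr N V)

/-- Smallness is invariant under equivalence of rank `α`. -/
theorem small_of_bf {α : Ordinal.{0}} {M N : St a} {C D : Set ℕ} {p : Set (ℕ × ℕ)}
    (h : BF M N (cl M C) (cl N D) α p) (h1 : ∀ u ∈ p, (u.1 ∈ nbr M C ↔ u.2 ∈ nbr N D))
    (h2 : ∀ s ∈ nbr M C, ∃ y, (s, y) ∈ p) (h3 : ∀ y ∈ nbr N D, ∃ s, (s, y) ∈ p)
    (hs : Small α M C) : Small α N D := by
  obtain ⟨f, hf1, hf2⟩ := hs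
  refine ⟨fun n => ((f n).1, (f n).2.1, comp (inv p) (f n).2.2), fun n => ⟨?_, ?_, ?_⟩, ?_⟩
  · rintro u ⟨s, hs1, hs2⟩
    have hsn := (hf1 n).1 _ hs2
    exact ⟨(h1 _ hs1).1 hsn.1, hsn.2⟩
  · intro d hd
    obtain ⟨s, hs⟩ := h3 d hd
    obtain ⟨y, hy⟩ := (hf1 n).2.1 s ((h1 _ hs).2 hd)
    exact ⟨y, s, hs, hy⟩
  · exact h.symm.comp (hf1 n).2.2
  · intro Q hQ
    have hQ' : Vari α M C (Q.1, Q.2.1, comp p Q.2.2) := by
      refine ⟨?_, ?_, ?_⟩
      · rintro u ⟨d, hd1, hd2⟩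
        have hdn := hQ.1 _ hd2
        exact ⟨(h1 _ hd1).2 hdn.1, hdn.2⟩
      · intro s hs
        obtain ⟨d, hd⟩ := h2 s hs
        obtain ⟨y, hy⟩ := hQ.2.1 d ((h1 _ hd).1 hs)
        exact ⟨y, d, hd, hy⟩
      · exact h.comp hQ.2.2
    obtain ⟨n, hn⟩ := hf2 _ hQ'
    refine ⟨n, ?_⟩
    have he : comp (inv (comp (inv p) (f n).2.2)) Q.2.2 = comp (inv (f n).2.2) (comp p Q.2.2) := by
      ext ⟨u, v⟩
      constructor
      · rintro ⟨d, ⟨s, hs1, hs2⟩, hd⟩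
        exact ⟨s, hs2, d, hs1, hd⟩
      · rintro ⟨s, hs, d, hd1, hd2⟩
        exact ⟨d, ⟨s, hd1, hs⟩, hd2⟩
    simp only
    rw [he]
    exact hn

/-- The domain of a set of pairs. -/
def pdom (p : Set (ℕ × ℕ)) : Set ℕ := {x | ∃ y, (x, y) ∈ p}

/-- The range of a set of pairs. -/
def pran (p : Set (ℕ × ℕ)) : Set ℕ := {y | ∃ x, (x, y) ∈ p}

theorem exists_finset_of_bf {M N : St a} {X Y : Set ℕ} (n : ℕ) {p : Set (ℕ × ℕ)}
    (h : BF M N X Y (n : Ordinal.{0}) p) (F : Finset ℕ) (hF : F.card = n)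
    (hFX : (F : Set ℕ) ⊆ X \ pdom p) :
    ∃ G : Finset ℕ, G.card = n ∧ (G : Set ℕ) ⊆ Y \ pran p := by
  induction n generalizing p F with
  | zero => exact ⟨∅, rfl, by simp⟩
  | succ n ih =>
    obtain ⟨x, hx⟩ : F.Nonempty := by
      rw [← Finset.card_pos]; omega
    have hlt : ((n : ℕ) : Ordinal.{0}) < ((n + 1 : ℕ) : Ordinal.{0}) := by
      exact_mod_cast Nat.lt_succ_self n
    obtain ⟨y, hyY, hb⟩ := h.forth hlt (hFX hx).1
    have hyp : y ∉ pran p := by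
      rintro ⟨x', hx'⟩
      have : x = x' := hb.piso.fst_eq (mem_insert _ _) (mem_insert_of_mem _ hx') rfl
      exact (hFX hx).2 ⟨y, this ▸ hx'⟩
    obtain ⟨G, hG, hGY⟩ := ih hb (F.erase x) (by rw [Finset.card_erase_of_mem hx]; omega) (by
      intro z hz
      have hz' : z ∈ F ∧ ¬ z = x := by simpa using hz
      refine ⟨(hFX hz'.1).1, ?_⟩
      rintro ⟨w, hw⟩
      rcases hw with hw | hw
      · exact hz'.2 (congrArg Prod.fst hw)
      · exact (hFX hz'.1).2 ⟨w, hw⟩)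
    have hyG : y ∉ G := fun hy => (hGY hy).2 ⟨x, mem_insert _ _⟩
    refine ⟨insert y G, by rw [Finset.card_insert_of_notMem hyG, hG], ?_⟩
    intro z hz
    rcases Finset.mem_insert.1 hz with rfl | hz
    · exact ⟨hyY, hyp⟩
    · refine ⟨(hGY hz).1, ?_⟩
      rintro ⟨w, hw⟩
      exact (hGY hz).2 ⟨w, mem_insert_of_mem _ hw⟩

theorem encard_le_of_bf {M N : St a} {X Y : Set ℕ} {p : Set (ℕ × ℕ)}
    (h : BF M N X Y Ordinal.omega0 p) : (X \ pdom p).encard ≤ (Y \ pran p).encard := by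
  by_contra hc
  rw [not_le] at hc
  obtain ⟨n, hn⟩ := ENat.ne_top_iff_exists.1 hc.ne_top
  have h1 : ((n + 1 : ℕ) : ℕ∞) ≤ (X \ pdom p).encard := by
    rw [← hn] at hc
    have := Order.add_one_le_of_lt hc
    exact_mod_cast this
  obtain ⟨t, ht, hte⟩ := Set.exists_subset_encard_eq h1
  have htf : t.Finite := Set.finite_of_encard_eq_coe hte
  have hcard : htf.toFinset.card = n + 1 := by
    have := htf.encard_eq_coe_toFinset_card
    rw [hte] at this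
    exact_mod_cast this.symm
  obtain ⟨G, hG, hGY⟩ := exists_finset_of_bf (n + 1)
    (h.mono (Ordinal.natCast_lt_omega0 (n + 1)).le) htf.toFinset hcard (by simpa using ht)
  have h2 : ((n + 1 : ℕ) : ℕ∞) ≤ (Y \ pran p).encard := by
    rw [← hG, ← Set.encard_coe_eq_coe_finsetCard]
    exact Set.encard_le_encard hGY
  rw [← hn] at h2
  have : n + 1 ≤ n := by exact_mod_cast h2
  omega

theorem pdom_inv (p : Set (ℕ × ℕ)) : pdom (inv p) = pran p := rfl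

theorem pran_inv (p : Set (ℕ × ℕ)) : pran (inv p) = pdom p := rfl

theorem encard_eq_of_bf {M N : St a} {X Y : Set ℕ} {p : Set (ℕ × ℕ)}
    (h : BF M N X Y Ordinal.omega0 p) : (X \ pdom p).encard = (Y \ pran p).encard :=
  le_antisymm (encard_le_of_bf h) (encard_le_of_bf h.symm)

theorem exists_bijOn_of_encard {A B : Set ℕ} (h : A.encard = B.encard) :
    ∃ g : ℕ → ℕ, BijOn g A B := by
  by_cases hA : A.Finite
  · exact hA.exists_bijOn_of_encard_eq h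
  · have hB : ¬ B.Finite := by
      rw [← Set.encard_ne_top_iff] at hA ⊢
      rwa [← h]
    have hA' : A.Infinite := hA
    have hB' : B.Infinite := hB
    have := hA'.to_subtype
    have := hB'.to_subtype
    classical
    haveI : Denumerable A := Denumerable.ofEncodableOfInfinite A
    haveI : Denumerable B := Denumerable.ofEncodableOfInfinite B
    let e : A ≃ B := (Denumerable.eqv A).trans (Denumerable.eqv B).symm
    refine ⟨fun x => if hx : x ∈ A then (e ⟨x, hx⟩ : ℕ) else 0, ?_, ?_, ?_⟩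
    · intro x hx
      simp only [dif_pos hx]
      exact (e ⟨x, hx⟩).2
    · intro x hx y hy hxy
      simp only [dif_pos hx, dif_pos hy] at hxy
      have := e.injective (Subtype.ext hxy)
      exact congrArg Subtype.val this
    · intro y hy
      refine ⟨(e.symm ⟨y, hy⟩ : ℕ), (e.symm ⟨y, hy⟩).2, ?_⟩
      simp

/-- Every variation can be moved to the domain `cl M C`. -/
theorem exists_transport {α : Ordinal.{0}} (hα : Ordinal.omega0 ≤ α) {M : St a} {C : Set ℕ}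
    (hfin : (nbr M C).Finite) {Q : Tri a} (hQ : Vari α M C Q) :
    ∃ τ : St a, BF M τ (cl M C) (cl M C) α (idOn (nbr M C)) ∧
      IsoOn τ Q.1 (cl M C) Q.2.1 Q.2.2 := by
  classical
  obtain ⟨N', Y, r⟩ := Q
  obtain ⟨hr1, hr2, hbf⟩ := hQ
  simp only at hr1 hr2 hbf ⊢
  have hen := encard_eq_of_bf (hbf.mono hα)
  obtain ⟨g, hg⟩ := exists_bijOn_of_encard hen
  have hp := hbf.piso
  have hdomr : ∀ {x}, x ∈ pdom r → x ∈ cl M C := by
    rintro x ⟨y, hy⟩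
    exact Or.inr (hr1 _ hy).1
  have hranr : ∀ {y}, y ∈ pran r → y ∈ Y := by
    rintro y ⟨x, hx⟩
    exact (hr1 _ hx).2
  obtain ⟨b, hb1, hb2⟩ : ∃ b : ℕ → ℕ, (∀ x y, (x, y) ∈ r → b x = y) ∧
      (∀ x, x ∉ pdom r → b x = g x) := by
    refine ⟨fun x => if hx : x ∈ pdom r then hx.choose else g x, ?_, ?_⟩
    · intro x y hxy
      have hx : x ∈ pdom r := ⟨y, hxy⟩
      simp only [dif_pos hx]
      exact hp.snd_eq hx.choose_spec hxy rfl
    · intro x hx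
      simp only [dif_neg hx]
  have hbij : BijOn b (cl M C) Y := by
    refine ⟨?_, ?_, ?_⟩
    · intro x hx
      by_cases hxr : x ∈ pdom r
      · obtain ⟨y, hy⟩ := hxr
        rw [hb1 x y hy]
        exact (hr1 _ hy).2
      · rw [hb2 x hxr]
        exact (hg.mapsTo ⟨hx, hxr⟩).1
    · intro x hx x' hx' he
      by_cases hxr : x ∈ pdom r <;> by_cases hxr' : x' ∈ pdom r
      · obtain ⟨y, hy⟩ := hxr
        obtain ⟨y', hy'⟩ := hxr'
        rw [hb1 x y hy, hb1 x' y' hy'] at he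
        exact hp.fst_eq hy hy' he
      · obtain ⟨y, hy⟩ := hxr
        rw [hb1 x y hy, hb2 x' hxr'] at he
        exact absurd ⟨x, he ▸ hy⟩ (hg.mapsTo ⟨hx', hxr'⟩).2
      · obtain ⟨y, hy⟩ := hxr'
        rw [hb1 x' y hy, hb2 x hxr] at he
        exact absurd ⟨x', he ▸ hy⟩ (hg.mapsTo ⟨hx, hxr⟩).2
      · rw [hb2 x hxr, hb2 x' hxr'] at he
        exact hg.injOn ⟨hx, hxr⟩ ⟨hx', hxr'⟩ he
    · intro y hy
      by_cases hyr : y ∈ pran r
      · obtain ⟨x, hx⟩ := hyr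
        exact ⟨x, hdomr ⟨y, hx⟩, hb1 x y hx⟩
      · obtain ⟨x, hx, hxy⟩ := hg.surjOn ⟨hy, hyr⟩
        exact ⟨x, hx.1, by rw [hb2 x hx.2]; exact hxy⟩
  let τ : St a := (fun x y => N'.1 (b x) (b y), fun i t => N'.2 i (fun k => b (t k)))
  have hiso : IsoOn τ N' (cl M C) Y r := by
    refine ⟨{u | u.1 ∈ cl M C ∧ u.2 = b u.1}, ?_, ?_, ⟨?_, ?_, ?_⟩, ?_, ?_⟩
    · rintro ⟨x, y⟩ hu
      exact ⟨hdomr ⟨y, hu⟩, (hb1 x y hu).symm⟩
    · rintro ⟨x, y⟩ ⟨h1, h2⟩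
      simp only at h1 h2
      subst h2
      exact ⟨h1, hbij.mapsTo h1⟩
    · rintro ⟨x, y⟩ ⟨h1, h2⟩ ⟨x', y'⟩ ⟨h1', h2'⟩
      simp only at h1 h2 h1' h2'
      subst h2 h2'
      simp only
      exact ⟨fun h => by rw [h], fun h => hbij.injOn h1 h1' h⟩
    · rintro ⟨x, y⟩ ⟨h1, h2⟩ ⟨x', y'⟩ ⟨h1', h2'⟩
      simp only at h1 h2 h1' h2'
      subst h2 h2'
      rfl
    · intro i t ht
      have : (fun k => (t k).2) = fun k => b (t k).1 := funext fun k => (ht k).2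
      rw [this]
    · intro x hx
      exact ⟨b x, hx, rfl⟩
    · intro y hy
      obtain ⟨x, hx, hxy⟩ := hbij.surjOn hy
      exact ⟨x, hx, hxy.symm⟩
  refine ⟨τ, ?_, hiso⟩
  refine (hbf.comp (hiso.symm.bf α)).subset ?_
  rintro ⟨x, y⟩ ⟨h1, h2⟩
  simp only at h1 h2
  subst h1
  obtain ⟨z, hz⟩ := hr2 x h2
  exact ⟨z, hz, hz⟩

/-- A big flap has a variation (on the same set) which is not isomorphic to any flap of countably
many given structures. -/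
theorem big_choice {α : Ordinal.{0}} (hα : Ordinal.omega0 ≤ α) {M : St a} {C : Set ℕ}
    (hfin : (nbr M C).Finite) (hC : Big α M C) (N : ℕ → St a) :
    ∃ τ : St a, BF M τ (cl M C) (cl M C) α (idOn (nbr M C)) ∧
      ∀ n V, Flap (N n) V → ¬ FIso τ C (nbr M C) (N n) V := by
  classical
  let T : ℕ × Finset ℕ × ℕ × Finset (ℕ × ℕ) → Tri a := fun i =>
    (N i.1, cl (N i.1) (flapAt (N i.1) (i.2.1 : Set ℕ) i.2.2.1), (i.2.2.2 : Set (ℕ × ℕ)))
  obtain ⟨e, he⟩ := exists_surjective_nat (ℕ × Finset ℕ × ℕ × Finset (ℕ × ℕ))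
  let f : ℕ → Tri a := fun k =>
    if Vari α M C (T (e k)) then T (e k) else (M, cl M C, idOn (nbr M C))
  have hf : ∀ k, Vari α M C (f k) := by
    intro k
    by_cases hk : Vari α M C (T (e k))
    · simp only [f, if_pos hk]
      exact hk
    · simp only [f, if_neg hk]
      refine ⟨?_, fun s hs => ⟨s, rfl, hs⟩, (BF.refl M (cl M C) α).subset
        (idOn_mono fun x hx => Or.inr hx)⟩
      rintro ⟨x, y⟩ ⟨h1, h2⟩
      simp only at h1 h2
      subst h1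
      exact ⟨h2, Or.inr h2⟩
  obtain ⟨Q, hQ, hQn⟩ : ∃ Q, Vari α M C Q ∧
      ∀ n, ¬ IsoOn (f n).1 Q.1 (f n).2.1 Q.2.1 (comp (inv (f n).2.2) Q.2.2) := by
    by_contra hc
    push Not at hc
    exact hC ⟨f, hf, hc⟩
  obtain ⟨τ, hτ1, hτ2⟩ := exists_transport hα hfin hQ
  refine ⟨τ, hτ1, ?_⟩
  rintro n V ⟨⟨x, hx⟩, hconn, hnfin⟩ ⟨q, hq1, hq2, hq3, hq4, hq5⟩
  have hiso : IsoOn τ (N n) (cl M C) (cl (N n) V) q := ⟨q, Subset.rfl, hq2, hq1, hq3, hq4⟩
  set r : Set (ℕ × ℕ) := {u | u ∈ q ∧ u.1 ∈ nbr M C} with hr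
  have hrfin : r.Finite := by
    refine Set.Finite.of_finite_image (f := Prod.fst) (hfin.subset ?_) ?_
    · rintro _ ⟨u, hu, rfl⟩
      exact hu.2
    · rintro u hu v hv huv
      exact Prod.ext huv ((hq1.1 u hu.1 v hv.1).1 huv)
  have hV : V = flapAt (N n) (nbr (N n) V) x := by
    refine eq_flapAt hconn Subset.rfl ?_ hx
    rw [Set.disjoint_left]
    intro y hy hy'
    exact hy'.1 hy
  obtain ⟨k, hk⟩ := he (n, hnfin.toFinset, x, hrfin.toFinset)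
  have hT : T (e k) = (N n, cl (N n) V, r) := by
    rw [hk]
    simp only [T, Set.Finite.coe_toFinset]
    rw [← hV]
  have hvar : Vari α M C (T (e k)) := by
    rw [hT]
    refine ⟨?_, ?_, ?_⟩
    · rintro u hu
      exact ⟨hu.2, (hq2 hu.1).2⟩
    · intro s hs
      obtain ⟨y, hy⟩ := hq3 s (Or.inr hs)
      exact ⟨y, hy, hs⟩
    · refine (hτ1.comp (hiso.bf α)).subset ?_
      rintro ⟨u, v⟩ hu
      exact ⟨u, ⟨rfl, hu.2⟩, hu.1⟩
  have hfk : f k = (N n, cl (N n) V, r) := by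
    simp only [f, if_pos hvar]
    exact hT
  apply hQn k
  rw [hfk]
  refine (hiso.symm.trans hτ2).mono ?_
  rintro ⟨u, v⟩ ⟨w, hw1, hw2⟩
  exact ⟨w, hw1.1, hw2⟩

end Pool.Agent.H533R2.VC
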