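import Pool.Agent.H533R2.VC.Chain
import Pool.Agent.H533R2.VC.Mono

set_option autoImplicit false

/-! Combs of big flaps (task COMB). -/

namespace Pool.Agent.H533R2.VC

open Set

variable {a : ℕ → ℕ}

/-- A comb: big flaps `C k` between the separators `D ∪ Y (2k)` and `D ∪ Y (2k+1)`, spaced. -/
structure Comb (α : Ordinal.{0}) (M : St a) (D : Set ℕ) (U Y C : ℕ → Set ℕ) : Prop where
  chain : Chain M D U Y
  flap : ∀ k, Flap M (C k)
  big : ∀ k, Big α M (C k)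
  sub : ∀ k, C k ⊆ U (2 * k)
  disj : ∀ k, Disjoint (C k) (U (2 * k + 1) ∪ Y (2 * k + 1))
  nbr : ∀ k, nbr M (C k) ⊆ D ∪ Y (2 * k) ∪ Y (2 * k + 1)
  far : ∀ k, ∃ δ : ℕ, (∀ y ∈ Y (2 * k) ∪ Y (2 * k + 1), ∃ y0 ∈ Y 0, ∃ n ≤ δ, Path M D n y0 y) ∧
    (∀ y ∈ Y (2 * k + 2), ∀ y0 ∈ Y 0, ∀ n ≤ δ, ¬ Path M D n y0 y)

/-- The step of the construction of a comb. -/
theorem comb_step {α : Ordinal.{0}} {K : Set (St a)} (hK : Good α K) {M : St a} (hM : M ∈ K)
    {V : ℕ → Set ℕ} (hV : End M V)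
    (hbad : ∀ n, ∃ C, Flap M C ∧ Big α M C ∧ C ⊆ V n ∧ ∃ m, Disjoint C (V m))
    {D : Set ℕ} {U Y : ℕ → Set ℕ} {n : ℕ → ℕ} (hc : Chain M D U Y) (hn : StrictMono n)
    (hU : ∀ i, U i = V (n i)) (i : ℕ) :
    ∃ (j : ℕ) (E : Set ℕ), i < j ∧ Flap M E ∧ Big α M E ∧ E ⊆ U i ∧ Disjoint E (U j ∪ Y j) ∧
      nbr M E ⊆ D ∪ Y i ∪ Y j := by
  have hs := hK.symm M hM
  obtain ⟨C, hCf, hCb, hCV, m, hCm⟩ := hbad (n i)
  obtain ⟨m', hm'⟩ := hV.exists_notMem hCf.2.2
  obtain ⟨j, hj1, hj2, hj3⟩ : ∃ j, i < j ∧ m ≤ n j ∧ m' ≤ n j := by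
    refine ⟨i + 1 + m + m', by omega, ?_, ?_⟩
    · have := hn.le_apply (x := i + 1 + m + m')
      omega
    · have := hn.le_apply (x := i + 1 + m + m')
      omega
  have hCj : Disjoint C (U j) := by
    rw [hU j]
    exact hCm.mono_right (hV.anti' hj2)
  have hCU : C ⊆ U i := by rw [hU i]; exact hCV
  -- `C` avoids the neighbourhood of `U j`
  have h1 : Disjoint C (D ∪ Y j) := by
    rw [← hc.nbr j, Set.disjoint_left]
    rintro v hvC ⟨hvU, w, hw, hwv⟩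
    have hvw := hs _ _ hwv
    by_cases hwC : w ∈ C
    · exact Set.disjoint_left.1 hCj hwC hw
    · have hwn : w ∈ nbr M C := ⟨hwC, v, hvC, hvw⟩
      rw [hU j] at hw
      exact Set.disjoint_left.1 (hm' (n j) hj3) hw hwn
  have h2 : Disjoint C (D ∪ Y i) := by
    rw [← hc.nbr i, Set.disjoint_left]
    rintro v hvC ⟨hvU, -⟩
    exact hvU (hCU hvC)
  have hCB : Disjoint C (D ∪ Y i ∪ Y j) := by
    rw [Set.disjoint_union_right]
    exact ⟨h2, h1.mono_right Set.subset_union_right⟩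
  have hBf : (D ∪ Y i ∪ Y j).Finite := (hc.finD.union (hc.finY i)).union (hc.finY j)
  obtain ⟨x, hx⟩ := hCf.1
  have hxB : x ∉ D ∪ Y i ∪ Y j := Set.disjoint_left.1 hCB hx
  have hCE : C ⊆ flapAt M (D ∪ Y i ∪ Y j) x := hCf.2.1.subset_flapAt hCB hx
  have hEf : Flap M (flapAt M (D ∪ Y i ∪ Y j) x) := flap_flapAt hs hBf hxB
  have hEB : Disjoint (flapAt M (D ∪ Y i ∪ Y j) x) (D ∪ Y i ∪ Y j) := flapAt_disjoint x
  refine ⟨j, flapAt M (D ∪ Y i ∪ Y j) x, hj1, hEf, big_mono hK hM hCf hEf hCE hCb, ?_, ?_,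
    nbr_flapAt x⟩
  · refine hEf.2.1.subset_of_meets ?_ ?_
    · rw [hc.nbr i]
      exact hEB.mono_right Set.subset_union_left
    · intro hd
      exact Set.disjoint_left.1 hd (hCE hx) (hCU hx)
  · rw [Set.disjoint_union_right]
    refine ⟨?_, hEB.mono_right Set.subset_union_right⟩
    by_contra hd
    have hEU : flapAt M (D ∪ Y i ∪ Y j) x ⊆ U j := by
      refine hEf.2.1.subset_of_meets ?_ hd
      rw [hc.nbr j]
      refine hEB.mono_right ?_
      intro z hz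
      rcases hz with hz | hz
      · exact Or.inl (Or.inl hz)
      · exact Or.inr hz
    exact Set.disjoint_left.1 hCj hx (hEU (hCE hx))

/-- Bound for the distances of finitely many points. -/
theorem comb_bound {M : St a} {D : Set ℕ} {U Y : ℕ → Set ℕ} (hc : Chain M D U Y)
    (hs : ∀ x y, Adj M x y → Adj M y x) {F : Set ℕ} (hF : F.Finite) (hFU : F ⊆ U 0 ∪ Y 0) :
    ∃ δ : ℕ, ∀ y ∈ F, ∃ y0 ∈ Y 0, ∃ n ≤ δ, Path M D n y0 y := by
  have h1 : ∀ y ∈ F, ∃ y0 ∈ Y 0, ∃ n, Path M D n y0 y := by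
    intro y hy
    obtain ⟨y0, hy0, n, hP⟩ := hc.exists_path hs (hFU hy)
    refine ⟨y0, hy0, n, hP.mono ?_⟩
    intro d hd hd'
    rcases hd' with hd' | hd'
    · have : d ∈ nbr M (U 0) := by rw [hc.nbr 0]; exact Or.inl hd
      exact this.1 hd'
    · rw [Set.mem_singleton_iff] at hd'
      subst hd'
      exact Set.disjoint_left.1 (hc.disj 0) hd hy0
  choose! f hf g hg using h1
  obtain ⟨δ, hδ⟩ := (hF.image g).bddAbove
  exact ⟨δ, fun y hy => ⟨f y, hf y hy, g y, hδ (Set.mem_image_of_mem g hy), hg y hy⟩⟩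

theorem Chain.Y_subset {M : St a} {D : Set ℕ} {U Y : ℕ → Set ℕ} (hc : Chain M D U Y) (i : ℕ) :
    Y i ⊆ U 0 ∪ Y 0 := by
  cases i with
  | zero => exact Set.subset_union_right
  | succ i =>
    intro y hy
    exact Or.inl (hc.anti (Nat.zero_le i) (hc.step i (Or.inr hy)))

theorem exists_comb {α : Ordinal.{0}} {K : Set (St a)} (hK : Good α K) {M : St a} (hM : M ∈ K)
    {V : ℕ → Set ℕ} (hV : End M V)
    (hbad : ∀ n, ∃ C, Flap M C ∧ Big α M C ∧ C ⊆ V n ∧ ∃ m, Disjoint C (V m)) :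
    ∃ D U Y C, Comb α M D U Y C := by
  classical
  have hs := hK.symm M hM
  obtain ⟨m, hm⟩ := exists_ne_dom hK hM hV
  obtain ⟨hm1, hm2⟩ := hm m le_rfl
  obtain ⟨U0, Y0, n, hc, hn, hn0, hU⟩ := chain_of_end hK hM hV m hm1 hm2
  have key : ∀ i, ∃ (j : ℕ) (E : Set ℕ) (i' δ : ℕ), i < j ∧ j < i' ∧ δ < i' ∧ Flap M E ∧
      Big α M E ∧ E ⊆ U0 i ∧ Disjoint E (U0 j ∪ Y0 j) ∧
      nbr M E ⊆ dom M V ∪ Y0 i ∪ Y0 j ∧
      (∀ y ∈ Y0 i ∪ Y0 j, ∃ y0 ∈ Y0 0, ∃ n ≤ δ, Path M (dom M V) n y0 y) := by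
    intro i
    obtain ⟨j, E, h1, h2, h3, h4, h5, h6⟩ := comb_step hK hM hV hbad hc hn hU i
    obtain ⟨δ, hδ⟩ := comb_bound hc hs ((hc.finY i).union (hc.finY j))
      (Set.union_subset (hc.Y_subset i) (hc.Y_subset j))
    exact ⟨j, E, max j δ + 1, δ, h1, by omega, by omega, h2, h3, h4, h5, h6, hδ⟩
  choose J E I' Δ hJ hI hΔ hEf hEb hEU hEd hEn hEδ using key
  let idx : ℕ → ℕ := fun k => Nat.rec 0 (fun _ i => I' i) k
  have hidx : ∀ k, idx (k + 1) = I' (idx k) := fun k => rfl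
  let n' : ℕ → ℕ := fun k => if k % 2 = 0 then idx (k / 2) else J (idx (k / 2))
  have he : ∀ k, n' (2 * k) = idx k := by
    intro k
    have h1 : (2 * k) % 2 = 0 := by omega
    have h2 : (2 * k) / 2 = k := by omega
    simp only [n', h1, h2, if_true]
  have ho : ∀ k, n' (2 * k + 1) = J (idx k) := by
    intro k
    have h1 : ¬ (2 * k + 1) % 2 = 0 := by omega
    have h2 : (2 * k + 1) / 2 = k := by omega
    simp only [n', h1, h2, if_false]
  have hmono : StrictMono n' := by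
    refine strictMono_nat_of_lt_succ ?_
    intro k
    rcases Nat.even_or_odd' k with ⟨l, rfl | rfl⟩
    · rw [he, ho]
      exact hJ _
    · have : 2 * l + 1 + 1 = 2 * (l + 1) := by ring
      rw [this, he, ho, hidx]
      exact hI _
  have h0 : n' 0 = 0 := he 0
  refine ⟨dom M V, U0 ∘ n', Y0 ∘ n', fun k => E (idx k), ?_⟩
  refine ⟨hc.subseq hmono, fun k => hEf _, fun k => hEb _, ?_, ?_, ?_, ?_⟩
  · intro k
    simp only [Function.comp_apply, he]
    exact hEU _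
  · intro k
    simp only [Function.comp_apply, ho]
    exact hEd _
  · intro k
    simp only [Function.comp_apply, he, ho]
    exact hEn _
  · intro k
    refine ⟨Δ (idx k), ?_, ?_⟩
    · intro y hy
      simp only [Function.comp_apply, he, ho] at hy
      simp only [Function.comp_apply, h0]
      exact hEδ _ y hy
    · intro y hy y0 hy0 l hl hP
      have h2 : 2 * k + 2 = 2 * (k + 1) := by ring
      simp only [Function.comp_apply, h2, he, hidx] at hy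
      simp only [Function.comp_apply, h0] at hy0
      have := hc.le_of_path hs hy0 (Or.inr hy) hP
      have := hΔ (idx k)
      omega

end Pool.Agent.H533R2.VC
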