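import Pool.Agent.H533R2.VC.Basic
import Pool.Agent.H565R2.FO2.USec

set_option autoImplicit false

/-! Countably many classes at every countable rank (task DST). -/

namespace Pool.Agent.H533R2.VC

open Set

variable {a : ℕ → ℕ}

namespace Dst

theorem mem_zipSet_iff {s t : List ℕ} (h : s.length = t.length) {u : ℕ × ℕ} :
    u ∈ zipSet s t ↔ ∃ i < s.length, u = (s.getD i 0, t.getD i 0) := by
  unfold zipSet
  rw [Set.mem_ofPred_eq, List.mem_iff_getElem]
  constructor
  · rintro ⟨i, hi, rfl⟩
    rw [List.length_zip, ← h, min_self] at hi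
    refine ⟨i, hi, ?_⟩
    rw [List.getElem_zip, List.getD_eq_getElem _ _ hi, List.getD_eq_getElem _ _ (h ▸ hi)]
  · rintro ⟨i, hi, rfl⟩
    refine ⟨i, by rw [List.length_zip, ← h, min_self]; exact hi, ?_⟩
    rw [List.getElem_zip, List.getD_eq_getElem _ _ hi, List.getD_eq_getElem _ _ (h ▸ hi)]

theorem zipSet_append {s t : List ℕ} (h : s.length = t.length) (x y : ℕ) :
    zipSet (s ++ [x]) (t ++ [y]) = insert (x, y) (zipSet s t) := by
  ext u
  simp [zipSet, List.zip_append h, or_comm]

/-- indices of the invariants -/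
abbrev Idx (a : ℕ → ℕ) (β : Ordinal.{0}) : Type 1 :=
  (ℕ × ℕ) ⊕ ((ℕ × ℕ) ⊕ ((Σ i : ℕ, (Fin (a i) → ℕ)) ⊕ (Set.Iio β × ℕ)))

open Classical in
/-- the invariants -/
noncomputable def J {K : Set (St a)} {β : Ordinal.{0}} (c : Set.Iio β → K → List ℕ → ℕ)
    (s : List ℕ) (M : K) : Idx a β → Bool
  | Sum.inl (i, j) => decide (i < s.length ∧ j < s.length ∧ s.getD i 0 = s.getD j 0)
  | Sum.inr (Sum.inl (i, j)) =>
      decide (i < s.length ∧ j < s.length) && M.1.1 (s.getD i 0) (s.getD j 0)
  | Sum.inr (Sum.inr (Sum.inl ⟨i, v⟩)) =>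
      decide (∀ k, v k < s.length) && M.1.2 i (fun k => s.getD (v k) 0)
  | Sum.inr (Sum.inr (Sum.inr (γ, k))) => decide (∃ x, c γ M (s ++ [x]) = k)

/-- labels of rank `β` -/
structure Lab (K : Set (St a)) (β : Ordinal.{0}) (c : K → List ℕ → ℕ) : Prop where
  meas : ∀ s, Measurable (fun M => c M s)
  iff : ∀ (M N : K) (s t : List ℕ), s.length = t.length →
    (c M s = c N t ↔ BF M.1 N.1 univ univ β (zipSet s t))

theorem J_meas {K : Set (St a)} {β : Ordinal.{0}} {c : Set.Iio β → K → List ℕ → ℕ}
    (hc : ∀ γ, Lab K γ.1 (c γ)) (s : List ℕ) : Measurable (J c s) := by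
  rw [measurable_pi_iff]
  intro i
  rcases i with ⟨i, j⟩ | ⟨i, j⟩ | ⟨i, v⟩ | ⟨γ, k⟩
  · exact measurable_const
  · simp only [J]
    have h1 : Measurable (fun M : K => M.1.1 (s.getD i 0) (s.getD j 0)) :=
      (measurable_pi_apply _).comp ((measurable_pi_apply _).comp
        (measurable_fst.comp measurable_subtype_coe))
    exact (measurable_of_countable (fun b : Bool => decide (i < s.length ∧ j < s.length) && b)).comp h1
  · simp only [J]
    have h1 : Measurable (fun M : K => M.1.2 i (fun k => s.getD (v k) 0)) :=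
      (measurable_pi_apply _).comp ((measurable_pi_apply _).comp
        (measurable_snd.comp measurable_subtype_coe))
    exact (measurable_of_countable (fun b : Bool => decide (∀ k, v k < s.length) && b)).comp h1
  · apply measurable_to_bool
    have : (fun M : K => J c s M (Sum.inr (Sum.inr (Sum.inr (γ, k))))) ⁻¹' {true} =
        ⋃ x, (fun M : K => c γ M (s ++ [x])) ⁻¹' {k} := by
      ext M
      simp [J]
    rw [this]
    exact MeasurableSet.iUnion fun x => (hc γ).meas _ (measurableSet_singleton k)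

theorem J_iff {K : Set (St a)} {β : Ordinal.{0}} {c : Set.Iio β → K → List ℕ → ℕ}
    (hc : ∀ γ, Lab K γ.1 (c γ)) (M N : K) {s t : List ℕ} (hl : s.length = t.length) :
    J c s M = J c t N ↔ BF M.1 N.1 univ univ β (zipSet s t) := by
  constructor
  · intro h
    have hE : ∀ i j, i < s.length → j < s.length →
        (s.getD i 0 = s.getD j 0 ↔ t.getD i 0 = t.getD j 0) := by
      intro i j hi hj
      have := congrFun h (Sum.inl (i, j))
      simp only [J, decide_eq_decide, ← hl, hi, hj, true_and] at this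
      exact this
    have hA : ∀ i j, i < s.length → j < s.length →
        M.1.1 (s.getD i 0) (s.getD j 0) = N.1.1 (t.getD i 0) (t.getD j 0) := by
      intro i j hi hj
      have := congrFun h (Sum.inr (Sum.inl (i, j)))
      simp only [J, ← hl, hi, hj, and_self, decide_true, Bool.true_and] at this
      exact this
    have hR : ∀ (i : ℕ) (v : Fin (a i) → ℕ), (∀ k, v k < s.length) →
        M.1.2 i (fun k => s.getD (v k) 0) = N.1.2 i (fun k => t.getD (v k) 0) := by
      intro i v hv
      have := congrFun h (Sum.inr (Sum.inr (Sum.inl ⟨i, v⟩)))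
      simp only [J, ← hl] at this
      rw [decide_eq_true (p := ∀ k, v k < s.length) hv, Bool.true_and, Bool.true_and] at this
      exact this
    have hX : ∀ (γ : Set.Iio β) (k : ℕ), (∃ x, c γ M (s ++ [x]) = k) ↔ (∃ y, c γ N (t ++ [y]) = k) := by
      intro γ k
      have := congrFun h (Sum.inr (Sum.inr (Sum.inr (γ, k))))
      simpa only [J, decide_eq_decide] using this
    rw [BF_iff]
    refine ⟨⟨?_, ?_, ?_⟩, ?_⟩
    · intro u hu v hv
      obtain ⟨i, hi, rfl⟩ := (mem_zipSet_iff hl).1 hu
      obtain ⟨j, hj, rfl⟩ := (mem_zipSet_iff hl).1 hv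
      exact hE i j hi hj
    · intro u hu v hv
      obtain ⟨i, hi, rfl⟩ := (mem_zipSet_iff hl).1 hu
      obtain ⟨j, hj, rfl⟩ := (mem_zipSet_iff hl).1 hv
      exact hA i j hi hj
    · intro i tt htt
      have h1 : ∀ k, ∃ m < s.length, tt k = (s.getD m 0, t.getD m 0) :=
        fun k => (mem_zipSet_iff hl).1 (htt k)
      choose v hv1 hv2 using h1
      have e1 : (fun k => (tt k).1) = fun k => s.getD (v k) 0 := by
        funext k
        rw [hv2 k]
      have e2 : (fun k => (tt k).2) = fun k => t.getD (v k) 0 := by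
        funext k
        rw [hv2 k]
      rw [e1, e2]
      exact hR i v hv1
    · intro γ hγ
      constructor
      · intro x _
        obtain ⟨y, hy⟩ := (hX ⟨γ, hγ⟩ _).1 ⟨x, rfl⟩
        refine ⟨y, mem_univ _, ?_⟩
        rw [← zipSet_append hl]
        exact ((hc ⟨γ, hγ⟩).iff M N (s ++ [x]) (t ++ [y]) (by simp [hl])).1 hy.symm
      · intro y _
        obtain ⟨x, hx⟩ := (hX ⟨γ, hγ⟩ _).2 ⟨y, rfl⟩
        refine ⟨x, mem_univ _, ?_⟩
        rw [← zipSet_append hl]
        exact ((hc ⟨γ, hγ⟩).iff M N (s ++ [x]) (t ++ [y]) (by simp [hl])).1 hx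
  · intro h
    have hP := h.piso
    funext i
    rcases i with ⟨i, j⟩ | ⟨i, j⟩ | ⟨i, v⟩ | ⟨γ, k⟩
    · simp only [J, decide_eq_decide, ← hl]
      refine and_congr_right fun hi => and_congr_right fun hj => ?_
      exact hP.1 _ ((mem_zipSet_iff hl).2 ⟨i, hi, rfl⟩) _ ((mem_zipSet_iff hl).2 ⟨j, hj, rfl⟩)
    · simp only [J, ← hl]
      by_cases hij : i < s.length ∧ j < s.length
      · have := hP.2.1 _ ((mem_zipSet_iff hl).2 ⟨i, hij.1, rfl⟩) _
          ((mem_zipSet_iff hl).2 ⟨j, hij.2, rfl⟩)
        simp only at this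
        rw [this]
      · rw [decide_eq_false hij, Bool.false_and, Bool.false_and]
    · simp only [J, ← hl]
      by_cases hv : ∀ k, v k < s.length
      · have := hP.2.2 i (fun k => (s.getD (v k) 0, t.getD (v k) 0))
          (fun k => (mem_zipSet_iff hl).2 ⟨v k, hv k, rfl⟩)
        simp only at this
        rw [this]
      · rw [decide_eq_false hv, Bool.false_and, Bool.false_and]
    · simp only [J, decide_eq_decide]
      constructor
      · rintro ⟨x, rfl⟩
        obtain ⟨y, _, hy⟩ := h.forth γ.2 (mem_univ x)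
        rw [← zipSet_append hl] at hy
        exact ⟨y, (((hc γ).iff M N (s ++ [x]) (t ++ [y]) (by simp [hl])).2 hy).symm⟩
      · rintro ⟨y, rfl⟩
        obtain ⟨x, _, hx⟩ := h.back γ.2 (mem_univ y)
        rw [← zipSet_append hl] at hx
        exact ⟨x, ((hc γ).iff M N (s ++ [x]) (t ++ [y]) (by simp [hl])).2 hx⟩

theorem countable_Iio {β : Ordinal.{0}} (hβ : β < Ordinal.omega 1) : Countable (Set.Iio β) := by
  rw [Set.countable_coe_iff, ← Cardinal.le_aleph0_iff_set_countable, Cardinal.mk_Iio_ordinal,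
    Cardinal.lift_le_aleph0]
  rw [← Cardinal.ord_aleph, Cardinal.lt_ord, ← Cardinal.succ_aleph0, Order.lt_succ_iff] at hβ
  exact hβ

theorem exists_lab {K : Set (St a)} (hK : MeasurableSet K)
    (few : ¬ ∃ g : (ℕ → Bool) → St a, (∀ c, g c ∈ K) ∧
      ∀ c d, IsoOn (g c) (g d) univ univ ∅ → c = d)
    (β : Ordinal.{0}) (hβ : β < Ordinal.omega 1) : ∃ c, Lab K β c := by
  classical
  induction β using WellFoundedLT.induction with
  | ind β ih =>
    have hβc := countable_Iio hβ
    have h1 : ∀ γ : Set.Iio β, ∃ c, Lab K γ.1 c := fun γ => ih γ.1 γ.2 (lt_trans γ.2 hβ)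
    choose c hc using h1
    have hU : (⋃ s : List ℕ, Set.range (J c s)).Countable := by
      by_contra hunc
      have : StandardBorelSpace K := hK.standardBorel
      have hE : ∀ M N : K, IsoOn M.1 N.1 univ univ ∅ → ∀ s, ∃ t, J c s M = J c t N := by
        rintro M N ⟨q, -, hq2, hq3, hq4, hq5⟩ s
        have h4 : ∀ x : ℕ, ∃ y, (x, y) ∈ q := fun x => hq4 x (mem_univ x)
        choose f hf using h4
        refine ⟨s.map f, ?_⟩
        rw [J_iff hc M N (by simp)]
        refine (BF_of_total hq2 hq3 hq4 hq5).subset ?_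
        intro u hu
        obtain ⟨i, hi, rfl⟩ := (mem_zipSet_iff (by simp)).1 hu
        rw [List.getD_eq_getElem _ _ hi, List.getD_eq_getElem _ _ (by simpa using hi),
          List.getElem_map]
        exact hf _
      obtain ⟨h, -, hh⟩ := Pool.Agent.H565R2.FO2.perfect_of_uncountable (Y := K) (X := ℕ)
        (fun _ => 0) measurable_const (J c) (J_meas hc)
        (fun M N => IsoOn M.1 N.1 univ univ ∅) hE hunc
      apply few
      refine ⟨fun x => (h x).1, fun x => (h x).2, fun x y hxy => ?_⟩
      by_contra hne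
      exact hh x y hne hxy
    obtain ⟨f, hf⟩ : ∃ f : (Idx a β → Bool) → ℕ,
        Set.InjOn f (⋃ s : List ℕ, Set.range (J c s)) :=
      Set.countable_iff_exists_injOn.1 hU
    refine ⟨fun M s => f (J c s M), ?_, ?_⟩
    · intro s
      apply measurable_to_countable'
      intro n
      have : (fun M : K => f (J c s M)) ⁻¹' {n} =
          J c s ⁻¹' {z | z ∈ (⋃ s : List ℕ, Set.range (J c s)) ∧ f z = n} := by
        ext M
        simp only [mem_preimage, mem_singleton_iff, Set.mem_ofPred_eq]
        constructor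
        · intro h
          exact ⟨mem_iUnion.2 ⟨s, M, rfl⟩, h⟩
        · intro h
          exact h.2
      rw [this]
      apply J_meas hc s
      apply Set.Countable.measurableSet
      exact hU.mono (fun z hz => hz.1)
    · intro M N s t hl
      rw [← J_iff hc M N hl]
      constructor
      · intro h
        exact hf (mem_iUnion.2 ⟨s, M, rfl⟩) (mem_iUnion.2 ⟨t, N, rfl⟩) h
      · intro h
        simp only [h]

end Dst

open Dst in
/-- Morley: if a Borel class has fewer than continuum many isomorphism types, then at every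
countable rank there are only countably many types of (structure, tuple). -/
theorem labels {K : Set (St a)} (hK : MeasurableSet K)
    (few : ¬ ∃ g : (ℕ → Bool) → St a, (∀ c, g c ∈ K) ∧
      ∀ c d, IsoOn (g c) (g d) univ univ ∅ → c = d)
    (β : Ordinal.{0}) (hβ : β < Ordinal.omega 1) :
    ∃ c : St a → List ℕ → ℕ, ∀ M ∈ K, ∀ N ∈ K, ∀ s t : List ℕ, s.length = t.length →
      c M s = c N t → BF M N univ univ β (zipSet s t) := by
  classical
  obtain ⟨c, hc⟩ := exists_lab hK few β hβ
  refine ⟨fun M s => if h : M ∈ K then c ⟨M, h⟩ s else 0, ?_⟩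
  intro M hM N hN s t hl h
  simp only [dif_pos hM, dif_pos hN] at h
  exact (hc.iff ⟨M, hM⟩ ⟨N, hN⟩ s t hl).1 h

end Pool.Agent.H533R2.VC
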