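import Pool.Agent.H533R2.VC.Glue
import Pool.Agent.H533R2.VC.Choice
import Pool.Agent.H533R2.VC.Few

set_option autoImplicit false

/-! Only finitely many big flaps at a finite set (task FINBIG). -/

namespace Pool.Agent.H533R2.VC

open Set

variable {a : ℕ → ℕ}

namespace FinBig

/-- Recursive choice, the condition at `j` depending on the values below `j` only. -/
theorem exists_seq {X : Type*} (x0 : X) (P : ℕ → (ℕ → X) → X → Prop)
    (hloc : ∀ j h h' x, (∀ i < j, h i = h' i) → P j h x → P j h' x)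
    (hex : ∀ j h, ∃ x, P j h x) : ∃ τ : ℕ → X, ∀ j, P j τ (τ j) := by
  classical
  choose f hf using hex
  let L : ℕ → (ℕ → X) := fun n => Nat.rec (fun _ => x0)
    (fun j Lj => Function.update Lj j (f j Lj)) n
  have hL : ∀ j, L (j + 1) = Function.update (L j) j (f j (L j)) := fun j => rfl
  have hval : ∀ j i, i < j → L j i = L (i + 1) i := by
    intro j
    induction j with
    | zero => intro i hi; omega
    | succ j ih =>
      intro i hi
      rcases Nat.lt_succ_iff_lt_or_eq.1 hi with h | h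
      · rw [hL, Function.update_of_ne (by omega), ih i h]
      · rw [h]
  refine ⟨fun j => L (j + 1) j, fun j => ?_⟩
  have h1 : L (j + 1) j = f j (L j) := by rw [hL, Function.update_self]
  simp only [h1]
  exact hloc j (L j) _ _ (fun i hi => hval j i hi) (hf j (L j))

open Classical in
/-- Replace the flaps with index in `w`. -/
noncomputable def gl (M : St a) (C : ℕ → Set ℕ) (τ : ℕ → St a) (w : Set ℕ) : St a :=
  glue M C (fun i => if i ∈ w then τ i else M)

variable {M : St a} {C : ℕ → Set ℕ} {τ : ℕ → St a} {α : Ordinal.{0}} {w : Set ℕ}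

open Classical in
theorem gl_hyp (hτ : ∀ j, BF M (τ j) (cl M (C j)) (cl M (C j)) α (idOn (nbr M (C j)))) (j : ℕ) :
    BF M (if j ∈ w then τ j else M) (cl M (C j)) (cl M (C j)) α (idOn (nbr M (C j))) := by
  split_ifs
  · exact hτ j
  · exact (BF.refl M (cl M (C j)) α).subset (idOn_mono subset_union_right)

theorem gl_mem {K : Set (St a)} (hK : Good α K) (hM : M ∈ K) (hC : Fam M C)
    (hτ : ∀ j, BF M (τ j) (cl M (C j)) (cl M (C j)) α (idOn (nbr M (C j)))) :
    gl M C τ w ∈ K :=
  glue_mem hK hM hC (gl_hyp hτ)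

open Classical in
theorem gl_in_true (hC : Fam M C)
    (hτ : ∀ j, BF M (τ j) (cl M (C j)) (cl M (C j)) α (idOn (nbr M (C j)))) {j : ℕ} (hj : j ∈ w) :
    PIso (τ j) (gl M C τ w) (idOn (cl M (C j))) := by
  have h := glue_in (τ := fun i => if i ∈ w then τ i else M) hC (gl_hyp hτ) j
  simp only [if_pos hj] at h
  exact h

open Classical in
theorem gl_in_false (hC : Fam M C)
    (hτ : ∀ j, BF M (τ j) (cl M (C j)) (cl M (C j)) α (idOn (nbr M (C j)))) {j : ℕ} (hj : j ∉ w) :
    PIso M (gl M C τ w) (idOn (cl M (C j))) := by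
  have h := glue_in (τ := fun i => if i ∈ w then τ i else M) hC (gl_hyp hτ) j
  simp only [if_neg hj] at h
  exact h

theorem gl_out : PIso M (gl M C τ w) (idOn (⋃ j, C j)ᶜ) := glue_out

theorem gl_nbr (hC : Fam M C) (hα : 0 < α)
    (hτ : ∀ j, BF M (τ j) (cl M (C j)) (cl M (C j)) α (idOn (nbr M (C j)))) (j : ℕ) :
    nbr (gl M C τ w) (C j) = nbr M (C j) :=
  glue_nbr hC hα (gl_hyp hτ) j

theorem gl_conn (hC : Fam M C) (hα : Ordinal.omega0 + 2 ≤ α)
    (hτ : ∀ j, BF M (τ j) (cl M (C j)) (cl M (C j)) α (idOn (nbr M (C j)))) (j : ℕ)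
    (hj : ConnSet M (C j)) : ConnSet (gl M C τ w) (C j) :=
  glue_conn hC hα (gl_hyp hτ) j hj

/-- congruence in the replacements -/
theorem gl_congr {τ' : ℕ → St a} (h : ∀ i ∈ w, τ i = τ' i) : gl M C τ w = gl M C τ' w := by
  unfold gl
  congr 1
  funext i
  split_ifs with hi
  · exact h i hi
  · rfl

/-- composition of identities -/
theorem piso_id_trans {M₁ M₂ M₃ : St a} {S : Set ℕ} (h : PIso M₁ M₂ (idOn S))
    (h' : PIso M₂ M₃ (idOn S)) : PIso M₁ M₃ (idOn S) := by
  have := h.comp h'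
  rwa [comp_idOn_left (fun u hu => hu.2)] at this

theorem piso_id_symm {M₁ M₂ : St a} {S : Set ℕ} (h : PIso M₁ M₂ (idOn S)) :
    PIso M₂ M₁ (idOn S) := by
  have := h.symm
  rwa [inv_idOn] at this

/-- connectedness depends only on the structure on the set -/
theorem connSet_of_piso {M₁ M₂ : St a} {V : Set ℕ} (h : PIso M₁ M₂ (idOn V))
    (hV : ConnSet M₁ V) : ConnSet M₂ V := by
  have hp : ∀ n x y, Path M₁ Vᶜ n x y → Path M₂ Vᶜ n x y := by
    intro n x y hP
    induction hP with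
    | nil hx => exact Path.nil hx
    | cons hx h1 h2 ih =>
      refine Path.cons hx ?_ ih
      have h3 := h2.left_notMem
      rw [notMem_compl_iff] at hx h3
      exact (h.adj (idOn_self hx) (idOn_self h3)).1 h1
  intro x hx y hy
  obtain ⟨n, hn⟩ := hV x hx y hy
  exact ⟨n, hp n x y hn⟩

/-- move the target of an isomorphism -/
theorem fiso_of_piso {σ N N' : St a} {D S V : Set ℕ} (h : FIso σ D S N V)
    (hN : PIso N N' (idOn (cl N V))) (hn : nbr N' V = nbr N V) : FIso σ D S N' V := by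
  obtain ⟨q, h1, h2, h3, h4, h5⟩ := h
  have hcl : cl N' V = cl N V := by unfold cl; rw [hn]
  refine ⟨q, ?_, ?_, h3, ?_, ?_⟩
  · have := h1.comp hN
    rwa [comp_idOn_right (fun u hu => (h2 hu).2)] at this
  · rw [hcl]; exact h2
  · rw [hcl]; exact h4
  · rw [hn]; exact h5

/-- the inverse isomorphism, between two standard flaps -/
theorem fiso_swap {σ σ' N N' : St a} {D V S : Set ℕ} (h : FIso σ D S N V)
    (hnV : nbr N V = S) (hσ' : PIso σ' N (idOn (cl N V))) (hnD : nbr N' D = S)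
    (hσ : PIso σ N' (idOn (cl N' D))) : FIso σ' V S N' D := by
  obtain ⟨q, h1, h2, h3, h4, h5⟩ := h
  have hclV : cl N V = V ∪ S := by unfold cl; rw [hnV]
  have hclD : cl N' D = D ∪ S := by unfold cl; rw [hnD]
  refine ⟨inv q, ?_, ?_, ?_, ?_, ?_⟩
  · have e1 := hσ'.comp (h1.symm.comp hσ)
    rw [comp_idOn_right (p := inv q) (fun u hu => by rw [hclD]; exact (h2 hu).1),
      comp_idOn_left (p := inv q) (fun u hu => (h2 hu).2)] at e1
    exact e1
  · intro u hu
    have := h2 hu
    rw [hclV] at this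
    rw [hclD]
    exact ⟨this.2, this.1⟩
  · intro x hx
    rw [← hclV] at hx
    exact h4 x hx
  · intro y hy
    rw [hclD] at hy
    exact h3 y hy
  · intro u hu
    have := h5 _ hu
    rw [hnV] at this
    rw [hnD]
    exact this.symm

/-- Data: a sequence of big flaps with the same neighbourhood and generic replacements. -/
structure Data (α : Ordinal.{0}) (K : Set (St a)) (M : St a) (F S : Set ℕ) (C : ℕ → Set ℕ)
    (τ : ℕ → St a) : Prop where
  good : Good α K
  mem : M ∈ K
  fin : F.Finite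
  sub : S ⊆ F
  fam : Fam M C
  flap : ∀ j, Flap M (C j)
  nb : ∀ j, nbr M (C j) = S
  disj : ∀ j, Disjoint (C j) F
  bf : ∀ j, BF M (τ j) (cl M (C j)) (cl M (C j)) α (idOn (nbr M (C j)))
  gen : ∀ j (w : Set ℕ), w.Finite → (∀ i ∈ w, i < j) → ∀ V, Flap (gl M C τ w) V →
    ¬ FIso (τ j) (C j) S (gl M C τ w) V

theorem Data.omega_le {K : Set (St a)} {F S : Set ℕ} (h : Data α K M F S C τ) :
    Ordinal.omega0 ≤ α := by
  conv_rhs => rw [← h.good.absorb]
  exact le_self_add

theorem Data.pos {K : Set (St a)} {F S : Set ℕ} (h : Data α K M F S C τ) : 0 < α :=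
  Ordinal.omega0_pos.trans_le h.omega_le

/-- the key step -/
theorem Data.step {K : Set (St a)} {F S : Set ℕ} (h : Data α K M F S C τ) {z z' : Set ℕ}
    (hi : IsoOn (gl M C τ z) (gl M C τ z') univ univ (idOn F)) {n : ℕ} (hn : n ∈ z) :
    n ∈ z' := by
  by_contra hn'
  obtain ⟨q, q1, q2, q3, q4, q5⟩ := hi
  set Mz := gl M C τ z with hMz
  set Mz' := gl M C τ z' with hMz'
  have hω := h.omega_le
  have h0 := h.pos
  have hclj : ∀ j, cl M (C j) = C j ∪ S := fun j => by unfold cl; rw [h.nb j]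
  have hnbr : ∀ (w : Set ℕ) j, nbr (gl M C τ w) (C j) = S := fun w j => by
    rw [gl_nbr h.fam h0 h.bf j, h.nb j]
  have hconn : ∀ (w : Set ℕ) j, ConnSet (gl M C τ w) (C j) := fun w j =>
    gl_conn h.fam h.good.omega_add_two_le h.bf j (h.flap j).2.1
  have hclw : ∀ (w : Set ℕ) j, cl (gl M C τ w) (C j) = cl M (C j) := fun w j => by
    unfold cl; rw [gl_nbr h.fam h0 h.bf j]
  have hflap : ∀ (w : Set ℕ) j, Flap (gl M C τ w) (C j) := fun w j =>
    ⟨(h.flap j).1, hconn w j, by rw [hnbr]; exact h.fin.subset h.sub⟩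
  -- the image of `C n`
  set V : Set ℕ := {y | ∃ x ∈ C n, (x, y) ∈ q} with hV
  have hfix : ∀ x ∈ F, (x, x) ∈ q := fun x hx => q1 (idOn_self hx)
  have hmemV : ∀ u ∈ q, (u.1 ∈ C n ↔ u.2 ∈ V) := by
    rintro ⟨x, y⟩ hu
    constructor
    · intro hx; exact ⟨x, hx, hu⟩
    · rintro ⟨x', hx', hu'⟩
      have := q3.fst_eq hu hu' rfl
      simp only
      rw [this]; exact hx'
  have hVF : Disjoint V F := by
    rw [disjoint_left]
    rintro y ⟨x, hx, hxy⟩ hy
    have := q3.fst_eq hxy (hfix y hy) rfl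
    rw [this] at hx
    exact (disjoint_left.1 (h.disj n)) hx hy
  have hVne : V.Nonempty := by
    obtain ⟨x, hx⟩ := (h.flap n).1
    obtain ⟨y, hy⟩ := q4 x (mem_univ x)
    exact ⟨y, x, hx, hy⟩
  have hVconn : ConnSet Mz' V := by
    rintro y ⟨x, hx, hxy⟩ y' ⟨x', hx', hxy'⟩
    obtain ⟨m, hm⟩ := hconn z n x hx x' hx'
    refine ⟨m, path_transfer_univ (S := (C n)ᶜ) (S' := Vᶜ) (p := q)
      (BF_of_total q2 q3 q4 q5) ?_ ?_ ?_ hxy hxy' hm⟩
    · intro u hu
      rw [mem_compl_iff, mem_compl_iff, hmemV u hu]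
    · intro s _; exact q4 s (mem_univ s)
    · intro s _; exact q5 s (mem_univ s)
  have hVnbr : nbr Mz' V = S := by
    ext y
    obtain ⟨x, hxy⟩ := q5 y (mem_univ y)
    have key : y ∈ nbr Mz' V ↔ x ∈ nbr Mz (C n) := by
      constructor
      · rintro ⟨hy, v, ⟨c, hc, hcv⟩, hv⟩
        exact ⟨fun hx => hy ⟨x, hx, hxy⟩, c, hc, (q3.adj hcv hxy).2 hv⟩
      · rintro ⟨hx, c, hc, hcx⟩
        obtain ⟨v, hcv⟩ := q4 c (mem_univ c)
        exact ⟨fun hy => hx ((hmemV _ hxy).2 hy), v, ⟨c, hc, hcv⟩, (q3.adj hcv hxy).1 hcx⟩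
    rw [key, hMz, hnbr]
    constructor
    · intro hx
      have := q3.snd_eq hxy (hfix x (h.sub hx)) rfl
      rw [this]; exact hx
    · intro hy
      have := q3.fst_eq hxy (hfix y (h.sub hy)) rfl
      rw [this]; exact hy
  have hclV : cl Mz' V = V ∪ S := by unfold cl; rw [hVnbr]
  -- the isomorphism of `τ n` with `V`
  have hF : FIso (τ n) (C n) S Mz' V := by
    refine ⟨comp (idOn (cl M (C n))) q, (gl_in_true h.fam h.bf hn).comp q3, ?_, ?_, ?_, ?_⟩
    · rintro ⟨x, y⟩ ⟨v, ⟨hv1, hv2⟩, hv3⟩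
      simp only at hv1 hv2 hv3
      subst hv1
      rw [hclj] at hv2
      rw [hclV]
      refine ⟨hv2, ?_⟩
      rcases hv2 with hx | hx
      · exact Or.inl ⟨x, hx, hv3⟩
      · right
        have := q3.snd_eq hv3 (hfix x (h.sub hx)) rfl
        simp only
        rw [this]; exact hx
    · intro x hx
      obtain ⟨y, hy⟩ := q4 x (mem_univ x)
      exact ⟨y, x, ⟨rfl, by rw [hclj]; exact hx⟩, hy⟩
    · intro y hy
      rw [hclV] at hy
      rcases hy with ⟨x, hx, hxy⟩ | hy
      · exact ⟨x, x, ⟨rfl, by rw [hclj]; exact Or.inl hx⟩, hxy⟩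
      · exact ⟨y, y, ⟨rfl, by rw [hclj]; exact Or.inr hy⟩, hfix y (h.sub hy)⟩
    · rintro ⟨x, y⟩ ⟨v, ⟨hv1, hv2⟩, hv3⟩
      simp only at hv1 hv2 hv3
      subst hv1
      rw [hVnbr]
      simp only
      constructor
      · intro hx
        have := q3.snd_eq hv3 (hfix x (h.sub hx)) rfl
        rw [this]; exact hx
      · intro hy
        have := q3.fst_eq hv3 (hfix y (h.sub hy)) rfl
        rw [this]; exact hy
  have hSV : Disjoint V S := hVF.mono_right h.sub
  have hSC : ∀ i, Disjoint (C i) S := fun i => (h.disj i).mono_right h.sub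
  by_cases hmeet : ∃ i, ¬ Disjoint V (C i)
  · obtain ⟨i, hi⟩ := hmeet
    have e1 : V ⊆ C i := hVconn.subset_of_meets (by rw [hMz', hnbr]; exact hSV) hi
    have e2 : C i ⊆ V := (hconn z' i).subset_of_meets (by rw [← hMz', hVnbr]; exact hSC i)
      (fun hd => hi hd.symm)
    have hVC : V = C i := e1.antisymm e2
    rw [hVC] at hF
    by_cases hi' : i ∈ z'
    · have hin : i ≠ n := fun he => hn' (he ▸ hi')
      rcases lt_or_gt_of_ne hin with hlt | hgt
      · -- `i < n`
        refine h.gen n {i} (finite_singleton i) (by simpa using hlt) (C i) (hflap _ i) ?_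
        refine fiso_of_piso hF ?_ ?_
        · rw [hMz', hclw]
          exact piso_id_trans (piso_id_symm (gl_in_true h.fam h.bf hi'))
            (gl_in_true h.fam h.bf (mem_singleton i))
        · rw [hMz', hnbr, hnbr]
      · -- `n < i`
        refine h.gen i {n} (finite_singleton n) (by simpa using hgt) (C n) (hflap _ n) ?_
        refine fiso_swap hF (by rw [hMz', hnbr]) ?_ (hnbr _ n) ?_
        · rw [hMz', hclw]
          exact gl_in_true h.fam h.bf hi'
        · rw [hclw]
          exact gl_in_true h.fam h.bf (mem_singleton n)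
    · refine h.gen n ∅ finite_empty (by simp) (C i) (hflap _ i) ?_
      refine fiso_of_piso hF ?_ ?_
      · rw [hMz', hclw]
        exact piso_id_trans (piso_id_symm (gl_in_false h.fam h.bf hi'))
          (gl_in_false h.fam h.bf (notMem_empty i))
      · rw [hMz', hnbr, hnbr]
  · push Not at hmeet
    have hsubV : V ∪ S ⊆ (⋃ j, C j)ᶜ := by
      intro y hy hyC
      obtain ⟨j, hj⟩ := mem_iUnion.1 hyC
      rcases hy with hy | hy
      · exact disjoint_left.1 (hmeet j) hy hj
      · exact disjoint_left.1 (hSC j) hj hy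
    have hag : PIso Mz' (gl M C τ ∅) (idOn (⋃ j, C j)ᶜ) :=
      piso_id_trans (piso_id_symm gl_out) gl_out
    have hsym := h.good.symm _ (gl_mem (w := (∅ : Set ℕ)) h.good h.mem h.fam h.bf)
    have hn0 : nbr (gl M C τ ∅) V = S := by
      rw [← hVnbr]
      ext y
      by_cases hy : y ∈ ⋃ j, C j
      · obtain ⟨j, hj⟩ := mem_iUnion.1 hy
        constructor
        · rintro ⟨_, v, hv, hvy⟩
          exfalso
          have h1 : v ∈ nbr (gl M C τ ∅) (C j) :=
            ⟨fun hvj => disjoint_left.1 (hmeet j) hv hvj, y, hj, hsym _ _ hvy⟩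
          rw [hnbr] at h1
          exact disjoint_left.1 hSV hv h1
        · intro h1
          rw [hVnbr] at h1
          exact absurd h1 (disjoint_left.1 (hSC j) hj)
      · constructor
        · rintro ⟨h1, v, hv, hvy⟩
          exact ⟨h1, v, hv, (hag.adj (idOn_self (hsubV (Or.inl hv))) (idOn_self hy)).2 hvy⟩
        · rintro ⟨h1, v, hv, hvy⟩
          exact ⟨h1, v, hv, (hag.adj (idOn_self (hsubV (Or.inl hv))) (idOn_self hy)).1 hvy⟩
    have hc0 : ConnSet (gl M C τ ∅) V :=
      connSet_of_piso (hag.mono (idOn_mono (subset_union_left.trans hsubV))) hVconn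
    refine h.gen n ∅ finite_empty (by simp) V
      ⟨hVne, hc0, by rw [hn0]; exact h.fin.subset h.sub⟩ ?_
    refine fiso_of_piso hF ?_ ?_
    · rw [hclV]; exact hag.mono (idOn_mono hsubV)
    · rw [hn0, hVnbr]

end FinBig

open FinBig in
theorem finite_big {α : Ordinal.{0}} {K : Set (St a)} (hK : Good α K) {M : St a} (hM : M ∈ K)
    {F : Set ℕ} (hF : F.Finite) :
    {C : Set ℕ | Flap M C ∧ Big α M C ∧ nbr M C ⊆ F ∧ Disjoint C F}.Finite := by
  classical
  by_contra hinf
  -- one neighbourhood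
  obtain ⟨S, hS, hSinf⟩ : ∃ S ⊆ F, {C : Set ℕ | (Flap M C ∧ Big α M C ∧ nbr M C ⊆ F ∧
      Disjoint C F) ∧ nbr M C = S}.Infinite := by
    by_contra hc
    push Not at hc
    apply hinf
    have h1 : {C : Set ℕ | Flap M C ∧ Big α M C ∧ nbr M C ⊆ F ∧ Disjoint C F} ⊆
        ⋃ S ∈ 𝒫 F, {C : Set ℕ | (Flap M C ∧ Big α M C ∧ nbr M C ⊆ F ∧
          Disjoint C F) ∧ nbr M C = S} := by
      intro C hC
      simp only [mem_iUnion]
      exact ⟨nbr M C, hC.2.2.1, hC, rfl⟩
    refine Set.Finite.subset (Set.Finite.biUnion hF.finite_subsets fun S hS => ?_) h1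
    exact hc S hS
  set C : ℕ → Set ℕ := fun n => (hSinf.natEmbedding _ n : Set ℕ) with hCdef
  have hCmem : ∀ n, (Flap M (C n) ∧ Big α M (C n) ∧ nbr M (C n) ⊆ F ∧
      Disjoint (C n) F) ∧ nbr M (C n) = S := fun n => (hSinf.natEmbedding _ n).2
  have hCinj : ∀ i j, C i = C j → i = j := fun i j hij =>
    (hSinf.natEmbedding _).injective (Subtype.ext hij)
  have hfam : Fam M C := by
    refine ⟨fun i j hij => ?_, fun i j hij => ?_⟩
    · rw [disjoint_left]
      intro x hx hx'
      apply hij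
      apply hCinj
      rw [eq_flapAt (hCmem i).1.1.2.1 (hCmem i).1.2.2.1 (hCmem i).1.2.2.2 hx,
        eq_flapAt (hCmem j).1.1.2.1 (hCmem j).1.2.2.1 (hCmem j).1.2.2.2 hx']
    · exact ((hCmem j).1.2.2.2.mono_right (hCmem i).1.2.2.1).symm
  have hω : Ordinal.omega0 ≤ α := by
    conv_rhs => rw [← hK.absorb]
    exact le_self_add
  -- generic replacements
  obtain ⟨τ, hτ⟩ := exists_seq M
    (fun j h x => BF M x (cl M (C j)) (cl M (C j)) α (idOn (nbr M (C j))) ∧
      ∀ w : Set ℕ, w.Finite → (∀ i ∈ w, i < j) → ∀ V, Flap (gl M C h w) V →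
        ¬ FIso x (C j) S (gl M C h w) V)
    (by
      rintro j h h' x hh ⟨h1, h2⟩
      refine ⟨h1, fun w hw hwj V hV => ?_⟩
      have e : gl M C h w = gl M C h' w := gl_congr fun i hi => hh i (hwj i hi)
      rw [← e] at hV ⊢
      exact h2 w hw hwj V hV)
    (by
      intro j h
      obtain ⟨e, he⟩ := exists_surjective_nat (Finset ℕ)
      obtain ⟨x, hx1, hx2⟩ := big_choice hω (hCmem j).1.1.2.2 (hCmem j).1.2.1
        (fun m => gl M C h (e m : Set ℕ))
      refine ⟨x, hx1, fun w hw _ V hV => ?_⟩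
      obtain ⟨m, hm⟩ := he hw.toFinset
      have hwm : (e m : Set ℕ) = w := by rw [hm]; exact hw.coe_toFinset
      have := hx2 m V (by simp only [hwm]; exact hV)
      simp only [hwm, (hCmem j).2] at this
      exact this)
  have hdata : Data α K M F S C τ :=
    ⟨hK, hM, hF, hS, hfam, fun j => (hCmem j).1.1, fun j => (hCmem j).2,
      fun j => (hCmem j).1.2.2.2, fun j => (hτ j).1, fun j => (hτ j).2⟩
  refine few_base hK.few hF (fun z : ℕ → Bool => gl M C τ {i | z i = true})
    (fun z => gl_mem hK hM hfam fun j => (hτ j).1) fun z z' hi => ?_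
  funext n
  have h1 : z n = true → z' n = true := fun hn => hdata.step hi (n := n) hn
  have hi' := hi.symm
  rw [inv_idOn] at hi'
  have h2 : z' n = true → z n = true := fun hn => hdata.step hi' (n := n) hn
  cases hz : z n <;> cases hz' : z' n <;> simp_all

end Pool.Agent.H533R2.VC
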