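import Pool.Agent.H533R2.VC.Anti
import Pool.Agent.H533R2.VC.FinBig

set_option autoImplicit false

/-! Finitely many pure ends (task ENDS). -/

namespace Pool.Agent.H533R2.VC

open Set

variable {a : ℕ → ℕ}

/-- The end `V` is pure from level `n` on. -/
structure Pure (α : Ordinal.{0}) (M : St a) (V : ℕ → Set ℕ) (n : ℕ) : Prop where
  isEnd : End M V
  big : ∀ m, Big α M (V m)
  meet : ∀ C, Flap M C → Big α M C → C ⊆ V n → ∀ m, ¬ Disjoint C (V m)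
  dom : ∀ d ∈ dom M V, d < n
  ne : ∃ s ∈ nbr M (V n), s ∉ VC.dom M V

/-- At level `n` all big flaps are pure. -/
def Level (α : Ordinal.{0}) (M : St a) (n : ℕ) : Prop :=
  ∀ C, Flap M C → Big α M C → nbr M C ⊆ Iio n → Disjoint C (Iio n) →
    ∃ V, Pure α M V n ∧ V n = C

namespace EndsAux

variable {M : St a}

/-- Components of the complement of `Iio n`. -/
structure Comp (M : St a) (n : ℕ) (C : Set ℕ) : Prop where
  ne : C.Nonempty
  conn : ConnSet M C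
  nbr : VC.nbr M C ⊆ Iio n
  disj : Disjoint C (Iio n)

theorem Comp.sub {m n : ℕ} {C C' : Set ℕ} (h : Comp M m C) (h' : Comp M n C') (hmn : m ≤ n)
    {x : ℕ} (hx : x ∈ C) (hx' : x ∈ C') : C' ⊆ C := by
  apply h'.conn.subset_of_meets
  · exact h'.disj.mono_right (h.nbr.trans (Iio_subset_Iio hmn))
  · intro hd
    exact Set.disjoint_left.1 hd hx' hx

theorem Comp.eq {n : ℕ} {C C' : Set ℕ} (h : Comp M n C) (h' : Comp M n C') {x : ℕ}
    (hx : x ∈ C) (hx' : x ∈ C') : C = C' :=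
  subset_antisymm (h'.sub h le_rfl hx' hx) (h.sub h' le_rfl hx hx')

theorem konig (T : ℕ → Set (Set ℕ)) (h1 : ∀ n, ∀ C ∈ T n, Comp M n C) (h2 : ∀ n, (T n).Finite)
    (h3 : ∀ n, (T n).Nonempty)
    (h4 : ∀ m n, m ≤ n → ∀ C' ∈ T n, ∃ C ∈ T m, C' ⊆ C) :
    ∃ V : ℕ → Set ℕ, (∀ n, V n ∈ T n) ∧ ∀ n, V (n + 1) ⊆ V n := by
  choose anc hanc hsub using h4
  haveI : ∀ n, Finite (T n) := fun n => (h2 n).to_subtype
  haveI : ∀ n, Nonempty (T n) := fun n => (h3 n).to_subtype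
  let π : {i j : ℕ} → i ≤ j → T j → T i := fun {i j} hij C => ⟨anc i j hij C.1 C.2, hanc i j hij C.1 C.2⟩
  have key : ∀ (i : ℕ) (C D : T i) (E : Set ℕ), E.Nonempty → E ⊆ C.1 → E ⊆ D.1 → C = D := by
    intro i C D E hE hC hD
    obtain ⟨x, hx⟩ := hE
    exact Subtype.ext ((h1 i C.1 C.2).eq (h1 i D.1 D.2) (hC hx) (hD hx))
  obtain ⟨f, hf⟩ := exists_seq_forall_proj_of_forall_finite (α := fun i => T i) π
    (fun i C => key i _ _ C.1 (h1 i C.1 C.2).ne (hsub i i le_rfl C.1 C.2) Subset.rfl)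
    (fun i j k hij hjk C => key i _ _ C.1 (h1 k C.1 C.2).ne
      ((hsub j k hjk C.1 C.2).trans (hsub i j hij _ _)) (hsub i k (hij.trans hjk) C.1 C.2))
    (fun i C => Set.toFinite _)
  refine ⟨fun n => (f n).1, fun n => (f n).2, fun n => ?_⟩
  have := hf (Nat.le_add_right n 1)
  show (f (n + 1)).1 ⊆ (f n).1
  rw [← this]
  exact hsub n (n + 1) _ _ _

/-- Big flaps at level `n`. -/
def B (α : Ordinal.{0}) (M : St a) (n : ℕ) : Set (Set ℕ) :=
  {C | Flap M C ∧ Big α M C ∧ nbr M C ⊆ Iio n ∧ Disjoint C (Iio n)}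

theorem B_comp {α : Ordinal.{0}} {n : ℕ} {C : Set ℕ} (h : C ∈ B α M n) : Comp M n C :=
  ⟨h.1.1, h.1.2.1, h.2.2.1, h.2.2.2⟩

variable {α : Ordinal.{0}} {K : Set (St a)}

theorem ancestor (hK : Good α K) (hM : M ∈ K) {m n : ℕ} (hmn : m ≤ n) {C : Set ℕ}
    (hC : C ∈ B α M n) : ∃ C' ∈ B α M m, C ⊆ C' := by
  obtain ⟨x, hx⟩ := hC.1.1
  have hd : Disjoint C (Iio m) := hC.2.2.2.mono_right (Iio_subset_Iio hmn)
  have hx' : x ∉ Iio m := Set.disjoint_left.1 hd hx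
  have hF := flap_flapAt (hK.symm M hM) (finite_Iio m) hx'
  have hs := hC.1.2.1.subset_flapAt hd hx
  exact ⟨flapAt M (Iio m) x, ⟨hF, big_mono hK hM hC.1 hF hs hC.2.1, nbr_flapAt x,
    flapAt_disjoint x⟩, hs⟩

/-- persistent elements -/
def P (α : Ordinal.{0}) (M : St a) (n : ℕ) : Set (Set ℕ) :=
  {C | C ∈ B α M n ∧ ∀ m, n ≤ m → ∃ C' ∈ B α M m, C' ⊆ C}

theorem isEnd_of {V : ℕ → Set ℕ} (h : ∀ n, Comp M n (V n)) (h' : ∀ n, V (n + 1) ⊆ V n) :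
    End M V :=
  ⟨fun n => (h n).ne, fun n => (h n).conn, fun n => (h n).nbr, fun n => (h n).disj, h'⟩

/-- good elements -/
def Gd (α : Ordinal.{0}) (M : St a) (n : ℕ) (C : Set ℕ) : Prop :=
  ∃ V, End M V ∧ V n = C ∧ (∀ m, Big α M (V m)) ∧
    ∀ C', Flap M C' → Big α M C' → C' ⊆ C → ∀ m, ¬ Disjoint C' (V m)

theorem end_comp {V : ℕ → Set ℕ} (h : End M V) (n : ℕ) : Comp M n (V n) :=
  ⟨h.ne n, h.conn n, h.nbr n, h.disj n⟩

theorem Gd.desc {n m : ℕ} {C C1 : Set ℕ} (h : Gd α M n C) (h1 : C1 ∈ B α M m) (hC : C1 ⊆ C) :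
    Gd α M m C1 := by
  obtain ⟨V, hV, _, hb, hm⟩ := h
  have h2 := hm C1 h1.1 h1.2.1 hC m
  rw [Set.not_disjoint_iff] at h2
  obtain ⟨x, hx, hx'⟩ := h2
  exact ⟨V, hV, ((end_comp hV m).eq (B_comp h1) hx' hx), hb,
    fun C' h3 h4 h5 => hm C' h3 h4 (h5.trans hC)⟩

theorem exists_good (hK : Good α K) (hM : M ∈ K) : ∃ n, ∀ C ∈ P α M n, Gd α M n C := by
  by_contra hcon
  push Not at hcon
  obtain ⟨V, hV, hV'⟩ := konig (M := M) (fun n => {C | C ∈ P α M n ∧ ¬ Gd α M n C})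
    (fun n C hC => B_comp hC.1.1)
    (fun n => (finite_big hK hM (finite_Iio n)).subset fun C hC => hC.1.1)
    (fun n => by obtain ⟨C, h1, h2⟩ := hcon n; exact ⟨C, h1, h2⟩)
    (by
      intro m n hmn C' hC'
      obtain ⟨C, hC, hsub⟩ := ancestor hK hM hmn hC'.1.1
      obtain ⟨x, hx⟩ := hC'.1.1.1.1
      refine ⟨C, ⟨⟨hC, ?_⟩, ?_⟩, hsub⟩
      · intro j hj
        rcases le_total n j with h | h
        · obtain ⟨C3, h3, h4⟩ := hC'.1.2 j h
          exact ⟨C3, h3, h4.trans hsub⟩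
        · obtain ⟨C3, h3, h4⟩ := ancestor hK hM h hC'.1.1
          exact ⟨C3, h3, (B_comp hC).sub (B_comp h3) hj (hsub hx) (h4 hx)⟩
      · intro hG
        exact hC'.2 (hG.desc hC'.1.1 hsub))
  have hE : End M V := isEnd_of (fun n => B_comp (hV n).1.1) hV'
  obtain ⟨n, hn⟩ := no_antichain hK hM hE
  exact (hV n).2 ⟨V, hE, rfl, fun m => (hV m).1.1.2.1, hn⟩

end EndsAux

open EndsAux in
theorem exists_level {α : Ordinal.{0}} {K : Set (St a)} (hK : Good α K) {M : St a} (hM : M ∈ K) :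
    ∃ n, Level α M n := by
  obtain ⟨n0, hn0⟩ := exists_good hK hM
  have key : ∀ C, ∃ mC, C ∈ B α M n0 → ∀ m, mC ≤ m → n0 ≤ m → ∀ C1 ∈ B α M m, C1 ⊆ C →
      ∃ V, Pure α M V m ∧ V m = C1 := by
    intro C
    by_cases hC : C ∈ B α M n0
    · by_cases hP : C ∈ P α M n0
      · obtain ⟨V, hE, hVn, hb, hm⟩ := hn0 C hP
        obtain ⟨mC, hmC⟩ := exists_ne_dom hK hM hE
        refine ⟨mC, fun _ m h1 h2 C1 hC1 hsub => ?_⟩
        have h3 := hm C1 hC1.1 hC1.2.1 hsub m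
        rw [Set.not_disjoint_iff] at h3
        obtain ⟨x, hx, hx'⟩ := h3
        have he : V m = C1 := (end_comp hE m).eq (B_comp hC1) hx' hx
        refine ⟨V, ⟨hE, hb, ?_, (hmC m h1).1, (hmC m h1).2⟩, he⟩
        intro C' h4 h5 h6
        exact hm C' h4 h5 (h6.trans (he ▸ hsub))
      · have hP' : ∃ m, n0 ≤ m ∧ ∀ C' ∈ B α M m, ¬ C' ⊆ C := by
          by_contra hcon
          push Not at hcon
          exact hP ⟨hC, hcon⟩
        obtain ⟨mC, h1, h2⟩ := hP'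
        refine ⟨mC, fun _ m h3 _ C1 hC1 hsub => ?_⟩
        exfalso
        obtain ⟨C2, hC2, hs2⟩ := ancestor hK hM h3 hC1
        obtain ⟨x, hx⟩ := hC1.1.1
        exact h2 C2 hC2 ((B_comp hC).sub (B_comp hC2) h1 (hsub hx) (hs2 hx))
    · exact ⟨0, fun h => absurd h hC⟩
  choose f hf using key
  have hfin : (B α M n0).Finite := finite_big hK hM (finite_Iio n0)
  obtain ⟨N, hN⟩ := (hfin.image f).bddAbove
  refine ⟨max N n0, ?_⟩
  intro C1 h1 h2 h3 h4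
  have hC1 : C1 ∈ B α M (max N n0) := ⟨h1, h2, h3, h4⟩
  obtain ⟨C, hC, hsub⟩ := ancestor hK hM (le_max_right N n0) hC1
  exact hf C hC _ ((hN ⟨C, hC, rfl⟩).trans (le_max_left _ _)) (le_max_right _ _) C1 hC1 hsub

end Pool.Agent.H533R2.VC
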