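import Pool.Agent.H533R2.VC.Basic

set_option autoImplicit false

/-! Back-and-forth systems and Scott's theorem (task SCOTT). -/

namespace Pool.Agent.H533R2.VC

open Set

variable {a : ℕ → ℕ}

/-- The union of an increasing sequence of partial isomorphisms is a partial isomorphism. -/
theorem PIso.iUnion {M N : St a} {q : ℕ → Set (ℕ × ℕ)} (hm : Monotone q)
    (h : ∀ n, PIso M N (q n)) : PIso M N (⋃ n, q n) := by
  refine ⟨?_, ?_, ?_⟩
  · intro u hu v hv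
    obtain ⟨m, hm'⟩ := mem_iUnion.1 hu
    obtain ⟨n, hn⟩ := mem_iUnion.1 hv
    exact (h (max m n)).1 u (hm (le_max_left _ _) hm') v (hm (le_max_right _ _) hn)
  · intro u hu v hv
    obtain ⟨m, hm'⟩ := mem_iUnion.1 hu
    obtain ⟨n, hn⟩ := mem_iUnion.1 hv
    exact (h (max m n)).2.1 u (hm (le_max_left _ _) hm') v (hm (le_max_right _ _) hn)
  · intro i t ht
    have h1 : ∀ k, ∃ n, t k ∈ q n := fun k => mem_iUnion.1 (ht k)
    choose n hn using h1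
    exact (h (Finset.univ.sup n)).2.2 i t
      (fun k => hm (Finset.le_sup (f := n) (Finset.mem_univ k)) (hn k))

/-- A back-and-forth system gives an isomorphism. -/
theorem isoOn_of_system {M N : St a} {X Y : Set ℕ} {p : Set (ℕ × ℕ)} (I : Set (Set (ℕ × ℕ)))
    (hp : p ∈ I) (hI : ∀ q ∈ I, PIso M N q ∧ q ⊆ X ×ˢ Y)
    (forth : ∀ q ∈ I, ∀ x ∈ X, ∃ q' ∈ I, q ⊆ q' ∧ ∃ y, (x, y) ∈ q')
    (back : ∀ q ∈ I, ∀ y ∈ Y, ∃ q' ∈ I, q ⊆ q' ∧ ∃ x, (x, y) ∈ q') :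
    IsoOn M N X Y p := by
  classical
  have step : ∀ (n : ℕ) (q : I), ∃ q' : I, (q : Set (ℕ × ℕ)) ⊆ q' ∧
      (n ∈ X → ∃ y, (n, y) ∈ (q' : Set (ℕ × ℕ))) ∧ (n ∈ Y → ∃ x, (x, n) ∈ (q' : Set (ℕ × ℕ))) := by
    intro n q
    obtain ⟨q1, hq1, h1, h2⟩ : ∃ q1 ∈ I, (q : Set (ℕ × ℕ)) ⊆ q1 ∧ (n ∈ X → ∃ y, (n, y) ∈ q1) := by
      by_cases hn : n ∈ X
      · obtain ⟨q1, hq1, h1, h2⟩ := forth q q.2 n hn
        exact ⟨q1, hq1, h1, fun _ => h2⟩
      · exact ⟨q, q.2, Subset.rfl, fun h => absurd h hn⟩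
    by_cases hn : n ∈ Y
    · obtain ⟨q2, hq2, h3, h4⟩ := back q1 hq1 n hn
      refine ⟨⟨q2, hq2⟩, h1.trans h3, fun h => ?_, fun _ => h4⟩
      obtain ⟨y, hy⟩ := h2 h
      exact ⟨y, h3 hy⟩
    · exact ⟨⟨q1, hq1⟩, h1, h2, fun h => absurd h hn⟩
  choose nx hnx1 hnx2 hnx3 using step
  obtain ⟨s, hs0', hss⟩ : ∃ s : ℕ → I, s 0 = ⟨p, hp⟩ ∧ ∀ n, s (n + 1) = nx n (s n) :=
    ⟨fun n => Nat.rec ⟨p, hp⟩ (fun n q => nx n q) n, rfl, fun _ => rfl⟩
  have hs0 : (s 0 : Set (ℕ × ℕ)) = p := by rw [hs0']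
  have hmono : Monotone (fun n => (s n : Set (ℕ × ℕ))) := by
    apply monotone_nat_of_le_succ
    intro n
    rw [hss]
    exact hnx1 n (s n)
  refine ⟨⋃ n, (s n : Set (ℕ × ℕ)), ?_, ?_, ?_, ?_, ?_⟩
  · exact subset_iUnion_of_subset 0 (by rw [hs0])
  · exact iUnion_subset fun n => (hI _ (s n).2).2
  · exact PIso.iUnion hmono fun n => (hI _ (s n).2).1
  · intro x hx
    obtain ⟨y, hy⟩ := hnx2 x (s x) hx
    exact ⟨y, mem_iUnion.2 ⟨x + 1, by rw [hss]; exact hy⟩⟩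
  · intro y hy
    obtain ⟨x, hx⟩ := hnx3 y (s y) hy
    exact ⟨x, mem_iUnion.2 ⟨y + 1, by rw [hss]; exact hx⟩⟩

/-- Scott: equivalence of all countable ranks implies isomorphism (domains are subsets of `ℕ`). -/
theorem scott {M N : St a} {X Y : Set ℕ} {p : Set (ℕ × ℕ)} (hp : p ⊆ X ×ˢ Y)
    (h : ∀ o : Ordinal.{0}, o < Ordinal.omega 1 → BF M N X Y o p) : IsoOn M N X Y p := by
  classical
  let P : List (ℕ × ℕ) → Set (ℕ × ℕ) := fun e => p ∪ {u | u ∈ e}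
  have hP : ∀ e : List (ℕ × ℕ), ∃ o : Ordinal.{0}, o < Ordinal.omega 1 ∧
      (BF M N X Y o (P e) → ∀ o' < Ordinal.omega 1, BF M N X Y o' (P e)) := by
    intro e
    by_cases hb : ∃ o : Ordinal.{0}, o < Ordinal.omega 1 ∧ ¬ BF M N X Y o (P e)
    · obtain ⟨o, ho, hb⟩ := hb
      exact ⟨o, ho, fun h => absurd h hb⟩
    · push Not at hb
      exact ⟨0, Ordinal.omega_pos 1, fun _ => hb⟩
  choose o ho1 ho2 using hP
  have hb : iSup o < Ordinal.omega 1 := by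
    exact Ordinal.iSup_lt_omega_one ho1
  have hb1 : iSup o + 1 < Ordinal.omega 1 := (Cardinal.isSuccLimit_omega 1).add_one_lt hb
  have hob : ∀ e, o e ≤ iSup o := fun e => Ordinal.le_iSup o e
  have hins : ∀ (x y : ℕ) (e : List (ℕ × ℕ)), insert (x, y) (P e) = P ((x, y) :: e) := by
    intro x y e
    ext u
    simp only [P, mem_insert_iff, mem_union, Set.mem_ofPred_eq, List.mem_cons]
    tauto
  apply isoOn_of_system {q | ∃ e : List (ℕ × ℕ), q = P e ∧ (∀ u ∈ e, u ∈ X ×ˢ Y) ∧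
    ∀ o' < Ordinal.omega 1, BF M N X Y o' (P e)}
  · refine ⟨[], ?_, by simp, ?_⟩
    · ext u
      simp [P]
    · have : P [] = p := by
        ext u
        simp [P]
      rw [this]
      exact h
  · rintro q ⟨e, rfl, h1, h2⟩
    refine ⟨(h2 0 (Ordinal.omega_pos 1)).piso, ?_⟩
    rintro u (hu | hu)
    · exact hp hu
    · exact h1 u hu
  · rintro q ⟨e, rfl, h1, h2⟩ x hx
    obtain ⟨y, hy, hbf⟩ := (h2 _ hb1).forth (lt_add_one (iSup o)) hx
    rw [hins] at hbf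
    refine ⟨P ((x, y) :: e), ⟨(x, y) :: e, rfl, ?_, ?_⟩, ?_, y, ?_⟩
    · intro u hu
      rcases List.mem_cons.1 hu with rfl | hu
      · exact ⟨hx, hy⟩
      · exact h1 u hu
    · exact ho2 _ (hbf.mono (hob _))
    · rw [← hins]
      exact subset_insert _ _
    · rw [← hins]
      exact mem_insert _ _
  · rintro q ⟨e, rfl, h1, h2⟩ y hy
    obtain ⟨x, hx, hbf⟩ := (h2 _ hb1).back (lt_add_one (iSup o)) hy
    rw [hins] at hbf
    refine ⟨P ((x, y) :: e), ⟨(x, y) :: e, rfl, ?_, ?_⟩, ?_, x, ?_⟩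
    · intro u hu
      rcases List.mem_cons.1 hu with rfl | hu
      · exact ⟨hx, hy⟩
      · exact h1 u hu
    · exact ho2 _ (hbf.mono (hob _))
    · rw [← hins]
      exact subset_insert _ _
    · rw [← hins]
      exact mem_insert _ _

end Pool.Agent.H533R2.VC
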