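import Pool.Agent.H533R2.VC.Choice
import Pool.Agent.H533R2.VC.Scott
import Pool.Agent.H533R2.VC.Dst

set_option autoImplicit false

/-! Small flaps are determined by a countable rank (task SEP). -/

namespace Pool.Agent.H533R2.VC

open Set

variable {a : ℕ → ℕ}

theorem zipSet_comp_subset {s t w : List ℕ} (h1 : s.length = t.length)
    (h2 : t.length = w.length) : zipSet s w ⊆ comp (zipSet s t) (zipSet t w) := by
  induction s generalizing t w with
  | nil => rw [zipSet_nil_left]; exact empty_subset _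
  | cons x s ih =>
    cases t with
    | nil => simp at h1
    | cons y t =>
      cases w with
      | nil => simp at h2
      | cons z w =>
        rw [zipSet_cons, zipSet_cons, zipSet_cons]
        refine Subset.trans ?_ (comp_insert_subset x y z)
        exact insert_subset_insert (ih (by simpa using h1) (by simpa using h2))

theorem zipSet_append_singleton {s t : List ℕ} (h : s.length = t.length) (x y : ℕ) :
    zipSet (s ++ [x]) (t ++ [y]) = insert (x, y) (zipSet s t) := by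
  ext u
  simp [zipSet, List.zip_append h, or_comm]

theorem zipSet_map_subset {q : Set (ℕ × ℕ)} {g : ℕ → ℕ} {e : List ℕ}
    (h : ∀ z ∈ e, (z, g z) ∈ q) : zipSet e (e.map g) ⊆ q := by
  intro u hu
  unfold zipSet at hu
  have h1 : e.zip (e.map g) = e.map (fun z => (z, g z)) := by
    have := List.zip_map' (f := id) (g := g) (l := e)
    simpa using this
  rw [Set.mem_ofPred_eq, h1, List.mem_map] at hu
  obtain ⟨z, hz, rfl⟩ := hu
  exact h z hz

theorem exists_zip_of_finite {p : Set (ℕ × ℕ)} (hp : p.Finite) :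
    ∃ e e' : List ℕ, e.length = e'.length ∧ zipSet e e' = p := by
  refine ⟨hp.toFinset.toList.map Prod.fst, hp.toFinset.toList.map Prod.snd, by simp, ?_⟩
  ext u
  have := List.zip_map' (f := Prod.fst) (g := Prod.snd) (l := hp.toFinset.toList)
  unfold zipSet
  rw [Set.mem_ofPred_eq, this]
  simp

/-- The key claim for one label. -/
theorem sep_label {α : Ordinal.{0}} {K : Set (St a)} (hK : Good α K)
    {c : St a → List ℕ → ℕ} (hc : ∀ M ∈ K, ∀ N ∈ K, ∀ s t : List ℕ, s.length = t.length →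
      c M s = c N t → BF M N univ univ α (zipSet s t)) (q : ℕ × ℕ) :
    ∃ f : ℕ → Tri a, ∀ M ∈ K, ∀ (C : Set ℕ) (s : List ℕ) (x : ℕ), Flap M C → Small α M C →
      (∀ z, z ∈ s ↔ z ∈ nbr M C) → x ∈ C → c M (s ++ [x]) = q.1 → s.length = q.2 →
      ∀ e : List ℕ, (∀ z ∈ e, z ∈ cl M C) → ∃ (n : ℕ) (u : List ℕ), u.length = e.length ∧
        (∀ z ∈ u, z ∈ (f n).2.1) ∧ IsoOn M (f n).1 (cl M C) (f n).2.1 (zipSet e u) := by
  classical
  by_cases hex : ∃ M0 ∈ K, ∃ (C0 : Set ℕ) (s0 : List ℕ) (x0 : ℕ), Flap M0 C0 ∧ Small α M0 C0 ∧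
      (∀ z, z ∈ s0 ↔ z ∈ nbr M0 C0) ∧ x0 ∈ C0 ∧ c M0 (s0 ++ [x0]) = q.1 ∧ s0.length = q.2
  swap
  · refine ⟨fun _ => (⟨fun _ _ => false, fun _ _ => false⟩, ∅, ∅), ?_⟩
    intro M hM C s x h1 h2 h3 h4 h5 h6
    exact absurd ⟨M, hM, C, s, x, h1, h2, h3, h4, h5, h6⟩ hex
  obtain ⟨M0, hM0, C0, s0, x0, hF0, ⟨f, hf1, hf2⟩, hs0, hx0, hl0, hn0⟩ := hex
  refine ⟨f, ?_⟩
  intro M hM C s x hF hS hs hx hl hn e he
  have hlen : s0.length = s.length := by rw [hn0, hn]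
  have hbf := hc M0 hM0 M hM (s0 ++ [x0]) (s ++ [x]) (by simp [hlen]) (by rw [hl0, hl])
  rw [← hK.absorb] at hbf
  rw [zipSet_append_singleton hlen] at hbf
  have hx0n : x0 ∉ nbr M0 C0 := fun h => h.1 hx0
  have hxn : x ∉ nbr M C := fun h => h.1 hx
  have key := flap_bf (S := nbr M0 C0) (S' := nbr M C) (x := x0) (x' := x) hbf
    (by
      rintro u (rfl | hu)
      · simp only
        exact ⟨fun h => absurd h hx0n, fun h => absurd h hxn⟩
      · exact ⟨fun _ => (hs _).1 (mem_zipSet_right (x := u.1) hu),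
          fun _ => (hs0 _).1 (mem_zipSet_left (y := u.2) hu)⟩)
    (fun z hz => by
      obtain ⟨y, hy⟩ := exists_zipSet_left hlen ((hs0 z).2 hz)
      exact ⟨y, Or.inr hy⟩)
    (fun z hz => by
      obtain ⟨y, hy⟩ := exists_zipSet_right hlen ((hs z).2 hz)
      exact ⟨y, Or.inr hy⟩) (Or.inl rfl) hx0n
  have e0 : flapAt M0 (nbr M0 C0) x0 = C0 := by
    symm
    exact eq_flapAt hF0.2.1 Subset.rfl
      (Set.disjoint_left.2 fun z hz hz' => hz'.1 hz) hx0
  have e1 : flapAt M (nbr M C) x = C := by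
    symm
    exact eq_flapAt hF.2.1 Subset.rfl
      (Set.disjoint_left.2 fun z hz hz' => hz'.1 hz) hx
  rw [e0, e1] at key
  have hvar : Vari α M0 C0 (M, cl M C, zipSet s0 s) := by
    refine ⟨?_, ?_, ?_⟩
    · intro u hu
      exact ⟨(hs0 _).1 (mem_zipSet_left (y := u.2) hu),
        Or.inr ((hs _).1 (mem_zipSet_right (x := u.1) hu))⟩
    · intro z hz
      exact exists_zipSet_left hlen ((hs0 z).2 hz)
    · refine key.1.subset ?_
      intro u hu
      exact ⟨Or.inr hu, Or.inr ((hs0 _).1 (mem_zipSet_left (y := u.2) hu)),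
        Or.inr ((hs _).1 (mem_zipSet_right (x := u.1) hu))⟩
  obtain ⟨n, hn'⟩ := hf2 _ hvar
  obtain ⟨r, -, hr2, hr3, hr4, hr5⟩ := hn'.symm
  simp only at hr2 hr3 hr4 hr5
  have : ∀ z, ∃ y, z ∈ cl M C → (z, y) ∈ r := by
    intro z
    by_cases hz : z ∈ cl M C
    · obtain ⟨y, hy⟩ := hr4 z hz
      exact ⟨y, fun _ => hy⟩
    · exact ⟨0, fun h => absurd h hz⟩
  choose g hg using this
  refine ⟨n, e.map g, by simp, ?_, r, zipSet_map_subset fun z hz => hg z (he z hz), hr2, hr3,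
    hr4, hr5⟩
  intro y hy
  obtain ⟨z, hz, rfl⟩ := List.mem_map.1 hy
  exact (hr2 (hg z (he z hz))).2

theorem exists_sep {α : Ordinal.{0}} {K : Set (St a)} (hK : Good α K) :
    ∃ l : Ordinal.{0}, l < Ordinal.omega 1 ∧ α ≤ l ∧ ∀ M ∈ K, ∀ N ∈ K, ∀ C D : Set ℕ,
      Flap M C → Flap N D → Small α M C → ∀ p : Set (ℕ × ℕ), p.Finite →
      p ⊆ (cl M C) ×ˢ (cl N D) → (∀ u ∈ p, (u.1 ∈ nbr M C ↔ u.2 ∈ nbr N D)) →
      (∀ s ∈ nbr M C, ∃ y, (s, y) ∈ p) → (∀ y ∈ nbr N D, ∃ s, (s, y) ∈ p) →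
      BF M N (cl M C) (cl N D) l p → IsoOn M N (cl M C) (cl N D) p := by
  classical
  obtain ⟨c, hc⟩ := labels hK.meas hK.few α hK.lt
  choose f hf using fun q : ℕ × ℕ => sep_label hK hc q
  let Θ : Type := (ℕ × ℕ) × ℕ × List ℕ
  let S : Θ → St a := fun θ => (f θ.1 θ.2.1).1
  let Y : Θ → Set ℕ := fun θ => (f θ.1 θ.2.1).2.1
  have hr : ∀ θ : Θ × Θ, ∃ o : Ordinal.{0}, o < Ordinal.omega 1 ∧
      (zipSet θ.1.2.2 θ.2.2.2 ⊆ Y θ.1 ×ˢ Y θ.2 →
        BF (S θ.1) (S θ.2) (Y θ.1) (Y θ.2) o (zipSet θ.1.2.2 θ.2.2.2) →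
        IsoOn (S θ.1) (S θ.2) (Y θ.1) (Y θ.2) (zipSet θ.1.2.2 θ.2.2.2)) := by
    intro θ
    by_contra hcon
    push Not at hcon
    have h0 := hcon 0 (Ordinal.omega_pos 1)
    refine h0.2.2 (scott h0.1 fun o ho => (hcon o ho).2.1)
  choose o ho1 ho2 using hr
  refine ⟨max α (⨆ θ, o θ), max_lt hK.lt (Ordinal.iSup_lt_omega_one ho1), le_max_left _ _, ?_⟩
  intro M hM N hN C D hC hD hsm p hp hpc h1 h2 h3 hb
  have hsmD : Small α N D := small_of_bf (hb.mono (le_max_left _ _)) h1 h2 h3 hsm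
  obtain ⟨e, e', hee, hzp⟩ := exists_zip_of_finite hp
  have he : ∀ z ∈ e, z ∈ cl M C := by
    intro z hz
    obtain ⟨y, hy⟩ := exists_zipSet_left hee hz
    rw [hzp] at hy
    exact (hpc hy).1
  have he' : ∀ z ∈ e', z ∈ cl N D := by
    intro z hz
    obtain ⟨y, hy⟩ := exists_zipSet_right hee hz
    rw [hzp] at hy
    exact (hpc hy).2
  have main : ∀ (M : St a), M ∈ K → ∀ C, Flap M C → Small α M C → ∀ e : List ℕ,
      (∀ z ∈ e, z ∈ cl M C) → ∃ θ : Θ, θ.2.2.length = e.length ∧ (∀ z ∈ θ.2.2, z ∈ Y θ) ∧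
        IsoOn M (S θ) (cl M C) (Y θ) (zipSet e θ.2.2) := by
    intro M hM C hC hsm e he
    obtain ⟨x, hx⟩ := hC.1
    have hfin := hC.2.2
    obtain ⟨n, u, hu1, hu2, hu3⟩ := hf (c M (hfin.toFinset.toList ++ [x]),
      hfin.toFinset.toList.length) M hM C hfin.toFinset.toList x hC hsm (by simp) hx rfl rfl e he
    exact ⟨((c M (hfin.toFinset.toList ++ [x]), hfin.toFinset.toList.length), n, u),
      hu1, hu2, hu3⟩
  obtain ⟨θ, hθ1, hθ2, hθ3⟩ := main M hM C hC hsm e he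
  obtain ⟨θ', hθ1', hθ2', hθ3'⟩ := main N hN D hD hsmD e' he'
  have hb2 : BF (S θ) (S θ') (Y θ) (Y θ') (o (θ, θ')) (zipSet θ.2.2 θ'.2.2) := by
    have h4 : BF M N (cl M C) (cl N D) (o (θ, θ')) (zipSet e e') := by
      rw [hzp]
      exact hb.mono ((Ordinal.le_iSup o (θ, θ')).trans (le_max_right _ _))
    have h5 := ((hθ3.symm.bf (o (θ, θ'))).comp h4).comp (hθ3'.bf (o (θ, θ')))
    rw [inv_zipSet] at h5
    refine h5.subset ?_
    refine (zipSet_comp_subset (t := e') (hθ1.trans hee) hθ1'.symm).trans ?_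
    rintro u ⟨v, hv1, hv2⟩
    exact ⟨v, zipSet_comp_subset (t := e) hθ1 hee hv1, hv2⟩
  have hiso : IsoOn (S θ) (S θ') (Y θ) (Y θ') (zipSet θ.2.2 θ'.2.2) := by
    refine ho2 (θ, θ') ?_ hb2
    intro u hu
    exact ⟨hθ2 _ (mem_zipSet_left (y := u.2) hu), hθ2' _ (mem_zipSet_right (x := u.1) hu)⟩
  have h6 := (hθ3.trans hiso).trans hθ3'.symm
  rw [inv_zipSet] at h6
  refine h6.mono ?_
  rw [← hzp]
  refine (zipSet_comp_subset (t := θ'.2.2) (hee.trans hθ1'.symm) hθ1').trans ?_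
  rintro u ⟨v, hv1, hv2⟩
  exact ⟨v, zipSet_comp_subset (t := θ.2.2) hθ1.symm (hθ1.trans (hee.trans hθ1'.symm)) hv1, hv2⟩

end Pool.Agent.H533R2.VC
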