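import Pool.Agent.H533R2.VC.Cand
import Pool.Agent.H533R2.VC.Sep
import Pool.Agent.H533R2.VC.Swap

set_option autoImplicit false

/-! Extension of equivalences, low Scott rank (task EXT). -/

namespace Pool.Agent.H533R2.VC

open Set

variable {a : ℕ → ℕ}

/-- Extension by a point in a small flap. -/
theorem ext_small {α : Ordinal.{0}} {K : Set (St a)} (hK : Good α K) {l μ : Ordinal.{0}}
    (hsep : ∀ M ∈ K, ∀ N ∈ K, ∀ C D : Set ℕ,
      Flap M C → Flap N D → Small α M C → ∀ p : Set (ℕ × ℕ), p.Finite →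
      p ⊆ (cl M C) ×ˢ (cl N D) → (∀ u ∈ p, (u.1 ∈ nbr M C ↔ u.2 ∈ nbr N D)) →
      (∀ s ∈ nbr M C, ∃ y, (s, y) ∈ p) → (∀ y ∈ nbr N D, ∃ s, (s, y) ∈ p) →
      BF M N (cl M C) (cl N D) l p → IsoOn M N (cl M C) (cl N D) p)
    (hμ : Ordinal.omega0 + μ = μ) (hlμ : l ≤ μ) {M : St a} (hM : M ∈ K) {q : Set (ℕ × ℕ)}
    (hq : q.Finite) (hb : BF M M univ univ (μ + Ordinal.omega0) q) {x : ℕ}
    (hx : x ∉ Prod.fst '' q) (hsm : Small α M (flapAt M (Prod.fst '' q) x)) :
    ∃ x', BF M M univ univ (μ + Ordinal.omega0) (insert (x, x') q) := by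
  classical
  have hs := hK.symm M hM
  have hl := hK.loc M hM
  set F : Set ℕ := Prod.fst '' q with hF
  set F' : Set ℕ := Prod.snd '' q with hF'
  have hFf : F.Finite := hq.image _
  have hFf' : F'.Finite := hq.image _
  have key : ∀ j : ℕ, ∃ y, BF M M univ univ (μ + (j : Ordinal.{0})) (insert (x, y) q) := by
    intro j
    obtain ⟨y, -, hy⟩ := hb.forth (o' := μ + (j : Ordinal.{0}))
      (by gcongr; exact Ordinal.natCast_lt_omega0 j) (mem_univ x)
    exact ⟨y, hy⟩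
  choose y hy using key
  -- the points `y j` are new
  have hyF : ∀ j, y j ∉ F' := by
    rintro j ⟨u, hu, hu2⟩
    have h1 := ((hy j).piso.1 (x, y j) (mem_insert _ _) u (mem_insert_of_mem _ hu)).2 hu2.symm
    exact hx ⟨u, hu, h1.symm⟩
  have hCflap : Flap M (flapAt M F x) := flap_flapAt hs hFf hx
  have hDflap : ∀ j, Flap M (flapAt M F' (y j)) := fun j => flap_flapAt hs hFf' (hyF j)
  have h2 : ∀ j, ∀ s ∈ F, ∃ s', (s, s') ∈ insert (x, y j) q := by
    rintro j s ⟨u, hu, rfl⟩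
    exact ⟨u.2, mem_insert_of_mem _ hu⟩
  have h3 : ∀ j, ∀ s' ∈ F', ∃ s, (s, s') ∈ insert (x, y j) q := by
    rintro j s ⟨u, hu, rfl⟩
    exact ⟨u.1, mem_insert_of_mem _ hu⟩
  have h1 : ∀ j, ∀ u ∈ insert (x, y j) q, (u.1 ∈ F ↔ u.2 ∈ F') := by
    intro j u hu
    rcases hu with rfl | hu
    · exact ⟨fun h => absurd h hx, fun h => absurd h (hyF j)⟩
    · exact ⟨fun _ => ⟨u, hu, rfl⟩, fun _ => ⟨u, hu, rfl⟩⟩
  have hfl := fun j => flap_bf (β := μ) (x := x) (x' := y j) (S := F) (S' := F')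
    (p := insert (x, y j) q) (by rw [hμ]; exact (hy j).mono le_self_add) (h1 j) (h2 j) (h3 j)
    (mem_insert _ _) hx
  -- neighbourhoods correspond
  have hnb : ∀ j, ∀ u ∈ q, (u.1 ∈ nbr M (flapAt M F x) ↔ u.2 ∈ nbr M (flapAt M F' (y j))) :=
    fun j u hu => (hfl j).2.2 u (mem_insert_of_mem _ hu)
  have hP : ∀ j, ∀ u ∈ q, u.1 ∈ nbr M (flapAt M F x) →
      u ∈ (insert (x, y j) q) ∩ (cl M (flapAt M F x)) ×ˢ (cl M (flapAt M F' (y j))) := by
    intro j u hu h
    exact ⟨mem_insert_of_mem _ hu, Or.inr h, Or.inr ((hnb j u hu).1 h)⟩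
  have hiso : ∀ j, IsoOn M M (cl M (flapAt M F x)) (cl M (flapAt M F' (y j)))
      ((insert (x, y j) q) ∩ (cl M (flapAt M F x)) ×ˢ (cl M (flapAt M F' (y j)))) := by
    intro j
    refine hsep M hM M hM _ _ hCflap (hDflap j) hsm _ ((hq.insert _).inter_of_left _)
      inter_subset_right (fun u hu => (hfl j).2.2 u hu.1) ?_ ?_ ((hfl j).1.mono hlμ)
    · intro s hs'
      obtain ⟨u, hu, rfl⟩ := nbr_flapAt x hs'
      exact ⟨u.2, hP j u hu hs'⟩
    · intro s hs'
      obtain ⟨u, hu, rfl⟩ := nbr_flapAt (y j) hs'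
      exact ⟨u.1, hP j u hu ((hnb j u hu).2 hs')⟩
  have hnn : ∀ j, nbr M (flapAt M F' (y 0)) = nbr M (flapAt M F' (y j)) := by
    intro j
    apply Subset.antisymm
    · intro s hs'
      obtain ⟨u, hu, rfl⟩ := nbr_flapAt (y 0) hs'
      exact (hnb j u hu).1 ((hnb 0 u hu).2 hs')
    · intro s hs'
      obtain ⟨u, hu, rfl⟩ := nbr_flapAt (y j) hs'
      exact (hnb 0 u hu).1 ((hnb j u hu).2 hs')
  have haut : ∀ j, IsoOn M M univ univ (insert (y 0, y j) (idOn F')) := by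
    intro j
    refine swap_auto hs hl (C := flapAt M F' (y 0)) (D := flapAt M F' (y j))
      (connSet_flapAt hs _) (connSet_flapAt hs _) (flapAt_disjoint _) (flapAt_disjoint _)
      (hnn j) (nbr_flapAt _) (mem_flapAt_self (hyF 0)) (mem_flapAt_self (hyF j)) ?_
    refine ((hiso 0).symm.trans (hiso j)).mono ?_
    rintro u (rfl | hu)
    · refine ⟨x, ?_, ?_⟩
      · exact ⟨mem_insert _ _, Or.inl (mem_flapAt_self hx), Or.inl (mem_flapAt_self (hyF 0))⟩
      · exact ⟨mem_insert _ _, Or.inl (mem_flapAt_self hx), Or.inl (mem_flapAt_self (hyF j))⟩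
    · obtain ⟨hu1, hu2⟩ := hu
      obtain ⟨v, hv, hv2⟩ := nbr_flapAt (y 0) hu2
      have hv1 : v.1 ∈ nbr M (flapAt M F x) := (hnb 0 v hv).2 (by rw [hv2]; exact hu2)
      refine ⟨v.1, ?_, ?_⟩
      · have := hP 0 v hv hv1
        rw [mem_inv]
        have he : ((v.1, u.1) : ℕ × ℕ) = v := by rw [← hv2]
        simp only
        rw [he]; exact this
      · have := hP j v hv hv1
        have he : ((v.1, u.2) : ℕ × ℕ) = v := by rw [← hu1, ← hv2]
        rw [he]; exact this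
  refine ⟨y 0, BF_add_omega.2 fun j => ?_⟩
  have hA := ((haut j).symm).bf (μ + (j : Ordinal.{0}))
  refine ((hy j).comp hA).subset ?_
  rintro u (rfl | hu)
  · exact ⟨y j, mem_insert _ _, Or.inl rfl⟩
  · exact ⟨u.2, mem_insert_of_mem _ hu, Or.inr ⟨rfl, ⟨u, hu, rfl⟩⟩⟩

/-- Extension by a list with finitely many candidates. -/
theorem ext_list {M : St a} {μ : Ordinal.{0}} {q r : Set (ℕ × ℕ)} (hr : r ⊆ q) {z : List ℕ}
    (hfin : {y : List ℕ | y.length = z.length ∧
      BF M M univ univ (μ + 1) (r ∪ zipSet z y)}.Finite)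
    (hb : BF M M univ univ (μ + Ordinal.omega0) q) :
    ∃ y : List ℕ, y.length = z.length ∧ BF M M univ univ (μ + Ordinal.omega0) (q ∪ zipSet z y) := by
  classical
  have key : ∀ j : ℕ, ∃ y : List ℕ, y.length = z.length ∧
      BF M M univ univ (μ + (j : Ordinal.{0})) (q ∪ zipSet z y) := by
    intro j
    have h1 : BF M M univ univ (μ + (j : Ordinal.{0}) + (z.length : Ordinal.{0})) q := by
      refine hb.mono ?_
      rw [add_assoc, ← Nat.cast_add]
      gcongr
      exact (Ordinal.natCast_lt_omega0 _).le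
    obtain ⟨y, hy, -, hb'⟩ := h1.forth_list z le_rfl (fun x _ => mem_univ x)
    exact ⟨y, hy, hb'⟩
  by_contra hcon
  push Not at hcon
  -- every candidate fails at some finite stage
  have hfail : ∀ y : List ℕ, ∃ j : ℕ, y.length = z.length →
      ¬ BF M M univ univ (μ + (j : Ordinal.{0})) (q ∪ zipSet z y) := by
    intro y
    by_cases hyl : y.length = z.length
    · have := hcon y hyl
      rw [BF_add_omega] at this
      push Not at this
      obtain ⟨j, hj⟩ := this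
      exact ⟨j, fun _ => hj⟩
    · exact ⟨0, fun h => absurd h hyl⟩
  choose J hJ using hfail
  obtain ⟨y, hyl, hy⟩ := key (hfin.toFinset.sup J + 1)
  have hmem : y ∈ hfin.toFinset := by
    rw [Set.Finite.mem_toFinset]
    refine ⟨hyl, ?_⟩
    refine (hy.mono ?_).subset (union_subset_union_left _ hr)
    gcongr
    exact_mod_cast Nat.le_add_left 1 _
  refine hJ y hyl (hy.mono ?_)
  gcongr
  exact (Finset.le_sup (f := J) hmem).trans (Nat.le_succ _)

theorem zipSet_finite (s t : List ℕ) : (zipSet s t).Finite := List.finite_toSet _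

/-- One step of the system. -/
theorem forth_step {α : Ordinal.{0}} {K : Set (St a)} (hK : Good α K) {l μ : Ordinal.{0}}
    (hsep : ∀ M ∈ K, ∀ N ∈ K, ∀ C D : Set ℕ,
      Flap M C → Flap N D → Small α M C → ∀ p : Set (ℕ × ℕ), p.Finite →
      p ⊆ (cl M C) ×ˢ (cl N D) → (∀ u ∈ p, (u.1 ∈ nbr M C ↔ u.2 ∈ nbr N D)) →
      (∀ s ∈ nbr M C, ∃ y, (s, y) ∈ p) → (∀ y ∈ nbr N D, ∃ s, (s, y) ∈ p) →
      BF M N (cl M C) (cl N D) l p → IsoOn M N (cl M C) (cl N D) p)
    (hμ : Ordinal.omega0 + μ = μ) (hlμ : l ≤ μ) (hαμ : α ≤ μ) {M : St a} (hM : M ∈ K) {n : ℕ}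
    (hn : Level α M n) {q : Set (ℕ × ℕ)} (hq : q.Finite) (hidq : idOn (Iio n) ⊆ q)
    (hb : BF M M univ univ (μ + Ordinal.omega0) q) (x : ℕ) :
    ∃ q' : Set (ℕ × ℕ), q'.Finite ∧ BF M M univ univ (μ + Ordinal.omega0) q' ∧ q ⊆ q' ∧
      ∃ y, (x, y) ∈ q' := by
  classical
  have hs := hK.symm M hM
  have hBB := finite_big hK hM (F := Iio n) (finite_Iio n)
  set BB : Set (Set ℕ) :=
    {C : Set ℕ | Flap M C ∧ Big α M C ∧ nbr M C ⊆ Iio n ∧ Disjoint C (Iio n)} with hBBdef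
  have hch : ∀ C : Set ℕ, ∃ (V W Z : ℕ → Set ℕ), C ∈ BB →
      (Pure α M V n ∧ V n = C ∧ TChain M V n W Z) := by
    intro C
    by_cases hC : C ∈ BB
    · obtain ⟨V, hV, hVn⟩ := hn C hC.1 hC.2.1 hC.2.2.1 hC.2.2.2
      obtain ⟨W, Z, hWZ⟩ := exists_tchain hK hM hV
      exact ⟨V, W, Z, fun _ => ⟨hV, hVn, hWZ⟩⟩
    · exact ⟨fun _ => ∅, fun _ => ∅, fun _ => ∅, fun h => absurd h hC⟩
  choose V W Z hVWZ using hch
  -- a level above which `x` is in no `W`
  have hm : ∃ m : ℕ, 1 ≤ m ∧ ∀ C ∈ BB, x ∉ W C m := by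
    have hex : ∀ C : Set ℕ, ∃ i, C ∈ BB → x ∉ W C i := by
      intro C
      by_cases hC : C ∈ BB
      · obtain ⟨i, hi⟩ := (hVWZ C hC).2.2.chain.inter x
        exact ⟨i, fun _ => hi⟩
      · exact ⟨0, fun h => absurd h hC⟩
    choose i hi using hex
    refine ⟨hBB.toFinset.sup i + 1, Nat.le_add_left _ _, fun C hC hxC => ?_⟩
    refine hi C hC ((hVWZ C hC).2.2.chain.anti ?_ hxC)
    exact (Finset.le_sup (f := i) (by rwa [Set.Finite.mem_toFinset])).trans (Nat.le_succ _)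
  obtain ⟨m, hm1, hmx⟩ := hm
  -- add the separators `Z C m`
  have hadd : ∀ s : Finset (Set ℕ), (∀ C ∈ s, C ∈ BB) →
      ∃ q' : Set (ℕ × ℕ), q'.Finite ∧ BF M M univ univ (μ + Ordinal.omega0) q' ∧ q ⊆ q' ∧
        ∀ C ∈ s, Z C m ⊆ Prod.fst '' q' := by
    intro s
    induction s using Finset.induction_on with
    | empty => exact fun _ => ⟨q, hq, hb, Subset.rfl, by simp⟩
    | insert C s hCs ih =>
      intro hsB
      obtain ⟨q', hq', hb', hqq', hZ⟩ := ih fun C' hC' => hsB C' (Finset.mem_insert_of_mem hC')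
      obtain ⟨hV, hVn, hT⟩ := hVWZ C (hsB C (Finset.mem_insert_self _ _))
      have hZf := hT.chain.finY m
      have hz : {x | x ∈ hZf.toFinset.toList} = Z C m := by
        ext w; simp
      obtain ⟨y, hyl, hyb⟩ := ext_list (r := idOn (Iio n)) (hidq.trans hqq')
        (cand_finite hK hM hn hV hT hm1 hz hμ hαμ) hb'
      refine ⟨q' ∪ zipSet hZf.toFinset.toList y, hq'.union (zipSet_finite _ _), hyb,
        hqq'.trans subset_union_left, fun C' hC' => ?_⟩
      rcases Finset.mem_insert.1 hC' with rfl | hC'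
      · intro w hw
        have hw' : w ∈ hZf.toFinset.toList := by
          have : w ∈ {x | x ∈ hZf.toFinset.toList} := by rw [hz]; exact hw
          exact this
        obtain ⟨v, hv⟩ := exists_zipSet_left hyl.symm hw'
        exact ⟨(w, v), Or.inr hv, rfl⟩
      · exact (hZ C' hC').trans (image_mono subset_union_left)
  obtain ⟨q', hq', hb', hqq', hZ⟩ := hadd hBB.toFinset (fun C hC => by
    rwa [Set.Finite.mem_toFinset] at hC)
  by_cases hxq : x ∈ Prod.fst '' q'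
  · obtain ⟨u, hu, rfl⟩ := hxq
    exact ⟨q', hq', hb', hqq', u.2, hu⟩
  · have hFq : Iio n ⊆ Prod.fst '' q' := fun s hs' => ⟨(s, s), hqq' (hidq ⟨rfl, hs'⟩), rfl⟩
    have hxF : x ∉ Iio n := fun h => hxq (hFq h)
    have hEflap : Flap M (flapAt M (Prod.fst '' q') x) := flap_flapAt hs (hq'.image _) hxq
    have hsm : Small α M (flapAt M (Prod.fst '' q') x) := by
      by_contra hbig
      have hCflap : Flap M (flapAt M (Iio n) x) := flap_flapAt hs (finite_Iio n) hxF
      have hsub : flapAt M (Prod.fst '' q') x ⊆ flapAt M (Iio n) x :=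
        fun w hw => Conn.mono hw hFq
      have hCbig : Big α M (flapAt M (Iio n) x) := big_mono hK hM hEflap hCflap hsub hbig
      have hCB : flapAt M (Iio n) x ∈ BB := ⟨hCflap, hCbig, nbr_flapAt _, flapAt_disjoint _⟩
      obtain ⟨hV, hVn, hT⟩ := hVWZ _ hCB
      obtain ⟨j, hj⟩ := hT.tail m
      have hmeet := hV.meet _ hEflap hbig (by rw [hVn]; exact hsub) j
      have hmeet' : ¬ Disjoint (flapAt M (Prod.fst '' q') x) (W (flapAt M (Iio n) x) m) :=
        fun h => hmeet (h.mono_right hj)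
      have hnW : nbr M (W (flapAt M (Iio n) x) m) ⊆ Prod.fst '' q' := by
        rw [hT.chain.nbr m]
        refine union_subset (fun d hd => hFq (hV.dom d hd)) (hZ _ ?_)
        rwa [Set.Finite.mem_toFinset]
      have := (connSet_flapAt hs x).subset_of_meets
        ((flapAt_disjoint (M := M) (B := Prod.fst '' q') x).mono_right hnW) hmeet'
      exact hmx _ hCB (this (mem_flapAt_self hxq))
    obtain ⟨x', hx'⟩ := ext_small hK hsep hμ hlμ hM hq' hb' hxq hsm
    exact ⟨insert (x, x') q', hq'.insert _, hx', hqq'.trans (subset_insert _ _), x',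
      mem_insert _ _⟩

/-- Every structure in the class has low Scott rank over a finite set. -/
theorem auto_of_bf {α : Ordinal.{0}} {K : Set (St a)} (hK : Good α K) :
    ∃ ν : Ordinal.{0}, ν < Ordinal.omega 1 ∧ ∀ M ∈ K, ∃ F : Set ℕ, F.Finite ∧
      ∀ p : Set (ℕ × ℕ), p.Finite → idOn F ⊆ p → BF M M univ univ ν p →
        IsoOn M M univ univ p := by
  obtain ⟨l, hl1, hαl, hsep⟩ := exists_sep hK
  have hw : Ordinal.omega0 < Ordinal.omega 1 := by
    rw [← Ordinal.omega_zero]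
    exact Ordinal.omega_lt_omega.2 zero_lt_one
  have hadd : ∀ {b c : Ordinal.{0}}, b < Ordinal.omega 1 → c < Ordinal.omega 1 →
      b + c < Ordinal.omega 1 := fun hb hc => Ordinal.isPrincipal_add_omega 1 hb hc
  have hmul : ∀ {b c : Ordinal.{0}}, b < Ordinal.omega 1 → c < Ordinal.omega 1 →
      b * c < Ordinal.omega 1 := fun hb hc => Ordinal.isPrincipal_mul_omega 1 hb hc
  set μ : Ordinal.{0} := Ordinal.omega0 * Ordinal.omega0 + l with hμdef
  have hμ : Ordinal.omega0 + μ = μ := by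
    have h0 : Ordinal.omega0 + Ordinal.omega0 * Ordinal.omega0 =
        Ordinal.omega0 * Ordinal.omega0 := by
      calc Ordinal.omega0 + Ordinal.omega0 * Ordinal.omega0
          = Ordinal.omega0 * 1 + Ordinal.omega0 * Ordinal.omega0 := by rw [mul_one]
        _ = Ordinal.omega0 * (1 + Ordinal.omega0) := (mul_add _ _ _).symm
        _ = Ordinal.omega0 * Ordinal.omega0 := by rw [Ordinal.one_add_omega0]
    rw [hμdef, ← add_assoc, h0]
  have hμ1 : μ < Ordinal.omega 1 := hadd (hmul hw hw) hl1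
  have hlμ : l ≤ μ := le_add_self
  refine ⟨μ + Ordinal.omega0, hadd hμ1 hw, fun M hM => ?_⟩
  obtain ⟨n, hn⟩ := exists_level hK hM
  refine ⟨Iio n, finite_Iio n, fun p hp hidp hbp => ?_⟩
  refine isoOn_of_system
    {q | q.Finite ∧ idOn (Iio n) ⊆ q ∧ BF M M univ univ (μ + Ordinal.omega0) q}
    ⟨hp, hidp, hbp⟩ (fun q hq => ⟨hq.2.2.piso, fun u _ => ⟨mem_univ _, mem_univ _⟩⟩) ?_ ?_
  · rintro q ⟨hq, hidq, hb⟩ x -
    obtain ⟨q', hq', hb', hqq', hx⟩ :=
      forth_step hK hsep hμ hlμ (hαl.trans hlμ) hM hn hq hidq hb x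
    exact ⟨q', ⟨hq', hidq.trans hqq', hb'⟩, hqq', hx⟩
  · rintro q ⟨hq, hidq, hb⟩ y -
    have hfi : ∀ r : Set (ℕ × ℕ), r.Finite → (inv r).Finite := by
      intro r hr
      refine (hr.image Prod.swap).subset ?_
      intro u hu
      exact ⟨(u.2, u.1), hu, rfl⟩
    have hid' : idOn (Iio n) ⊆ inv q := by
      rw [← inv_idOn]; exact inv_mono hidq
    obtain ⟨q', hq', hb', hqq', x, hx⟩ :=
      forth_step hK hsep hμ hlμ (hαl.trans hlμ) hM hn (hfi q hq) hid' hb.symm y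
    refine ⟨inv q', ⟨hfi _ hq', ?_, hb'.symm⟩, ?_, x, hx⟩
    · rw [← inv_idOn]; exact inv_mono (hid'.trans hqq')
    · have := inv_mono hqq'
      rwa [inv_inv] at this

end Pool.Agent.H533R2.VC
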