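import Pool.Agent.H533R2.VC.Basic

set_option autoImplicit false

/-! The logic `L_{ω₁ω}` on structures with universe `ℕ` (task LOGIC). -/

namespace Pool.Agent.H533R2.VC

open Set

variable {a : ℕ → ℕ}

/-- Structures with universe `ℕ` for the relational language with symbols `R_0, R_1, …` of arities
`a 0, a 1, …`. -/
abbrev RS (a : ℕ → ℕ) : Type := (i : ℕ) → (Fin (a i) → ℕ) → Bool

/-- Formulas of `L_{ω₁ω}`. -/
inductive Fm (a : ℕ → ℕ) : Type
  | eq (x y : ℕ) : Fm a
  | rel (i : ℕ) (v : Fin (a i) → ℕ) : Fm a
  | neg (φ : Fm a) : Fm a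
  | conj (φ : ℕ → Fm a) : Fm a
  | ex (x : ℕ) (φ : Fm a) : Fm a

/-- Free variables. -/
def fv : Fm a → Set ℕ
  | .eq x y => {x, y}
  | .rel _ v => range v
  | .neg φ => fv φ
  | .conj φ => ⋃ n, fv (φ n)
  | .ex x φ => fv φ \ {x}

/-- Tarski satisfaction under the assignment `e`. -/
def Sat (M : RS a) : Fm a → (ℕ → ℕ) → Prop
  | .eq x y, e => e x = e y
  | .rel i v, e => M i (fun k => e (v k)) = true
  | .neg φ, e => ¬ Sat M φ e
  | .conj φ, e => ∀ n, Sat M (φ n) e
  | .ex x φ, e => ∃ y, Sat M φ (Function.update e x y)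

/-- Truth of a sentence. -/
def Models (M : RS a) (φ : Fm a) : Prop := Sat M φ (fun _ => 0)

/-- Quantifier rank. -/
noncomputable def rk : Fm a → Ordinal.{0}
  | .eq _ _ => 0
  | .rel _ _ => 0
  | .neg φ => rk φ
  | .conj φ => ⨆ n, rk (φ n)
  | .ex _ φ => rk φ + 1

theorem get_mem_zipSet {n : ℕ} (v : Fin n → ℕ) (t : List ℕ) (ht : t.length = n) (j : Fin n) :
    (v j, t.get (Fin.cast ht.symm j)) ∈ zipSet (List.ofFn v) t := by
  change (v j, t.get (Fin.cast ht.symm j)) ∈ (List.ofFn v).zip t
  rw [List.mem_iff_getElem]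
  refine ⟨j.val, ?_, ?_⟩
  · simp [ht]
  · simp

theorem get_mem_zipSet' {n : ℕ} (v : Fin n → ℕ) (t : List ℕ) (ht : t.length = n) (j : Fin n) :
    (t.get (Fin.cast ht.symm j), v j) ∈ zipSet t (List.ofFn v) := by
  rw [← inv_zipSet]
  exact get_mem_zipSet v t ht j

theorem rk_lt (φ : Fm a) : rk φ < Ordinal.omega 1 := by
  induction φ with
  | eq x y => exact Ordinal.omega_pos 1
  | rel i v => exact Ordinal.omega_pos 1
  | neg φ ih => exact ih
  | conj φ ih => exact Ordinal.iSup_lt_omega_one ih
  | ex x φ ih => exact (Cardinal.isSuccLimit_omega 1).succ_lt ih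

/-- Back-and-forth equivalence preserves formulas. -/
theorem sat_of_bf {M N : St a} (φ : Fm a) {p : Set (ℕ × ℕ)} (h : BF M N univ univ (rk φ) p)
    {e e' : ℕ → ℕ} (he : ∀ x ∈ fv φ, (e x, e' x) ∈ p) : Sat M.2 φ e ↔ Sat N.2 φ e' := by
  induction φ generalizing p e e' with
  | eq x y =>
    exact h.piso.1 (e x, e' x) (he x (by simp [fv])) (e y, e' y) (he y (by simp [fv]))
  | rel i v =>
    have h1 := h.piso.2.2 i (fun k => (e (v k), e' (v k))) (fun k => he _ (mem_range_self k))
    change (M.2 i (fun k => e (v k)) = true) ↔ (N.2 i (fun k => e' (v k)) = true)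
    simp only at h1
    rw [h1]
  | neg φ ih => exact not_congr (ih h he)
  | conj φ ih =>
    refine forall_congr' fun n => ?_
    exact ih n (h.mono (Ordinal.le_iSup (fun n => rk (φ n)) n))
      (fun x hx => he x (mem_iUnion.2 ⟨n, hx⟩))
  | ex x φ ih =>
    have hlt : rk φ < rk (Fm.ex x φ) := Order.lt_add_one_iff.2 le_rfl
    have key : ∀ y y' : ℕ, ∀ z ∈ fv φ, (Function.update e x y z, Function.update e' x y' z)
        ∈ insert (y, y') p := by
      intro y y' z hz
      by_cases hzx : z = x
      · subst hzx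
        rw [Function.update_self, Function.update_self]
        exact mem_insert _ _
      · rw [Function.update_of_ne hzx, Function.update_of_ne hzx]
        exact mem_insert_of_mem _ (he z ⟨hz, hzx⟩)
    constructor
    · rintro ⟨y, hy⟩
      obtain ⟨y', -, hb⟩ := h.forth hlt (mem_univ y)
      exact ⟨y', (ih hb (key y y')).1 hy⟩
    · rintro ⟨y', hy'⟩
      obtain ⟨y, -, hb⟩ := h.back hlt (mem_univ y')
      exact ⟨y, (ih hb (key y y')).2 hy'⟩

theorem measurable_sat (φ : Fm a) : ∀ e : ℕ → ℕ, Measurable (fun M : RS a => Sat M φ e) := by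
  induction φ with
  | eq x y => intro e; exact measurable_const
  | rel i v =>
    intro e
    apply measurableSet_setOfPred.1
    have h1 : Measurable (fun M : RS a => M i (fun k => e (v k))) :=
      (measurable_pi_apply (fun k => e (v k))).comp (measurable_pi_apply i)
    exact h1 (measurableSet_singleton true)
  | neg φ ih => intro e; exact (ih e).not
  | conj φ ih => intro e; exact Measurable.forall fun n => ih n e
  | ex x φ ih => intro e; exact Measurable.exists fun y => ih _

theorem measurable_models (φ : Fm a) : MeasurableSet {M : RS a | Models M φ} :=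
  measurableSet_setOfPred.2 (measurable_sat φ _)

/-- Gaifman graph. -/
def gaifman (M : RS a) : SimpleGraph ℕ where
  Adj x y := x ≠ y ∧ ∃ i, ∃ v : Fin (a i) → ℕ, M i v = true ∧ x ∈ range v ∧ y ∈ range v
  symm := ⟨by
    rintro x y ⟨h, i, v, h1, h2, h3⟩
    exact ⟨h.symm, i, v, h1, h3, h2⟩⟩
  loopless := ⟨fun x h => h.1 rfl⟩

open Classical in
/-- The structure together with its Gaifman graph. -/
noncomputable def expand (M : RS a) : St a := (fun x y => decide ((gaifman M).Adj x y), M)

/-- The class of expansions of the models of a sentence is closed under equivalence of any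
sufficiently large rank. -/
theorem expand_closed (φ : Fm a) (hφ : fv φ = ∅) {α : Ordinal.{0}} (h1 : Ordinal.omega0 + 2 ≤ α)
    (h2 : rk φ ≤ α) {M : RS a} (hM : Models M φ) {N : St a}
    (h : BF (expand M) N univ univ α ∅) : Models N.2 φ ∧ N = expand N.2 := by
  classical
  refine ⟨(sat_of_bf φ (h.mono h2) (e := fun _ => 0) (e' := fun _ => 0) ?_).1 hM, ?_⟩
  · rw [hφ]
    exact fun x hx => absurd hx (by simp)
  refine Prod.ext ?_ rfl
  funext x' y'
  have key : N.1 x' y' = true ↔ (gaifman N.2).Adj x' y' := by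
    constructor
    · intro hxy
      have h3 : BF (expand M) N univ univ (Ordinal.omega0 + ((2 : ℕ) : Ordinal.{0})) ∅ :=
        h.mono (by exact_mod_cast h1)
      obtain ⟨s, hs, -, hb⟩ := h3.back_list [x', y'] (by simp) (by simp)
      obtain ⟨x, y, rfl⟩ : ∃ x y, s = [x, y] := by
        match s, hs with
        | [x, y], _ => exact ⟨x, y, rfl⟩
      have m1 : (x, x') ∈ (∅ : Set (ℕ × ℕ)) ∪ zipSet [x, y] [x', y'] := by
        right; simp [zipSet]
      have m2 : (y, y') ∈ (∅ : Set (ℕ × ℕ)) ∪ zipSet [x, y] [x', y'] := by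
        right; simp [zipSet]
      have h4 : (expand M).1 x y = true := (hb.piso.adj m1 m2).2 hxy
      have h5 : (gaifman M).Adj x y := by
        simpa [expand] using h4
      obtain ⟨hne, i, v, hv, ⟨k, hk⟩, ⟨l, hl⟩⟩ := h5
      have h6 : BF (expand M) N univ univ (0 + ((a i : ℕ) : Ordinal.{0}))
          ((∅ : Set (ℕ × ℕ)) ∪ zipSet [x, y] [x', y']) :=
        hb.mono (by rw [zero_add]; exact (Ordinal.natCast_lt_omega0 _).le)
      obtain ⟨t, ht, -, hc⟩ := h6.forth_list (List.ofFn v) (by simp) (by simp)
      rw [List.length_ofFn] at ht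
      have m3 : ∀ j : Fin (a i), (v j, t.get (Fin.cast ht.symm j)) ∈
          ((∅ : Set (ℕ × ℕ)) ∪ zipSet [x, y] [x', y']) ∪ zipSet (List.ofFn v) t := by
        intro j
        right
        exact get_mem_zipSet v t ht j
      have h7 := hc.piso.2.2 i (fun j => (v j, t.get (Fin.cast ht.symm j))) m3
      refine ⟨fun he => hne ?_, i, fun j => t.get (Fin.cast ht.symm j), ?_, ⟨k, ?_⟩, ⟨l, ?_⟩⟩
      · exact hb.piso.fst_eq m1 m2 he
      · rw [← h7]; exact hv
      · exact hc.piso.snd_eq (m3 k) (Or.inl m1) hk
      · exact hc.piso.snd_eq (m3 l) (Or.inl m2) hl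
    · rintro ⟨hne, i, v, hv, ⟨k, hk⟩, ⟨l, hl⟩⟩
      have h3 : BF (expand M) N univ univ (0 + ((a i : ℕ) : Ordinal.{0})) ∅ :=
        h.mono (by
          rw [zero_add]
          exact (Ordinal.natCast_lt_omega0 _).le.trans (le_self_add.trans h1))
      obtain ⟨s, hs, -, hb⟩ := h3.back_list (List.ofFn v) (by simp) (by simp)
      rw [List.length_ofFn] at hs
      have m3 : ∀ j : Fin (a i), (s.get (Fin.cast hs.symm j), v j) ∈
          (∅ : Set (ℕ × ℕ)) ∪ zipSet s (List.ofFn v) := by
        intro j
        right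
        exact get_mem_zipSet' v s hs j
      have h7 := hb.piso.2.2 i (fun j => (s.get (Fin.cast hs.symm j), v j)) m3
      have h8 : (expand M).1 (s.get (Fin.cast hs.symm k)) (s.get (Fin.cast hs.symm l)) = true := by
        have h9 : (gaifman M).Adj (s.get (Fin.cast hs.symm k)) (s.get (Fin.cast hs.symm l)) := by
          refine ⟨fun he => hne ?_, i, fun j => s.get (Fin.cast hs.symm j), ?_, ⟨k, rfl⟩, ⟨l, rfl⟩⟩
          · rw [← hk, ← hl]
            exact hb.piso.snd_eq (m3 k) (m3 l) he
          · exact h7.trans hv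
        simpa [expand] using h9
      have h10 := (hb.piso.adj (m3 k) (m3 l)).1 h8
      rw [hk, hl] at h10
      exact h10
  change N.1 x' y' = decide ((gaifman N.2).Adj x' y')
  by_cases hadj : (gaifman N.2).Adj x' y'
  · rw [key.2 hadj]
    exact (decide_eq_true hadj).symm
  · have h0 : N.1 x' y' = false := by
      cases hh : N.1 x' y' with
      | true => exact absurd (key.1 hh) hadj
      | false => rfl
    rw [h0]
    exact (decide_eq_false hadj).symm

/-- The form of `expand_closed` used with the standing hypothesis `ω + α = α`. -/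
theorem expand_closed_of_absorb (φ : Fm a) (hφ : fv φ = ∅) {α : Ordinal.{0}}
    (h1 : Ordinal.omega0 + α = α) (h2 : rk φ ≤ α) {M : RS a} (hM : Models M φ) {N : St a}
    (h : BF (expand M) N univ univ α ∅) : Models N.2 φ ∧ N = expand N.2 := by
  refine expand_closed φ hφ ?_ h2 hM h
  have h3 : Ordinal.omega0 ≤ α := by
    rw [← h1]
    exact le_self_add
  have h4 : (2 : Ordinal.{0}) ≤ α := by
    refine le_trans ?_ h3
    exact_mod_cast (Ordinal.natCast_lt_omega0 2).le
  calc Ordinal.omega0 + 2 ≤ Ordinal.omega0 + α := by gcongr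
    _ = α := h1

theorem measurable_expand (φ : Fm a) :
    MeasurableSet {M : St a | Models M.2 φ ∧ M = expand M.2} := by
  classical
  have key : MeasurableSet {M : St a | M = expand M.2} := by
    have h1 : {M : St a | M = expand M.2} = {M : St a | ∀ x y : ℕ, (M.1 x y = true) ↔
        (x ≠ y ∧ ∃ i, ∃ v : Fin (a i) → ℕ, M.2 i v = true ∧ x ∈ range v ∧ y ∈ range v)} := by
      ext M
      constructor
      · intro h x y
        have h2 : M.1 x y = decide ((gaifman M.2).Adj x y) := congrFun (congrFun (congrArg Prod.fst h) x) y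
        rw [h2, decide_eq_true_iff]
        rfl
      · intro h
        refine Prod.ext ?_ rfl
        funext x y
        change M.1 x y = decide ((gaifman M.2).Adj x y)
        rw [Bool.eq_iff_iff, decide_eq_true_iff]
        exact h x y
    rw [h1]
    apply measurableSet_setOfPred.2
    refine Measurable.forall fun x => Measurable.forall fun y => ?_
    refine Measurable.iff ?_ ?_
    · apply measurableSet_setOfPred.1
      have h2 : Measurable (fun M : St a => M.1 x y) :=
        (measurable_pi_apply y).comp ((measurable_pi_apply x).comp measurable_fst)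
      exact h2 (measurableSet_singleton true)
    · refine Measurable.and measurable_const ?_
      refine Measurable.exists fun i => Measurable.exists fun v => ?_
      refine Measurable.and ?_ measurable_const
      apply measurableSet_setOfPred.1
      have h2 : Measurable (fun M : St a => M.2 i v) :=
        (measurable_pi_apply v).comp ((measurable_pi_apply i).comp measurable_snd)
      exact h2 (measurableSet_singleton true)
  exact (measurable_snd (measurable_models φ)).inter key

end Pool.Agent.H533R2.VC
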