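import Mathlib

set_option autoImplicit false

/-! Subdivisions of the infinite complete graph (task SUB). -/

namespace Pool.Agent.H533R2.VC

open Set

/-- `G` contains a subdivision of the complete graph on `ℕ`: branch vertices `v i` and, for
`i < j`, a path from `v i` to `v j`; two of these paths meet only in branch vertices, and a path
contains no branch vertices besides its ends. -/
def HasCliqueSubdivision (G : SimpleGraph ℕ) : Prop :=
  ∃ v : ℕ → ℕ, Function.Injective v ∧ ∃ P : ∀ i j, G.Walk (v i) (v j),
    (∀ i j, i < j → (P i j).IsPath) ∧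
    (∀ i j k, i < j → v k ∈ (P i j).support → k = i ∨ k = j) ∧
    (∀ i j i' j', i < j → i' < j' → (i, j) ≠ (i', j') → ∀ x, x ∈ (P i j).support →
      x ∈ (P i' j').support → ∃ k, x = v k)

/-- there is a path from `x` to `y` with vertex set `S` -/
private def SPathIn (G : SimpleGraph ℕ) (x y : ℕ) (S : Finset ℕ) : Prop :=
  ∃ w : G.Walk x y, w.IsPath ∧ w.support.toFinset = S

/-- the invariant of the greedy construction -/
private structure SInv (G : SimpleGraph ℕ) (X : Set ℕ) (n : ℕ) (v : ℕ → ℕ)
    (S : ℕ → ℕ → Finset ℕ) : Prop where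
  mem : ∀ i < n, v i ∈ X
  inj : ∀ i < n, ∀ j < n, v i = v j → i = j
  path : ∀ i j, i < j → j < n → SPathIn G (v i) (v j) (S i j)
  br : ∀ i j k, i < j → j < n → k < n → v k ∈ S i j → k = i ∨ k = j
  disj : ∀ i j i' j', i < j → j < n → i' < j' → j' < n → (i, j) ≠ (i', j') →
    ∀ x, x ∈ S i j → x ∈ S i' j' → ∃ k < n, x = v k

private theorem sub_inner (G : SimpleGraph ℕ) (X : Set ℕ)
    (h : ∀ x ∈ X, ∀ y ∈ X, x ≠ y → ∀ F : Set ℕ, F.Finite → x ∉ F → y ∉ F →
      ∃ w : G.Walk x y, ∀ z ∈ w.support, z ∉ F) (v : ℕ → ℕ) (n : ℕ)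
    (hv : ∀ i < n, v i ∈ X) (U : Finset ℕ) (hU : ∀ i < n, v i ∈ U) (x : ℕ) (hx : x ∈ X)
    (hxU : x ∉ U) : ∀ m ≤ n, ∃ T : ℕ → Finset ℕ,
      (∀ i < m, SPathIn G (v i) x (T i)) ∧
      (∀ i < m, ∀ z ∈ T i, z ∈ U → z = v i ∨ z = x) ∧
      (∀ i < m, ∀ i' < i, ∀ z ∈ T i, z ∈ T i' → z = v i ∨ z = x) := by
  intro m
  induction m with
  | zero => intro _; exact ⟨fun _ => ∅, by simp, by simp, by simp⟩
  | succ m ih =>
    intro hm
    obtain ⟨T, h1, h2, h3⟩ := ih (by omega)
    set F : Finset ℕ := (U ∪ (Finset.range m).biUnion T) \ {v m, x} with hF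
    have hne : v m ≠ x := fun e => hxU (e ▸ hU m (by omega))
    obtain ⟨w, hw⟩ := h (v m) (hv m (by omega)) x hx hne (F : Set ℕ) (Finset.finite_toSet F)
      (by simp [hF]) (by simp [hF])
    have key : ∀ z ∈ w.bypass.support, z ∈ U ∪ (Finset.range m).biUnion T → z = v m ∨ z = x := by
      intro z hz hzU
      by_contra hcon
      push Not at hcon
      have hzF : z ∈ F := by
        rw [hF, Finset.mem_sdiff]
        refine ⟨hzU, ?_⟩
        simp only [Finset.mem_insert, Finset.mem_singleton, not_or]
        exact hcon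
      exact hw z (w.support_bypass_subset_support hz) (by exact_mod_cast hzF)
    refine ⟨Function.update T m w.bypass.support.toFinset, ?_, ?_, ?_⟩
    · intro i hi
      by_cases him : i = m
      · subst him
        rw [Function.update_self]
        exact ⟨w.bypass, w.bypass_isPath, rfl⟩
      · rw [Function.update_of_ne him]
        exact h1 i (by omega)
    · intro i hi z hz hzU
      by_cases him : i = m
      · subst him
        rw [Function.update_self, List.mem_toFinset] at hz
        exact key z hz (Finset.mem_union_left _ hzU)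
      · rw [Function.update_of_ne him] at hz
        exact h2 i (by omega) z hz hzU
    · intro i hi i' hi' z hz hz'
      have hi'm : i' ≠ m := by omega
      rw [Function.update_of_ne hi'm] at hz'
      by_cases him : i = m
      · subst him
        rw [Function.update_self, List.mem_toFinset] at hz
        refine key z hz (Finset.mem_union_right _ ?_)
        rw [Finset.mem_biUnion]
        exact ⟨i', Finset.mem_range.2 (by omega), hz'⟩
      · rw [Function.update_of_ne him] at hz
        exact h3 i (by omega) i' hi' z hz hz'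

private theorem sub_step (G : SimpleGraph ℕ) (X : Set ℕ) (hX : X.Infinite)
    (h : ∀ x ∈ X, ∀ y ∈ X, x ≠ y → ∀ F : Set ℕ, F.Finite → x ∉ F → y ∉ F →
      ∃ w : G.Walk x y, ∀ z ∈ w.support, z ∉ F) (n : ℕ) (v : ℕ → ℕ) (S : ℕ → ℕ → Finset ℕ)
    (hI : SInv G X n v S) : ∃ (v' : ℕ → ℕ) (S' : ℕ → ℕ → Finset ℕ), SInv G X (n + 1) v' S' ∧
      (∀ i < n, v' i = v i) ∧ ∀ i j, j < n → S' i j = S i j := by
  set U : Finset ℕ := (Finset.range n).image v ∪
    (Finset.range n).biUnion (fun j => (Finset.range n).biUnion (fun i => S i j)) with hU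
  have hvU : ∀ i < n, v i ∈ U := fun i hi =>
    Finset.mem_union_left _ (Finset.mem_image_of_mem v (Finset.mem_range.2 hi))
  have hSU : ∀ i j, i < j → j < n → ∀ z ∈ S i j, z ∈ U := by
    intro i j hij hj z hz
    refine Finset.mem_union_right _ ?_
    rw [Finset.mem_biUnion]
    refine ⟨j, Finset.mem_range.2 hj, ?_⟩
    rw [Finset.mem_biUnion]
    exact ⟨i, Finset.mem_range.2 (by omega), hz⟩
  obtain ⟨x, hxX, hxU⟩ := hX.exists_notMem_finset U
  obtain ⟨T, h1, h2, h3⟩ := sub_inner G X h v n hI.mem U hvU x hxX hxU n le_rfl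
  refine ⟨Function.update v n x, fun i j => if j = n then T i else S i j, ?_, ?_, ?_⟩
  · have hvn : Function.update v n x n = x := Function.update_self _ _ _
    have hvi : ∀ i < n, Function.update v n x i = v i := fun i hi =>
      Function.update_of_ne (by omega) _ _
    refine ⟨?_, ?_, ?_, ?_, ?_⟩
    · intro i hi
      by_cases hin : i = n
      · rw [hin, hvn]; exact hxX
      · rw [hvi i (by omega)]; exact hI.mem i (by omega)
    · intro i hi j hj hij
      by_cases hin : i = n
      · by_cases hjn : j = n
        · omega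
        · rw [hin, hvn, hvi j (by omega)] at hij
          exact absurd (hij ▸ hvU j (by omega)) hxU
      · by_cases hjn : j = n
        · rw [hjn, hvn, hvi i (by omega)] at hij
          exact absurd (hij ▸ hvU i (by omega)) hxU
        · rw [hvi i (by omega), hvi j (by omega)] at hij
          exact hI.inj i (by omega) j (by omega) hij
    · intro i j hij hj
      by_cases hjn : j = n
      · subst hjn
        simp only [if_true]
        rw [hvn, hvi i hij]
        exact h1 i hij
      · simp only [hjn, if_false]
        rw [hvi i (by omega), hvi j (by omega)]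
        exact hI.path i j hij (by omega)
    · intro i j k hij hj hk hmem
      by_cases hjn : j = n
      · subst hjn
        simp only [if_true] at hmem
        by_cases hkn : k = j
        · exact Or.inr hkn
        · rw [hvi k (by omega)] at hmem
          rcases h2 i hij _ hmem (hvU k (by omega)) with e | e
          · exact Or.inl (hI.inj k (by omega) i hij e)
          · exact absurd (e ▸ hvU k (by omega)) hxU
      · simp only [hjn, if_false] at hmem
        by_cases hkn : k = n
        · rw [hkn, hvn] at hmem
          exact absurd (hSU i j hij (by omega) x hmem) hxU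
        · rw [hvi k (by omega)] at hmem
          exact hI.br i j k hij (by omega) (by omega) hmem
    · have hA : ∀ i, i < n → ∀ z, z = v i ∨ z = x → ∃ k < n + 1, z = Function.update v n x k := by
        intro i hi z hz
        rcases hz with e | e
        · exact ⟨i, by omega, by rw [hvi i hi]; exact e⟩
        · exact ⟨n, by omega, by rw [hvn]; exact e⟩
      intro i j i' j' hij hj hij' hj' hne z hz hz'
      by_cases hjn : j = n
      · subst hjn
        simp only [if_true] at hz
        by_cases hjn' : j' = j
        · subst hjn'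
          simp only [if_true] at hz'
          have hii : i ≠ i' := fun e => hne (by rw [e])
          rcases lt_or_gt_of_ne hii with hlt | hlt
          · exact hA i' hij' z (h3 i' hij' i hlt z hz' hz)
          · exact hA i hij z (h3 i hij i' hlt z hz hz')
        · simp only [hjn', if_false] at hz'
          exact hA i hij z (h2 i hij z hz (hSU i' j' hij' (by omega) z hz'))
      · simp only [hjn, if_false] at hz
        by_cases hjn' : j' = n
        · subst hjn'
          simp only [if_true] at hz'
          exact hA i' hij' z (h2 i' hij' z hz' (hSU i j hij (by omega) z hz))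
        · simp only [hjn', if_false] at hz'
          obtain ⟨k, hk, e⟩ := hI.disj i j i' j' hij (by omega) hij' (by omega) hne z hz hz'
          exact ⟨k, by omega, by rw [hvi k hk]; exact e⟩
  · intro i hi
    exact Function.update_of_ne (by omega) _ _
  · intro i j hj
    have : j ≠ n := by omega
    simp only [this, if_false]

/-- An infinite set of vertices, no two of which are separated by a finite set, gives a
subdivision of the infinite complete graph. -/
theorem hasCliqueSubdivision (G : SimpleGraph ℕ) (X : Set ℕ) (hX : X.Infinite)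
    (h : ∀ x ∈ X, ∀ y ∈ X, x ≠ y → ∀ F : Set ℕ, F.Finite → x ∉ F → y ∉ F →
      ∃ w : G.Walk x y, ∀ z ∈ w.support, z ∉ F) : HasCliqueSubdivision G := by
  have h0 : SInv G X 0 (fun _ => 0) (fun _ _ => ∅) :=
    ⟨by simp, by simp, by simp, by simp, by simp⟩
  choose fv fS hf1 hf2 hf3 using sub_step G X hX h
  -- the sequence of states
  let st : (n : ℕ) → {q : (ℕ → ℕ) × (ℕ → ℕ → Finset ℕ) // SInv G X n q.1 q.2} := fun n =>
    Nat.rec ⟨(fun _ => 0, fun _ _ => ∅), h0⟩
      (fun n q => ⟨(fv n q.1.1 q.1.2 q.2, fS n q.1.1 q.1.2 q.2), hf1 n q.1.1 q.1.2 q.2⟩) n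
  have hst : ∀ n, (st (n + 1)).1 = (fv n (st n).1.1 (st n).1.2 (st n).2,
      fS n (st n).1.1 (st n).1.2 (st n).2) := fun n => rfl
  have hv1 : ∀ n i, i < n → (st (n + 1)).1.1 i = (st n).1.1 i := by
    intro n i hi
    rw [hst]
    exact hf2 n _ _ _ i hi
  have hS1 : ∀ n i j, j < n → (st (n + 1)).1.2 i j = (st n).1.2 i j := by
    intro n i j hj
    rw [hst]
    exact hf3 n _ _ _ i j hj
  have hv2 : ∀ i n, i < n → (st n).1.1 i = (st (i + 1)).1.1 i := by
    intro i n hn
    induction n, hn using Nat.le_induction with
    | base => rfl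
    | succ n hn ih => rw [hv1 n i hn, ih]
  have hS2 : ∀ i j n, j < n → (st n).1.2 i j = (st (j + 1)).1.2 i j := by
    intro i j n hn
    induction n, hn using Nat.le_induction with
    | base => rfl
    | succ n hn ih => rw [hS1 n i j hn, ih]
  set v : ℕ → ℕ := fun i => (st (i + 1)).1.1 i with hv
  set S : ℕ → ℕ → Finset ℕ := fun i j => (st (j + 1)).1.2 i j with hS
  have hvv : ∀ i n, i < n → (st n).1.1 i = v i := fun i n hn => hv2 i n hn
  have hSS : ∀ i j n, j < n → (st n).1.2 i j = S i j := fun i j n hn => hS2 i j n hn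
  have hmem : ∀ i, v i ∈ X := fun i => (st (i + 1)).2.mem i (by omega)
  have hinj : Function.Injective v := by
    intro i j hij
    have h1 := (st (max i j + 1)).2.inj i (by omega) j (by omega)
    rw [hvv i _ (by omega), hvv j _ (by omega)] at h1
    exact h1 hij
  have hpath : ∀ i j, i < j → SPathIn G (v i) (v j) (S i j) := by
    intro i j hij
    have h1 := (st (j + 1)).2.path i j hij (by omega)
    rw [hvv i _ (by omega), hvv j _ (by omega), hSS i j _ (by omega)] at h1
    exact h1
  have hbr : ∀ i j k, i < j → v k ∈ S i j → k = i ∨ k = j := by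
    intro i j k hij hk
    have h1 := (st (max j k + 1)).2.br i j k hij (by omega) (by omega)
    rw [hvv k _ (by omega), hSS i j _ (by omega)] at h1
    exact h1 hk
  have hdisj : ∀ i j i' j', i < j → i' < j' → (i, j) ≠ (i', j') → ∀ x, x ∈ S i j →
      x ∈ S i' j' → ∃ k, x = v k := by
    intro i j i' j' hij hij' hne x hx hx'
    have h1 := (st (max j j' + 1)).2.disj i j i' j' hij (by omega) hij' (by omega) hne x
    rw [hSS i j _ (by omega), hSS i' j' _ (by omega)] at h1
    obtain ⟨k, hk, e⟩ := h1 hx hx'
    exact ⟨k, by rw [hvv k _ hk] at e; exact e⟩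
  have hall : ∀ i j, ∃ w : G.Walk (v i) (v j), i < j → (w.IsPath ∧ w.support.toFinset = S i j) := by
    intro i j
    by_cases hij : i < j
    · obtain ⟨w, hw⟩ := hpath i j hij
      exact ⟨w, fun _ => hw⟩
    · by_cases he : i = j
      · subst he
        exact ⟨SimpleGraph.Walk.nil, fun hlt => absurd hlt (lt_irrefl _)⟩
      · obtain ⟨w, _⟩ := h (v i) (hmem i) (v j) (hmem j) (fun e => he (hinj e)) ∅
          Set.finite_empty (Set.notMem_empty _) (Set.notMem_empty _)
        exact ⟨w, fun hlt => absurd hlt hij⟩
  choose P hP using hall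
  refine ⟨v, hinj, P, fun i j hij => (hP i j hij).1, ?_, ?_⟩
  · intro i j k hij hk
    refine hbr i j k hij ?_
    rw [← (hP i j hij).2, List.mem_toFinset]
    exact hk
  · intro i j i' j' hij hij' hne x hx hx'
    refine hdisj i j i' j' hij hij' hne x ?_ ?_
    · rw [← (hP i j hij).2, List.mem_toFinset]; exact hx
    · rw [← (hP i' j' hij').2, List.mem_toFinset]; exact hx'

end Pool.Agent.H533R2.VC
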