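import Pool.Agent.H533R2.VC.Main
import Pool.Agent.H533R2.VC.Logic
import Pool.Agent.H533R2.VC.Sub

set_option autoImplicit false

/-! The theorem for sentences of `L_{ω₁ω}` (task FINAL). -/

namespace Pool.Agent.H533R2.VC

open Set

variable {a : ℕ → ℕ}

theorem adj_expand (M : RS a) (x y : ℕ) : Adj (expand M) x y ↔ (gaifman M).Adj x y := by
  simp [Adj, expand]

theorem walk_of_path (M : RS a) {F : Set ℕ} {n x y : ℕ} (h : Path (expand M) F n x y) :
    ∃ w : (gaifman M).Walk x y, ∀ z ∈ w.support, z ∉ F := by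
  induction h with
  | nil h =>
    refine ⟨SimpleGraph.Walk.nil, ?_⟩
    intro z hz
    rw [SimpleGraph.Walk.support_nil, List.mem_singleton] at hz
    subst hz
    exact h
  | cons h h1 h2 ih =>
    obtain ⟨w, hw⟩ := ih
    refine ⟨SimpleGraph.Walk.cons ((adj_expand M _ _).1 h1) w, ?_⟩
    intro z hz
    rw [SimpleGraph.Walk.support_cons, List.mem_cons] at hz
    rcases hz with rfl | hz
    · exact h
    · exact hw z hz

/-- An isomorphism of expansions gives a permutation. -/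
theorem perm_of_iso {M N : St a} (h : IsoOn M N univ univ ∅) :
    ∃ σ : Equiv.Perm ℕ, ∀ (i : ℕ) (v : Fin (a i) → ℕ), N.2 i (⇑σ ∘ v) = M.2 i v := by
  obtain ⟨q, -, -, h3, h4, h5⟩ := h
  choose f hf using fun x => h4 x (mem_univ x)
  choose g hg using fun x => h5 x (mem_univ x)
  refine ⟨⟨f, g, fun x => ?_, fun y => ?_⟩, ?_⟩
  · exact h3.fst_eq (hg (f x)) (hf x) rfl
  · exact h3.snd_eq (hf (g y)) (hg y) rfl
  · intro i v
    exact (h3.2.2 i (fun k => (v k, f (v k))) (fun k => hf (v k))).symm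

/-- A permutation gives an isomorphism of expansions. -/
theorem iso_of_perm {M N : RS a} (σ : Equiv.Perm ℕ)
    (h : ∀ (i : ℕ) (v : Fin (a i) → ℕ), N i (⇑σ ∘ v) = M i v) :
    IsoOn (expand M) (expand N) univ univ ∅ := by
  refine ⟨{u | u.2 = σ u.1}, empty_subset _, ?_, ⟨?_, ?_, ?_⟩, ?_, ?_⟩
  · intro u _; exact ⟨mem_univ _, mem_univ _⟩
  · rintro ⟨u, u'⟩ hu ⟨v, v'⟩ hv
    simp only [Set.mem_ofPred_eq] at hu hv
    subst hu hv
    simp
  · rintro ⟨u, u'⟩ hu ⟨v, v'⟩ hv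
    simp only [Set.mem_ofPred_eq] at hu hv
    subst hu hv
    have : (gaifman M).Adj u v ↔ (gaifman N).Adj (σ u) (σ v) := by
      constructor
      · rintro ⟨h1, i, w, h2, ⟨j, rfl⟩, ⟨k, rfl⟩⟩
        refine ⟨fun e => h1 (σ.injective e), i, σ ∘ w, ?_, ⟨j, rfl⟩, ⟨k, rfl⟩⟩
        rw [h i w]; exact h2
      · rintro ⟨h1, i, w, h2, ⟨j, hj⟩, ⟨k, hk⟩⟩
        refine ⟨fun e => h1 (e ▸ rfl), i, σ.symm ∘ w, ?_, ⟨j, ?_⟩, ⟨k, ?_⟩⟩
        · rw [← h i (σ.symm ∘ w)]
          have : ⇑σ ∘ (⇑σ.symm ∘ w) = w := by ext; simp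
          rw [this]; exact h2
        · simp [hj]
        · simp [hk]
    simp only [expand]
    exact decide_eq_decide.2 this
  · intro i t ht
    have : (fun k => (t k).2) = ⇑σ ∘ (fun k => (t k).1) := funext fun k => ht k
    rw [this]
    exact (h i _).symm
  · intro x _; exact ⟨σ x, rfl⟩
  · intro y _; exact ⟨σ.symm y, by simp⟩

theorem vaught_final (a : ℕ → ℕ) (φ : Fm a) (hφ : fv φ = ∅)
    (hsub : ∀ M : RS a, Models M φ → ¬ HasCliqueSubdivision (gaifman M)) :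
    (∃ f : ℕ → RS a, ∀ M : RS a, Models M φ → ∃ n : ℕ, ∃ σ : Equiv.Perm ℕ,
      ∀ (i : ℕ) (v : Fin (a i) → ℕ), f n i (⇑σ ∘ v) = M i v) ∨
    (∃ g : (ℕ → Bool) → RS a, (∀ c, Models (g c) φ) ∧
      ∀ c d : ℕ → Bool, (∃ σ : Equiv.Perm ℕ, ∀ (i : ℕ) (v : Fin (a i) → ℕ),
        g d i (⇑σ ∘ v) = g c i v) → c = d) := by
  by_cases hg : ∃ g : (ℕ → Bool) → RS a, (∀ c, Models (g c) φ) ∧
      ∀ c d : ℕ → Bool, (∃ σ : Equiv.Perm ℕ, ∀ (i : ℕ) (v : Fin (a i) → ℕ),
        g d i (⇑σ ∘ v) = g c i v) → c = d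
  · exact Or.inr hg
  left
  have hω : Ordinal.omega0 < Ordinal.omega.{0} 1 := by
    rw [← Ordinal.omega_zero]; exact Ordinal.omega_lt_omega.2 one_pos
  set α : Ordinal.{0} := Ordinal.omega0 * Ordinal.omega0 + rk φ with hα
  have habs : Ordinal.omega0 + α = α := by
    rw [hα, ← add_assoc]
    congr 1
    have : Ordinal.omega0 + Ordinal.omega0 * Ordinal.omega0
        = Ordinal.omega0.{0} * (1 + Ordinal.omega0) := by
      rw [mul_add, mul_one]
    rw [this, Ordinal.one_add_omega0]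
  have hK : Good α {M : St a | Models M.2 φ ∧ M = expand M.2} := by
    refine ⟨measurable_expand φ, ?_, ?_, ?_, ?_, ?_, ?_, ?_⟩
    · refine Ordinal.isPrincipal_add_omega 1 ?_ (rk_lt φ)
      exact Ordinal.isPrincipal_mul_omega 1 hω hω
    · exact habs
    · rintro M ⟨hM1, hM2⟩ N hb
      rw [hM2] at hb
      exact expand_closed_of_absorb φ hφ habs le_add_self hM1 hb
    · rintro M ⟨-, hM⟩ x y h
      rw [hM, adj_expand] at h ⊢
      exact h.symm
    · rintro M ⟨-, hM⟩ i t h j k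
      by_cases he : t j = t k
      · exact Or.inl he
      · right
        rw [hM, adj_expand]
        exact ⟨he, i, t, h, ⟨j, rfl⟩, ⟨k, rfl⟩⟩
    · rintro M ⟨hM1, hM⟩ X hX
      by_contra hcon
      push Not at hcon
      refine hsub M.2 hM1 (hasCliqueSubdivision _ X hX ?_)
      intro x hx y hy hxy F hF hxF hyF
      obtain ⟨n, hn⟩ := hcon x hx y hy hxy F hF hxF hyF
      rw [hM] at hn
      exact walk_of_path M.2 hn
    · rintro ⟨g, hg1, hg2⟩
      refine hg ⟨fun c => (g c).2, fun c => (hg1 c).1, ?_⟩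
      rintro c d ⟨σ, hσ⟩
      refine hg2 c d ?_
      rw [(hg1 c).2, (hg1 d).2]
      exact iso_of_perm σ hσ
  obtain ⟨f, hf⟩ := good_countable hK
  refine ⟨fun n => (f n).2, fun M hM => ?_⟩
  obtain ⟨n, hn⟩ := hf (expand M) ⟨hM, rfl⟩
  obtain ⟨σ, hσ⟩ := perm_of_iso hn
  exact ⟨n, σ, hσ⟩

end Pool.Agent.H533R2.VC
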