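import Pool.Agent.H533R2.VC.Path

set_option autoImplicit false

/-! Replacing flaps (task GLUE, proofs by helper496). -/

namespace Pool.Agent.H533R2.VC

open Set

variable {a : ℕ → ℕ}

open Classical in
/-- Replace the structure on the closed flaps `cl M (C j)` by `τ j`. -/
noncomputable def glue (M : St a) (C : ℕ → Set ℕ) (τ : ℕ → St a) : St a :=
  (fun x y => decide ((∃ j, (x ∈ C j ∨ y ∈ C j) ∧ x ∈ cl M (C j) ∧ y ∈ cl M (C j) ∧
      (τ j).1 x y = true) ∨ ((∀ j, x ∉ C j ∧ y ∉ C j) ∧ M.1 x y = true)),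
   fun i t => decide ((∃ j, (∃ k, t k ∈ C j) ∧ (∀ k, t k ∈ cl M (C j)) ∧ (τ j).2 i t = true) ∨
      ((∀ j k, t k ∉ C j) ∧ M.2 i t = true)))

/-- Pairwise disjoint and non-adjacent sets. -/
structure Fam (M : St a) (C : ℕ → Set ℕ) : Prop where
  disj : ∀ i j, i ≠ j → Disjoint (C i) (C j)
  nonadj : ∀ i j, i ≠ j → Disjoint (nbr M (C i)) (C j)

variable {M : St a} {C : ℕ → Set ℕ} {τ : ℕ → St a} {β : Ordinal.{0}}

theorem glue_adj_iff {x y : ℕ} : (glue M C τ).1 x y = true ↔
    ((∃ j, (x ∈ C j ∨ y ∈ C j) ∧ x ∈ cl M (C j) ∧ y ∈ cl M (C j) ∧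
      (τ j).1 x y = true) ∨ ((∀ j, x ∉ C j ∧ y ∉ C j) ∧ M.1 x y = true)) := by
  simp only [glue, decide_eq_true_eq]

theorem glue_rel_iff {i : ℕ} {t : Fin (a i) → ℕ} : (glue M C τ).2 i t = true ↔
    ((∃ j, (∃ k, t k ∈ C j) ∧ (∀ k, t k ∈ cl M (C j)) ∧ (τ j).2 i t = true) ∨
      ((∀ j k, t k ∉ C j) ∧ M.2 i t = true)) := by
  simp only [glue, decide_eq_true_eq]

theorem mem_cl_of_mem {C : Set ℕ} {x : ℕ} (h : x ∈ C) : x ∈ cl M C := Or.inl h

theorem mem_cl_of_nbr {C : Set ℕ} {x : ℕ} (h : x ∈ nbr M C) : x ∈ cl M C := Or.inr h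

/-- A point of `C j` in the closure of `C j'`. -/
theorem Fam.eq_of_mem_cl (hC : Fam M C) {j j' x : ℕ} (h : x ∈ C j) (h' : x ∈ cl M (C j')) :
    j' = j := by
  by_contra hne
  rcases h' with h' | h'
  · exact Set.disjoint_left.1 (hC.disj j' j hne) h' h
  · exact Set.disjoint_left.1 (hC.nonadj j' j hne) h' h

theorem Fam.notMem_of_nbr (hC : Fam M C) {j x : ℕ} (h : x ∈ nbr M (C j)) (i : ℕ) : x ∉ C i := by
  by_cases hij : j = i
  · subst hij; exact h.1
  · exact Set.disjoint_left.1 (hC.nonadj j i hij) h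

/-- values of the glued structure at a point of `C j` -/
theorem glue_adj_left (hC : Fam M C) {j x y : ℕ} (h : x ∈ C j) :
    (glue M C τ).1 x y = true ↔ y ∈ cl M (C j) ∧ (τ j).1 x y = true := by
  rw [glue_adj_iff]
  constructor
  · rintro (⟨j', _, h2, h3, h4⟩ | ⟨h1, _⟩)
    · have := hC.eq_of_mem_cl h h2
      subst this
      exact ⟨h3, h4⟩
    · exact absurd h (h1 j).1
  · rintro ⟨h1, h2⟩
    exact Or.inl ⟨j, Or.inl h, mem_cl_of_mem h, h1, h2⟩

theorem glue_adj_right (hC : Fam M C) {j x y : ℕ} (h : y ∈ C j) :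
    (glue M C τ).1 x y = true ↔ x ∈ cl M (C j) ∧ (τ j).1 x y = true := by
  rw [glue_adj_iff]
  constructor
  · rintro (⟨j', _, h2, h3, h4⟩ | ⟨h1, _⟩)
    · have := hC.eq_of_mem_cl h h3
      subst this
      exact ⟨h2, h4⟩
    · exact absurd h (h1 j).2
  · rintro ⟨h1, h2⟩
    exact Or.inl ⟨j, Or.inr h, h1, mem_cl_of_mem h, h2⟩

theorem glue_adj_out {x y : ℕ} (h : ∀ j, x ∉ C j) (h' : ∀ j, y ∉ C j) :
    (glue M C τ).1 x y = true ↔ M.1 x y = true := by
  rw [glue_adj_iff]
  constructor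
  · rintro (⟨j, h1 | h1, _⟩ | ⟨_, h1⟩)
    · exact absurd h1 (h j)
    · exact absurd h1 (h' j)
    · exact h1
  · intro h1
    exact Or.inr ⟨fun j => ⟨h j, h' j⟩, h1⟩

theorem glue_rel_at (hC : Fam M C) {j i : ℕ} {t : Fin (a i) → ℕ} {k₀ : Fin (a i)}
    (h : t k₀ ∈ C j) :
    (glue M C τ).2 i t = true ↔ (∀ k, t k ∈ cl M (C j)) ∧ (τ j).2 i t = true := by
  rw [glue_rel_iff]
  constructor
  · rintro (⟨j', _, h2, h3⟩ | ⟨h1, _⟩)
    · have := hC.eq_of_mem_cl h (h2 k₀)
      subst this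
      exact ⟨h2, h3⟩
    · exact absurd h (h1 j k₀)
  · rintro ⟨h1, h2⟩
    exact Or.inl ⟨j, ⟨k₀, h⟩, h1, h2⟩

theorem glue_rel_out {i : ℕ} {t : Fin (a i) → ℕ} (h : ∀ j k, t k ∉ C j) :
    (glue M C τ).2 i t = true ↔ M.2 i t = true := by
  rw [glue_rel_iff]
  constructor
  · rintro (⟨j, ⟨k, h1⟩, _⟩ | ⟨_, h1⟩)
    · exact absurd h1 (h j k)
    · exact h1
  · intro h1
    exact Or.inr ⟨h, h1⟩

theorem bool_eq_of_iff {b c : Bool} (h : b = true ↔ c = true) : b = c := by
  cases b <;> cases c <;> simp_all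

/-- the tuple version of `glue_in`, from a partial isomorphism over the neighbourhoods -/
theorem glue_in_aux (hC : Fam M C)
    (hτ : ∀ j, PIso M (τ j) (idOn (nbr M (C j)))) (j : ℕ) :
    PIso (τ j) (glue M C τ) (idOn (cl M (C j))) := by
  refine ⟨?_, ?_, ?_⟩
  · rintro ⟨u, u'⟩ ⟨h1, _⟩ ⟨v, v'⟩ ⟨h2, _⟩
    simp only at h1 h2
    subst h1 h2
    exact Iff.rfl
  · rintro ⟨x, x'⟩ ⟨h1, hx⟩ ⟨y, y'⟩ ⟨h2, hy⟩
    simp only at h1 h2 hx hy ⊢
    subst h1 h2
    apply bool_eq_of_iff
    rcases hx with hx | hx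
    · rw [glue_adj_left hC hx]
      exact ⟨fun h => ⟨hy, h⟩, fun h => h.2⟩
    · rcases hy with hy | hy
      · rw [glue_adj_right hC hy]
        exact ⟨fun h => ⟨mem_cl_of_nbr hx, h⟩, fun h => h.2⟩
      · rw [glue_adj_out (hC.notMem_of_nbr hx) (hC.notMem_of_nbr hy)]
        rw [(hτ j).2.1 (x, x) (idOn_self hx) (y, y) (idOn_self hy)]
  · intro i t ht
    have ht1 : (fun k => (t k).1) = fun k => (t k).2 := funext fun k => (ht k).1
    rw [ht1]
    have ht2 : ∀ k, (t k).2 ∈ cl M (C j) := fun k => (ht k).1 ▸ (ht k).2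
    apply bool_eq_of_iff
    by_cases h : ∃ k₀, (t k₀).2 ∈ C j
    · obtain ⟨k₀, h0⟩ := h
      rw [glue_rel_at hC (t := fun k => (t k).2) (k₀ := k₀) h0]
      exact ⟨fun h => ⟨ht2, h⟩, fun h => h.2⟩
    · push Not at h
      have h3 : ∀ k, (t k).2 ∈ nbr M (C j) := fun k => (ht2 k).resolve_left (h k)
      rw [glue_rel_out (fun i k => hC.notMem_of_nbr (h3 k) i)]
      have := (hτ j).2.2 i (fun k => ((t k).2, (t k).2)) (fun k => idOn_self (h3 k))
      simp only at this
      rw [this]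

theorem glue_in (hC : Fam M C)
    (hτ : ∀ j, BF M (τ j) (cl M (C j)) (cl M (C j)) β (idOn (nbr M (C j)))) (j : ℕ) :
    PIso (τ j) (glue M C τ) (idOn (cl M (C j))) :=
  glue_in_aux hC (fun j => (hτ j).piso) j

theorem glue_out : PIso M (glue M C τ) (idOn (⋃ j, C j)ᶜ) := by
  refine ⟨?_, ?_, ?_⟩
  · rintro ⟨u, u'⟩ ⟨h1, _⟩ ⟨v, v'⟩ ⟨h2, _⟩
    simp only at h1 h2
    subst h1 h2
    exact Iff.rfl
  · rintro ⟨x, x'⟩ ⟨h1, hx⟩ ⟨y, y'⟩ ⟨h2, hy⟩
    simp only [mem_compl_iff, mem_iUnion, not_exists] at h1 h2 hx hy ⊢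
    subst h1 h2
    exact bool_eq_of_iff (glue_adj_out hx hy).symm
  · intro i t ht
    have ht1 : (fun k => (t k).1) = fun k => (t k).2 := funext fun k => (ht k).1
    rw [ht1]
    have ht2 : ∀ j k, (t k).2 ∉ C j := by
      intro j k
      have := (ht k).2
      rw [(ht k).1] at this
      simp only [mem_compl_iff, mem_iUnion, not_exists] at this
      exact this j
    exact bool_eq_of_iff (glue_rel_out ht2).symm

/-- the partial isomorphism property of the glued family of games -/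
theorem glue_piso (hs : ∀ x y, Adj M x y → Adj M y x)
    (hl : ∀ i t, M.2 i t = true → ∀ j k, t j = t k ∨ Adj M (t j) (t k)) (hC : Fam M C)
    (W : Set ℕ) (p : ℕ → Set (ℕ × ℕ)) (hp : ∀ j, p j ⊆ C j ×ˢ C j)
    (hτ : ∀ j, PIso M (τ j) (idOn (nbr M (C j)) ∪ p j)) :
    PIso M (glue M C τ) (idOn (W \ ⋃ j, C j) ∪ ⋃ j, p j) := by
  have hin := glue_in_aux hC (fun j => (hτ j).mono subset_union_left)
  -- the points of the relation
  have hA : ∀ u ∈ idOn (W \ ⋃ j, C j) ∪ ⋃ j, p j, (∃ j, u ∈ p j) ∨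
      (u.1 = u.2 ∧ ∀ j, u.1 ∉ C j) := by
    rintro u (hu | hu)
    · right
      refine ⟨hu.1, fun j hj => hu.2.2 (mem_iUnion.2 ⟨j, hj⟩)⟩
    · left; exact mem_iUnion.1 hu
  -- a point with first coordinate in `cl M (C j)` belongs to the domain of game `j`
  have hQ1 : ∀ u ∈ idOn (W \ ⋃ j, C j) ∪ ⋃ j, p j, ∀ j, u.1 ∈ cl M (C j) →
      u ∈ idOn (nbr M (C j)) ∪ p j := by
    intro u hu j hj
    rcases hA u hu with ⟨i, hi⟩ | ⟨h1, h2⟩
    · have := hC.eq_of_mem_cl (hp i hi).1 hj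
      subst this
      exact Or.inr hi
    · exact Or.inl ⟨h1, hj.resolve_left (h2 j)⟩
  have hQ2 : ∀ u ∈ idOn (W \ ⋃ j, C j) ∪ ⋃ j, p j, ∀ j, u.2 ∈ cl M (C j) →
      u ∈ idOn (nbr M (C j)) ∪ p j := by
    intro u hu j hj
    rcases hA u hu with ⟨i, hi⟩ | ⟨h1, h2⟩
    · have := hC.eq_of_mem_cl (hp i hi).2 hj
      subst this
      exact Or.inr hi
    · rw [← h1] at hj
      exact Or.inl ⟨h1, hj.resolve_left (h2 j)⟩
  have hcl : ∀ j, ∀ u ∈ idOn (nbr M (C j)) ∪ p j, u.2 ∈ cl M (C j) := by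
    rintro j u (hu | hu)
    · rw [← hu.1]; exact mem_cl_of_nbr hu.2
    · exact mem_cl_of_mem (hp j hu).2
  -- equality and adjacency when one of the points lies in `p j`
  have key : ∀ j, ∀ u ∈ p j, ∀ v ∈ idOn (W \ ⋃ j, C j) ∪ ⋃ j, p j,
      (u.1 = v.1 ↔ u.2 = v.2) ∧ M.1 u.1 v.1 = (glue M C τ).1 u.2 v.2 ∧
        M.1 v.1 u.1 = (glue M C τ).1 v.2 u.2 := by
    intro j u hu v hv
    by_cases hvQ : v ∈ idOn (nbr M (C j)) ∪ p j
    · have e1 := hin j
      refine ⟨(hτ j).1 u (Or.inr hu) v hvQ, ?_, ?_⟩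
      · rw [(hτ j).2.1 u (Or.inr hu) v hvQ]
        exact e1.2.1 (u.2, u.2) (idOn_self (mem_cl_of_mem (hp j hu).2)) (v.2, v.2)
          (idOn_self (hcl j v hvQ))
      · rw [(hτ j).2.1 v hvQ u (Or.inr hu)]
        exact e1.2.1 (v.2, v.2) (idOn_self (hcl j v hvQ)) (u.2, u.2)
          (idOn_self (mem_cl_of_mem (hp j hu).2))
    · have n1 : v.1 ∉ cl M (C j) := fun h => hvQ (hQ1 v hv j h)
      have n2 : v.2 ∉ cl M (C j) := fun h => hvQ (hQ2 v hv j h)
      have u1 := (hp j hu).1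
      have u2 := (hp j hu).2
      refine ⟨?_, ?_, ?_⟩
      · constructor
        · intro h; exact absurd (h ▸ mem_cl_of_mem u1) n1
        · intro h; exact absurd (h ▸ mem_cl_of_mem u2) n2
      · apply bool_eq_of_iff
        rw [glue_adj_left hC u2]
        constructor
        · intro h
          exact absurd (mem_cl_of_nbr ⟨fun h' => n1 (mem_cl_of_mem h'), u.1, u1, h⟩) n1
        · rintro ⟨h, _⟩; exact absurd h n2
      · apply bool_eq_of_iff
        rw [glue_adj_right hC u2]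
        constructor
        · intro h
          exact absurd (mem_cl_of_nbr ⟨fun h' => n1 (mem_cl_of_mem h'), u.1, u1, hs _ _ h⟩) n1
        · rintro ⟨h, _⟩; exact absurd h n2
  refine ⟨?_, ?_, ?_⟩
  · intro u hu v hv
    rcases hA u hu with ⟨j, hj⟩ | ⟨h1, h2⟩
    · exact (key j u hj v hv).1
    · rcases hA v hv with ⟨j, hj⟩ | ⟨h3, h4⟩
      · have := (key j v hj u hu).1
        constructor
        · intro h; exact (this.1 h.symm).symm
        · intro h; exact (this.2 h.symm).symm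
      · rw [← h1, ← h3]
  · intro u hu v hv
    rcases hA u hu with ⟨j, hj⟩ | ⟨h1, h2⟩
    · exact (key j u hj v hv).2.1
    · rcases hA v hv with ⟨j, hj⟩ | ⟨h3, h4⟩
      · exact (key j v hj u hu).2.2
      · rw [← h1, ← h3]
        exact bool_eq_of_iff (glue_adj_out h2 h4).symm
  · intro i t ht
    by_cases hex : ∃ k₀ j, t k₀ ∈ p j
    · obtain ⟨k₀, j, h0⟩ := hex
      by_cases hall : ∀ k, t k ∈ idOn (nbr M (C j)) ∪ p j
      · rw [(hτ j).2.2 i t hall]
        exact (hin j).2.2 i (fun k => ((t k).2, (t k).2)) (fun k => idOn_self (hcl j _ (hall k)))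
      · push Not at hall
        obtain ⟨k₁, h1⟩ := hall
        have n1 : (t k₁).1 ∉ cl M (C j) := fun h => h1 (hQ1 _ (ht k₁) j h)
        have n2 : (t k₁).2 ∉ cl M (C j) := fun h => h1 (hQ2 _ (ht k₁) j h)
        have u1 := (hp j h0).1
        have u2 := (hp j h0).2
        apply bool_eq_of_iff
        rw [glue_rel_at hC (t := fun k => (t k).2) (k₀ := k₀) u2]
        constructor
        · intro h
          rcases hl i _ h k₀ k₁ with h2 | h2
          · exact absurd (h2 ▸ mem_cl_of_mem u1) n1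
          · exact absurd (mem_cl_of_nbr ⟨fun h' => n1 (mem_cl_of_mem h'), _, u1, h2⟩) n1
        · rintro ⟨h, _⟩; exact absurd (h k₁) n2
    · push Not at hex
      have h1 : ∀ k, (t k).1 = (t k).2 ∧ ∀ j, (t k).1 ∉ C j := by
        intro k
        rcases hA _ (ht k) with ⟨j, hj⟩ | h
        · exact absurd hj (hex k j)
        · exact h
      have e1 : (fun k => (t k).1) = fun k => (t k).2 := funext fun k => (h1 k).1
      rw [e1]
      apply bool_eq_of_iff
      rw [glue_rel_out (t := fun k => (t k).2) (fun j k => (h1 k).1 ▸ (h1 k).2 j)]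

/-- the game on the glued structure -/
theorem glue_bf_aux (hs : ∀ x y, Adj M x y → Adj M y x)
    (hl : ∀ i t, M.2 i t = true → ∀ j k, t j = t k ∨ Adj M (t j) (t k)) (hC : Fam M C)
    {W : Set ℕ} (hW : ∀ j, cl M (C j) ⊆ W) (p : ℕ → Set (ℕ × ℕ)) (hp : ∀ j, p j ⊆ C j ×ˢ C j)
    (hτ : ∀ j, BF M (τ j) (cl M (C j)) (cl M (C j)) β (idOn (nbr M (C j)) ∪ p j)) :
    BF M (glue M C τ) W W β (idOn (W \ ⋃ j, C j) ∪ ⋃ j, p j) := by
  classical
  induction β using WellFoundedLT.induction generalizing p with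
  | ind β ih =>
    rw [BF_iff]
    refine ⟨glue_piso hs hl hC W p hp (fun j => (hτ j).piso), fun b hb => ?_⟩
    -- adding a pair in `C j`
    have step : ∀ (j x y : ℕ), x ∈ C j → y ∈ C j →
        BF M (τ j) (cl M (C j)) (cl M (C j)) b (insert (x, y) (idOn (nbr M (C j)) ∪ p j)) →
        BF M (glue M C τ) W W b (insert (x, y) (idOn (W \ ⋃ j, C j) ∪ ⋃ j, p j)) := by
      intro j x y hx hy hb'
      have h := ih b hb (fun i => if i = j then insert (x, y) (p j) else p i) ?_ ?_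
      · refine h.subset ?_
        rintro u (rfl | hu | hu)
        · exact Or.inr (mem_iUnion.2 ⟨j, by simp⟩)
        · exact Or.inl hu
        · obtain ⟨i, hi⟩ := mem_iUnion.1 hu
          refine Or.inr (mem_iUnion.2 ⟨i, ?_⟩)
          by_cases hij : i = j
          · subst hij
            simp only [if_true]
            exact Or.inr hi
          · simp only [if_neg hij]
            exact hi
      · intro i
        by_cases hij : i = j
        · subst hij
          simp only [if_true]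
          rintro u (rfl | hu)
          · exact ⟨hx, hy⟩
          · exact hp i hu
        · simp only [if_neg hij]
          exact hp i
      · intro i
        by_cases hij : i = j
        · subst hij
          simp only [if_true]
          refine hb'.subset ?_
          rintro u (hu | rfl | hu)
          · exact Or.inr (Or.inl hu)
          · exact Or.inl rfl
          · exact Or.inr (Or.inr hu)
        · simp only [if_neg hij]
          exact (hτ i).mono hb.le
    -- adding a pair outside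
    have step0 : ∀ x ∈ W, (∀ j, x ∉ C j) →
        BF M (glue M C τ) W W b (insert (x, x) (idOn (W \ ⋃ j, C j) ∪ ⋃ j, p j)) := by
      intro x hx hxC
      have h := ih b hb p hp (fun i => (hτ i).mono hb.le)
      rwa [insert_eq_of_mem]
      exact Or.inl ⟨rfl, hx, fun h => by
        obtain ⟨j, hj⟩ := mem_iUnion.1 h
        exact hxC j hj⟩
    constructor
    · intro x hx
      by_cases hxC : ∃ j, x ∈ C j
      · obtain ⟨j, hj⟩ := hxC
        obtain ⟨y, hy, hb'⟩ := (hτ j).forth hb (mem_cl_of_mem hj)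
        have hyC : y ∈ C j := by
          rcases hy with hy | hy
          · exact hy
          · exfalso
            have := hb'.piso.fst_eq (x := x) (x' := y) (y := y) (y' := y) (Or.inl rfl)
              (Or.inr (Or.inl (idOn_self hy))) rfl
            subst this
            exact hy.1 hj
        exact ⟨y, hW j hy, step j x y hj hyC hb'⟩
      · push Not at hxC
        exact ⟨x, hx, step0 x hx hxC⟩
    · intro y hy
      by_cases hyC : ∃ j, y ∈ C j
      · obtain ⟨j, hj⟩ := hyC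
        obtain ⟨x, hx, hb'⟩ := (hτ j).back hb (mem_cl_of_mem hj)
        have hxC : x ∈ C j := by
          rcases hx with hx | hx
          · exact hx
          · exfalso
            have := hb'.piso.snd_eq (x := x) (x' := y) (y := x) (y' := x) (Or.inl rfl)
              (Or.inr (Or.inl (idOn_self hx))) rfl
            subst this
            exact hx.1 hj
        exact ⟨x, hW j hx, step j x y hxC hj hb'⟩
      · push Not at hyC
        exact ⟨y, hy, step0 y hy hyC⟩

theorem glue_bf (hs : ∀ x y, Adj M x y → Adj M y x)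
    (hl : ∀ i t, M.2 i t = true → ∀ j k, t j = t k ∨ Adj M (t j) (t k)) (hC : Fam M C)
    {W : Set ℕ} (hW : ∀ j, cl M (C j) ⊆ W)
    (hτ : ∀ j, BF M (τ j) (cl M (C j)) (cl M (C j)) β (idOn (nbr M (C j)))) :
    BF M (glue M C τ) W W β (idOn (W \ ⋃ j, C j)) := by
  have h := glue_bf_aux (τ := τ) (β := β) hs hl hC hW (fun _ => ∅) (fun j => empty_subset _)
    (fun j => by rw [union_empty]; exact hτ j)
  exact h.subset subset_union_left

theorem glue_nbr (hC : Fam M C) (hβ : 0 < β)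
    (hτ : ∀ j, BF M (τ j) (cl M (C j)) (cl M (C j)) β (idOn (nbr M (C j)))) (j : ℕ) :
    nbr (glue M C τ) (C j) = nbr M (C j) := by
  ext s
  constructor
  · rintro ⟨h1, c, hc, h2⟩
    have := (glue_adj_left hC hc).1 h2
    exact this.1.resolve_left h1
  · intro hsn
    refine ⟨hsn.1, ?_⟩
    obtain ⟨c, hc, h2⟩ := hsn.2
    obtain ⟨c', hc', hb⟩ := (hτ j).forth hβ (mem_cl_of_mem hc)
    have hcC : c' ∈ C j := by
      rcases hc' with h | h
      · exact h
      · exfalso
        have := hb.piso.fst_eq (x := c) (x' := c') (y := c') (y' := c') (Or.inl rfl)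
          (Or.inr (idOn_self h)) rfl
        subst this
        exact h.1 hc
    refine ⟨c', hcC, (glue_adj_left hC hcC).2 ⟨mem_cl_of_nbr hsn, ?_⟩⟩
    exact (hb.piso.adj (x := c) (x' := c') (y := s) (y' := s) (Or.inl rfl)
      (Or.inr (idOn_self hsn))).1 h2

/-- a path inside a set, for a structure that agrees on it -/
theorem Path.of_piso {N N' : St a} {S : Set ℕ} (h : PIso N N' (idOn S)) {B : Set ℕ}
    (hB : Bᶜ ⊆ S) {n x y : ℕ} (hP : Path N B n x y) : Path N' B n x y := by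
  induction hP with
  | nil h1 => exact Path.nil h1
  | @cons n x y z h1 h2 h3 ih =>
    refine Path.cons h1 ?_ ih
    exact (h.adj (idOn_self (hB h1)) (idOn_self (hB h3.left_notMem))).1 h2

theorem glue_conn (hC : Fam M C) (hβ : Ordinal.omega0 + 2 ≤ β)
    (hτ : ∀ j, BF M (τ j) (cl M (C j)) (cl M (C j)) β (idOn (nbr M (C j)))) (j : ℕ)
    (hj : ConnSet M (C j)) : ConnSet (glue M C τ) (C j) := by
  intro x' hx' y' hy'
  have hlt1 : Ordinal.omega0 + 1 < β := by
    refine lt_of_lt_of_le ?_ hβ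
    gcongr
    norm_num
  have hlt0 : Ordinal.omega0 < Ordinal.omega0 + 1 := by
    exact lt_add_one _
  obtain ⟨x, hx, hb1⟩ := (hτ j).back hlt1 (mem_cl_of_mem hx')
  obtain ⟨y, hy, hb2⟩ := hb1.back hlt0 (mem_cl_of_mem hy')
  -- x, y ∈ C j
  have aux : ∀ {z z' : ℕ}, z ∈ cl M (C j) → z' ∈ C j →
      (z, z') ∈ insert (y, y') (insert (x, x') (idOn (nbr M (C j)))) → z ∈ C j := by
    intro z z' hz hz' hmem
    rcases hz with h | h
    · exact h
    · exfalso
      have := hb2.piso.snd_eq (x := z) (x' := z') (y := z) (y' := z) hmem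
        (Or.inr (Or.inr (idOn_self h))) rfl
      subst this
      exact h.1 hz'
  have hxC : x ∈ C j := aux hx hx' (Or.inr (Or.inl rfl))
  have hyC : y ∈ C j := aux hy hy' (Or.inl rfl)
  obtain ⟨n, hP⟩ := hj x hxC y hyC
  -- transfer the path to `τ j`
  have hP' : Path M (nbr M (C j) ∪ (cl M (C j))ᶜ) n x y := by
    refine hP.mono ?_
    rintro z (hz | hz) hzC
    · exact hz.1 hzC
    · exact hz (mem_cl_of_mem hzC)
  have hT := path_transfer (M := M) (N := τ j) (S := nbr M (C j)) (S' := nbr M (C j))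
    (hb2.mono (Ordinal.natCast_lt_omega0 n).le) ?_ ?_ ?_ ?_ (Or.inr (Or.inl rfl)) (Or.inl rfl) hP'
  · have hT2 : Path (τ j) (C j)ᶜ n x' y' := by
      refine hT.mono ?_
      intro z hz
      by_cases h : z ∈ nbr M (C j)
      · exact Or.inl h
      · right
        rintro (h1 | h1)
        · exact hz h1
        · exact h h1
    refine ⟨n, hT2.of_piso (glue_in hC hτ j) ?_⟩
    rw [compl_compl]
    exact fun z hz => mem_cl_of_mem hz
  · rintro u (rfl | rfl | hu)
    · exact ⟨hy, mem_cl_of_mem hy'⟩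
    · exact ⟨hx, mem_cl_of_mem hx'⟩
    · exact ⟨mem_cl_of_nbr hu.2, hu.1 ▸ mem_cl_of_nbr hu.2⟩
  · rintro u (rfl | rfl | hu)
    · exact ⟨fun h => absurd hyC h.1, fun h => absurd hy' h.1⟩
    · exact ⟨fun h => absurd hxC h.1, fun h => absurd hx' h.1⟩
    · rw [hu.1]
  · intro s hs
    exact ⟨s, Or.inr (Or.inr (idOn_self hs))⟩
  · intro s hs
    exact ⟨s, Or.inr (Or.inr (idOn_self hs))⟩

/-- a good rank is at least `ω + 2` -/
theorem Good.omega_add_two_le {α : Ordinal.{0}} {K : Set (St a)} (hK : Good α K) :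
    Ordinal.omega0 + 2 ≤ α := by
  have h1 : Ordinal.omega0 ≤ α := by
    rw [← hK.absorb]
    exact le_self_add
  rw [← hK.absorb]
  gcongr
  refine le_trans ?_ h1
  exact_mod_cast (Ordinal.natCast_lt_omega0 2).le

theorem Good.pos {α : Ordinal.{0}} {K : Set (St a)} (hK : Good α K) : 0 < α :=
  lt_of_lt_of_le Ordinal.omega0_pos (le_self_add.trans hK.omega_add_two_le)

/-- The glued structure stays in the class. -/
theorem glue_mem {α : Ordinal.{0}} {K : Set (St a)} (hK : Good α K) (hM : M ∈ K) (hC : Fam M C)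
    (hτ : ∀ j, BF M (τ j) (cl M (C j)) (cl M (C j)) α (idOn (nbr M (C j)))) :
    glue M C τ ∈ K := by
  refine hK.closed M hM _ ?_
  exact (glue_bf (hK.symm M hM) (hK.loc M hM) hC (W := univ) (fun j => subset_univ _) hτ).subset
    (empty_subset _)

/-- A single flap as a family. -/
def single (C : Set ℕ) : ℕ → Set ℕ := fun j => if j = 0 then C else ∅

theorem fam_single (C : Set ℕ) : Fam M (single C) := by
  constructor
  · intro i j hij
    unfold single
    by_cases hi : i = 0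
    · have hj : j ≠ 0 := fun h => hij (by rw [hi, h])
      simp [hi, hj]
    · simp [hi]
  · intro i j hij
    unfold single
    by_cases hi : i = 0
    · have hj : j ≠ 0 := fun h => hij (by rw [hi, h])
      simp [hi, hj]
    · have : nbr M (∅ : Set ℕ) = ∅ := by
        ext s
        simp [nbr]
      simp [hi, this]

end Pool.Agent.H533R2.VC
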