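import Pool.Agent.H533R2.VC.Basic

set_option autoImplicit false

/-! Paths, components, and their transfer through back-and-forth equivalences (task PATH). -/

namespace Pool.Agent.H533R2.VC

open Set

variable {a : ℕ → ℕ} {M N : St a} {X Y S S' B B' : Set ℕ} {p : Set (ℕ × ℕ)}

theorem Path.left_notMem {n x y : ℕ} (h : Path M B n x y) : x ∉ B := by
  cases h <;> assumption

theorem Path.right_notMem {n x y : ℕ} (h : Path M B n x y) : y ∉ B := by
  induction h with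
  | nil h => exact h
  | cons _ _ _ ih => exact ih

theorem Path.mono {n x y : ℕ} (h : Path M B n x y) (hB : B' ⊆ B) : Path M B' n x y := by
  induction h with
  | nil h => exact Path.nil fun h' => h (hB h')
  | cons h h1 _ ih => exact Path.cons (fun h' => h (hB h')) h1 ih

theorem Path.trans {m n x y z : ℕ} (h : Path M B m x y) (h' : Path M B n y z) :
    Path M B (m + n) x z := by
  induction h with
  | nil h => simpa using h'
  | @cons k x u w h h1 _ ih =>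
    have : k + 1 + n = (k + n) + 1 := by omega
    rw [this]
    exact Path.cons h h1 (ih h')

theorem Path.single {x y : ℕ} (hx : x ∉ B) (hy : y ∉ B) (h : Adj M x y) : Path M B 1 x y :=
  Path.cons hx h (Path.nil hy)

theorem Path.symm (hs : ∀ x y, Adj M x y → Adj M y x) {n x y : ℕ} (h : Path M B n x y) :
    Path M B n y x := by
  induction h with
  | nil h => exact Path.nil h
  | cons h h1 h2 ih =>
    exact ih.trans (Path.single h2.left_notMem h (hs _ _ h1))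

theorem Conn.refl {x : ℕ} (h : x ∉ B) : Conn M B x x := ⟨0, Path.nil h⟩

theorem Conn.trans {x y z : ℕ} (h : Conn M B x y) (h' : Conn M B y z) : Conn M B x z := by
  obtain ⟨m, hm⟩ := h
  obtain ⟨n, hn⟩ := h'
  exact ⟨m + n, hm.trans hn⟩

theorem Conn.symm (hs : ∀ x y, Adj M x y → Adj M y x) {x y : ℕ} (h : Conn M B x y) :
    Conn M B y x := by
  obtain ⟨m, hm⟩ := h
  exact ⟨m, hm.symm hs⟩

theorem Conn.mono {x y : ℕ} (h : Conn M B x y) (hB : B' ⊆ B) : Conn M B' x y := by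
  obtain ⟨m, hm⟩ := h
  exact ⟨m, hm.mono hB⟩

/-- The set of vertices of a path. -/
theorem Path.exists_support {n x y : ℕ} (h : Path M B n x y) :
    ∃ Q : Finset ℕ, x ∈ Q ∧ y ∈ Q ∧ Disjoint (Q : Set ℕ) B ∧
      (∀ z ∈ Q, ∃ m ≤ n, Path M B m x z) ∧ (∀ z ∈ Q, ∃ m ≤ n, Path M B m z y) ∧
      ∀ B' : Set ℕ, Disjoint (Q : Set ℕ) B' → Path M B' n x y := by
  induction h with
  | @nil x h =>
    refine ⟨{x}, by simp, by simp, by simpa using h, ?_, ?_, ?_⟩
    · intro z hz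
      rw [Finset.mem_singleton] at hz
      subst hz
      exact ⟨0, le_rfl, Path.nil h⟩
    · intro z hz
      rw [Finset.mem_singleton] at hz
      subst hz
      exact ⟨0, le_rfl, Path.nil h⟩
    · intro B' hB'
      exact Path.nil (by simpa using hB')
  | @cons n x u y h h1 h2 ih =>
    obtain ⟨Q, hu, hy, hd, hl, hr, hB⟩ := ih
    refine ⟨insert x Q, by simp, by simp [hy], ?_, ?_, ?_, ?_⟩
    · rw [Finset.coe_insert, Set.disjoint_insert_left]
      exact ⟨h, hd⟩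
    · intro z hz
      rcases Finset.mem_insert.1 hz with rfl | hz
      · exact ⟨0, Nat.zero_le _, Path.nil h⟩
      · obtain ⟨m, hm, hp⟩ := hl z hz
        exact ⟨m + 1, by omega, Path.cons h h1 hp⟩
    · intro z hz
      rcases Finset.mem_insert.1 hz with rfl | hz
      · exact ⟨n + 1, le_rfl, Path.cons h h1 h2⟩
      · obtain ⟨m, hm, hp⟩ := hr z hz
        exact ⟨m, by omega, hp⟩
    · intro B' hB'
      rw [Finset.coe_insert, Set.disjoint_insert_left] at hB'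
      exact Path.cons hB'.1 h1 (hB B' hB'.2)

/-- Components are closed. -/
theorem flapAt_closed {x c s : ℕ} (hc : c ∈ flapAt M B x) (h : Adj M c s) (hs : s ∉ B) :
    s ∈ flapAt M B x := by
  obtain ⟨n, hn⟩ := hc
  exact ⟨n + 1, hn.trans (Path.single hn.right_notMem hs h)⟩

theorem flapAt_disjoint (x : ℕ) : Disjoint (flapAt M B x) B := by
  rw [Set.disjoint_left]
  rintro y ⟨n, hn⟩
  exact hn.right_notMem

theorem nbr_flapAt (x : ℕ) : nbr M (flapAt M B x) ⊆ B := by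
  rintro s ⟨hs, c, hc, hcs⟩
  by_contra hsB
  exact hs (flapAt_closed hc hcs hsB)

theorem mem_flapAt_self {x : ℕ} (h : x ∉ B) : x ∈ flapAt M B x := Conn.refl h

/-- A path starting in `C` either stays in `C` or passes through `nbr M C`. -/
theorem Path.stay {C : Set ℕ} {n x y : ℕ} (h : Path M B n x y) (hC : nbr M C ⊆ B) (hx : x ∈ C) :
    y ∈ C ∧ Path M (Cᶜ ∪ B) n x y := by
  induction h with
  | nil h => exact ⟨hx, Path.nil (by simp [hx, h])⟩
  | @cons n x u y h h1 h2 ih =>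
    have hu : u ∈ C := by
      by_contra hu
      exact h2.left_notMem (hC ⟨hu, x, hx, h1⟩)
    obtain ⟨h3, h4⟩ := ih hu
    exact ⟨h3, Path.cons (by simp [hx, h]) h1 h4⟩

/-- Components are connected. -/
theorem connSet_flapAt (hs : ∀ x y, Adj M x y → Adj M y x) (x : ℕ) :
    ConnSet M (flapAt M B x) := by
  rintro y ⟨m, hm⟩ z ⟨n, hn⟩
  have h := (hm.symm hs).trans hn
  obtain ⟨-, h2⟩ := h.stay (C := flapAt M B x) (nbr_flapAt x) ⟨m, hm⟩
  exact ⟨_, h2.mono subset_union_left⟩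

/-- The component of a point in the complement of a finite set is a flap. -/
theorem flap_flapAt (hs : ∀ x y, Adj M x y → Adj M y x) (hB : B.Finite) {x : ℕ} (hx : x ∉ B) :
    Flap M (flapAt M B x) :=
  ⟨⟨x, mem_flapAt_self hx⟩, connSet_flapAt hs x, hB.subset (nbr_flapAt x)⟩

/-- A connected set avoiding `B` is inside a component. -/
theorem ConnSet.subset_flapAt {C : Set ℕ} (hC : ConnSet M C) (hd : Disjoint C B) {x : ℕ}
    (hx : x ∈ C) : C ⊆ flapAt M B x := by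
  intro y hy
  exact (hC x hx y hy).mono (Set.subset_compl_iff_disjoint_left.2 hd)

/-- A connected set avoiding `B` whose neighbourhood is inside `B` is a component. -/
theorem eq_flapAt {C : Set ℕ} (hC : ConnSet M C) (hn : nbr M C ⊆ B) (hd : Disjoint C B) {x : ℕ}
    (hx : x ∈ C) : C = flapAt M B x := by
  apply Subset.antisymm (hC.subset_flapAt hd hx)
  rintro y ⟨n, hn'⟩
  exact (hn'.stay hn hx).1

/-- Two intersecting sets, `C` connected and avoiding the neighbourhood of `E`: `C ⊆ E`. -/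
theorem ConnSet.subset_of_meets {C E : Set ℕ} (hC : ConnSet M C) (hd : Disjoint C (nbr M E))
    (hm : ¬ Disjoint C E) : C ⊆ E := by
  obtain ⟨x, hxC, hxE⟩ := Set.not_disjoint_iff.1 hm
  intro y hy
  obtain ⟨n, hn⟩ := hC x hxC y hy
  have hn' := hn.mono (B' := nbr M E) (Set.subset_compl_iff_disjoint_left.2 hd)
  exact (hn'.stay Subset.rfl hxE).1

/-- Transfer of paths. -/
theorem path_transfer {n x x' y y' : ℕ} (h : BF M N X Y (n : Ordinal.{0}) p) (hp : p ⊆ X ×ˢ Y)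
    (h1 : ∀ u ∈ p, (u.1 ∈ S ↔ u.2 ∈ S')) (h2 : ∀ s ∈ S, ∃ s', (s, s') ∈ p)
    (h3 : ∀ s' ∈ S', ∃ s, (s, s') ∈ p) (hx : (x, x') ∈ p) (hy : (y, y') ∈ p)
    (hP : Path M (S ∪ Xᶜ) n x y) : Path N (S' ∪ Yᶜ) n x' y' := by
  induction n generalizing p x x' with
  | zero =>
    cases hP with
    | nil hx0 =>
      have : x' = y' := h.piso.snd_eq hx hy rfl
      subst this
      refine Path.nil ?_
      intro hc
      rcases hc with hc | hc
      · exact hx0 (Or.inl ((h1 _ hx).2 hc))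
      · exact hc (hp hx).2
  | succ n ih =>
    cases hP with
    | @cons _ _ u _ hx0 hxu hP' =>
      have hu := hP'.left_notMem
      have huX : u ∈ X := by
        by_contra hc; exact hu (Or.inr hc)
      have huS : u ∉ S := fun hc => hu (Or.inl hc)
      have hlt : (n : Ordinal.{0}) < ((n + 1 : ℕ) : Ordinal.{0}) := by
        exact_mod_cast Nat.lt_succ_self n
      obtain ⟨u', hu'Y, hb⟩ := h.forth hlt huX
      have huS' : u' ∉ S' := by
        intro hc
        obtain ⟨s, hs⟩ := h3 u' hc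
        have : s = u := hb.piso.fst_eq (Or.inr hs) (Or.inl rfl) rfl
        subst this
        exact huS ((h1 _ hs).2 hc)
      have hadj : Adj N x' u' := (hb.piso.adj (Or.inr hx) (Or.inl rfl)).1 hxu
      have hp' : insert (u, u') p ⊆ X ×ˢ Y := by
        rw [insert_subset_iff]; exact ⟨⟨huX, hu'Y⟩, hp⟩
      have h1' : ∀ w ∈ insert (u, u') p, (w.1 ∈ S ↔ w.2 ∈ S') := by
        rintro w (rfl | hw)
        · simp [huS, huS']
        · exact h1 w hw
      refine Path.cons ?_ hadj (ih hb hp' h1' (fun s hs => ?_) (fun s hs => ?_) (Or.inl rfl)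
        (Or.inr hy) hP')
      · intro hc
        rcases hc with hc | hc
        · exact hx0 (Or.inl ((h1 _ hx).2 hc))
        · exact hc (hp hx).2
      · obtain ⟨s', hs'⟩ := h2 s hs; exact ⟨s', Or.inr hs'⟩
      · obtain ⟨s', hs'⟩ := h3 s hs; exact ⟨s', Or.inr hs'⟩

theorem path_transfer_univ {n x x' y y' : ℕ} (h : BF M N univ univ (n : Ordinal.{0}) p)
    (h1 : ∀ u ∈ p, (u.1 ∈ S ↔ u.2 ∈ S')) (h2 : ∀ s ∈ S, ∃ s', (s, s') ∈ p)
    (h3 : ∀ s' ∈ S', ∃ s, (s, s') ∈ p) (hx : (x, x') ∈ p) (hy : (y, y') ∈ p)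
    (hP : Path M S n x y) : Path N S' n x' y' := by
  have := path_transfer (X := univ) (Y := univ) (S := S) (S' := S') h
    (fun u _ => ⟨mem_univ _, mem_univ _⟩) h1 h2 h3 hx hy (by simpa using hP)
  simpa using this

theorem conn_transfer_univ {x x' y y' : ℕ} (h : BF M N univ univ Ordinal.omega0 p)
    (h1 : ∀ u ∈ p, (u.1 ∈ S ↔ u.2 ∈ S')) (h2 : ∀ s ∈ S, ∃ s', (s, s') ∈ p)
    (h3 : ∀ s' ∈ S', ∃ s, (s, s') ∈ p) (hx : (x, x') ∈ p) (hy : (y, y') ∈ p) :
    Conn M S x y ↔ Conn N S' x' y' := by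
  constructor
  · rintro ⟨n, hn⟩
    exact ⟨n, path_transfer_univ (h.mono (Ordinal.natCast_lt_omega0 n).le) h1 h2 h3 hx hy hn⟩
  · rintro ⟨n, hn⟩
    exact ⟨n, path_transfer_univ (h.symm.mono (Ordinal.natCast_lt_omega0 n).le)
      (p := inv p) (fun u hu => (h1 _ hu).symm) (fun s hs => h3 s hs) (fun s hs => h2 s hs)
      hx hy hn⟩

theorem mem_flap_transfer {x x' : ℕ} (h : BF M N univ univ Ordinal.omega0 p)
    (h1 : ∀ u ∈ p, (u.1 ∈ S ↔ u.2 ∈ S')) (h2 : ∀ s ∈ S, ∃ s', (s, s') ∈ p)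
    (h3 : ∀ s' ∈ S', ∃ s, (s, s') ∈ p) (hx : (x, x') ∈ p) :
    ∀ u ∈ p, (u.1 ∈ flapAt M S x ↔ u.2 ∈ flapAt N S' x') := fun _ hu =>
  conn_transfer_univ h h1 h2 h3 hx hu

theorem insert_cond {y y' : ℕ} {o : Ordinal.{0}} (hb : BF M N univ univ o (insert (y, y') p))
    (h1 : ∀ u ∈ p, (u.1 ∈ S ↔ u.2 ∈ S')) (h2 : ∀ s ∈ S, ∃ s', (s, s') ∈ p)
    (h3 : ∀ s' ∈ S', ∃ s, (s, s') ∈ p) : ∀ u ∈ insert (y, y') p, (u.1 ∈ S ↔ u.2 ∈ S') := by
  rintro u (rfl | hu)
  · simp only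
    constructor
    · intro hy
      obtain ⟨s', hs'⟩ := h2 y hy
      have : s' = y' := hb.piso.snd_eq (Or.inr hs') (Or.inl rfl) rfl
      subst this
      exact (h1 _ hs').1 hy
    · intro hy
      obtain ⟨s, hs⟩ := h3 y' hy
      have : s = y := hb.piso.fst_eq (Or.inr hs) (Or.inl rfl) rfl
      subst this
      exact (h1 _ hs).2 hy
  · exact h1 u hu

theorem nbr_flap_transfer_aux {x x' : ℕ} (h : BF M N univ univ Ordinal.omega0 p)
    (h1 : ∀ u ∈ p, (u.1 ∈ S ↔ u.2 ∈ S')) (h2 : ∀ s ∈ S, ∃ s', (s, s') ∈ p)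
    (h3 : ∀ s' ∈ S', ∃ s, (s, s') ∈ p) (hx : (x, x') ∈ p) :
    ∀ u ∈ p, u.1 ∈ nbr M (flapAt M S x) → u.2 ∈ nbr N (flapAt N S' x') := by
  rintro u hu ⟨h4, c, ⟨n, hc⟩, hcu⟩
  refine ⟨fun h5 => h4 ((mem_flap_transfer h h1 h2 h3 hx u hu).2 h5), ?_⟩
  obtain ⟨c', -, hb⟩ := h.forth (Ordinal.natCast_lt_omega0 n) (mem_univ c)
  refine ⟨c', ⟨n, ?_⟩, (hb.piso.adj (Or.inl rfl) (Or.inr hu)).1 hcu⟩
  exact path_transfer_univ hb (insert_cond hb h1 h2 h3)
    (fun s hs => by obtain ⟨s', hs'⟩ := h2 s hs; exact ⟨s', Or.inr hs'⟩)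
    (fun s hs => by obtain ⟨s', hs'⟩ := h3 s hs; exact ⟨s', Or.inr hs'⟩)
    (Or.inr hx) (Or.inl rfl) hc

theorem nbr_flap_transfer {x x' : ℕ} (h : BF M N univ univ Ordinal.omega0 p)
    (h1 : ∀ u ∈ p, (u.1 ∈ S ↔ u.2 ∈ S')) (h2 : ∀ s ∈ S, ∃ s', (s, s') ∈ p)
    (h3 : ∀ s' ∈ S', ∃ s, (s, s') ∈ p) (hx : (x, x') ∈ p) :
    ∀ u ∈ p, (u.1 ∈ nbr M (flapAt M S x) ↔ u.2 ∈ nbr N (flapAt N S' x')) := by
  intro u hu
  refine ⟨nbr_flap_transfer_aux h h1 h2 h3 hx u hu, ?_⟩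
  exact nbr_flap_transfer_aux (p := inv p) h.symm (fun u hu => (h1 _ hu).symm)
    (fun s hs => h3 s hs) (fun s hs => h2 s hs) hx (u.2, u.1) hu

/-- Restriction of a game to the components of corresponding points. -/
theorem flap_bf {β : Ordinal.{0}} {x x' : ℕ}
    (h : BF M N univ univ (Ordinal.omega0 + β) p)
    (h1 : ∀ u ∈ p, (u.1 ∈ S ↔ u.2 ∈ S')) (h2 : ∀ s ∈ S, ∃ s', (s, s') ∈ p)
    (h3 : ∀ s' ∈ S', ∃ s, (s, s') ∈ p) (hx : (x, x') ∈ p) (hxS : x ∉ S) :
    BF M N (cl M (flapAt M S x)) (cl N (flapAt N S' x')) β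
      (p ∩ (cl M (flapAt M S x)) ×ˢ (cl N (flapAt N S' x'))) ∧
    (∀ u ∈ p, (u.1 ∈ flapAt M S x ↔ u.2 ∈ flapAt N S' x')) ∧
    (∀ u ∈ p, (u.1 ∈ nbr M (flapAt M S x) ↔ u.2 ∈ nbr N (flapAt N S' x'))) := by
  have hω : BF M N univ univ Ordinal.omega0 p := h.mono le_self_add
  refine ⟨?_, mem_flap_transfer hω h1 h2 h3 hx, nbr_flap_transfer hω h1 h2 h3 hx⟩
  clear hω
  induction β using WellFoundedLT.induction generalizing p with
  | ind β ih =>
    rw [BF_iff]
    refine ⟨h.piso.mono inter_subset_left, fun b hb => ?_⟩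
    have hlt : Ordinal.omega0 + b < Ordinal.omega0 + β := by gcongr
    have key : ∀ y y', BF M N univ univ (Ordinal.omega0 + b) (insert (y, y') p) →
        (y ∈ cl M (flapAt M S x) ↔ y' ∈ cl N (flapAt N S' x')) ∧
        (y ∈ cl M (flapAt M S x) → BF M N (cl M (flapAt M S x)) (cl N (flapAt N S' x')) b
          (insert (y, y') (p ∩ (cl M (flapAt M S x)) ×ˢ (cl N (flapAt N S' x'))))) := by
      intro y y' hyb
      have h1' := insert_cond hyb h1 h2 h3
      have h2' : ∀ s ∈ S, ∃ s', (s, s') ∈ insert (y, y') p := fun s hs => by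
        obtain ⟨s', hs'⟩ := h2 s hs; exact ⟨s', Or.inr hs'⟩
      have h3' : ∀ s' ∈ S', ∃ s, (s, s') ∈ insert (y, y') p := fun s hs => by
        obtain ⟨s', hs'⟩ := h3 s hs; exact ⟨s', Or.inr hs'⟩
      have hω : BF M N univ univ Ordinal.omega0 (insert (y, y') p) := hyb.mono le_self_add
      have hA := mem_flap_transfer hω h1' h2' h3' (Or.inr hx) (y, y') (Or.inl rfl)
      have hB := nbr_flap_transfer hω h1' h2' h3' (Or.inr hx) (y, y') (Or.inl rfl)
      have hAB : y ∈ cl M (flapAt M S x) ↔ y' ∈ cl N (flapAt N S' x') := or_congr hA hB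
      refine ⟨hAB, fun hy => ?_⟩
      have := ih b hb hyb h1' h2' h3' (Or.inr hx)
      rwa [Set.insert_inter_of_mem (show (y, y') ∈ (cl M (flapAt M S x)) ×ˢ
        (cl N (flapAt N S' x')) from ⟨hy, hAB.1 hy⟩)] at this
    constructor
    · intro y hy
      obtain ⟨y', -, hyb⟩ := h.forth hlt (mem_univ y)
      exact ⟨y', (key y y' hyb).1.1 hy, (key y y' hyb).2 hy⟩
    · intro y' hy'
      obtain ⟨y, -, hyb⟩ := h.back hlt (mem_univ y')
      have hy := (key y y' hyb).1.2 hy'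
      exact ⟨y, hy, (key y y' hyb).2 hy⟩

end Pool.Agent.H533R2.VC
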