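import Pool.Agent.H533R2.VC.Ends

set_option autoImplicit false

/-! Chains of tight separators (task TIGHT). -/

namespace Pool.Agent.H533R2.VC

open Set

variable {a : ℕ → ℕ}

/-- A tight chain for the pure end `V` at level `n`. -/
structure TChain (M : St a) (V : ℕ → Set ℕ) (n : ℕ) (W Z : ℕ → Set ℕ) : Prop where
  chain : Chain M (dom M V) W Z
  start : W 0 = V n
  tail : ∀ k, ∃ m, V m ⊆ W k
  tight : ∀ k, 1 ≤ k → ∀ z ∈ Z k, ∃ x, Adj M x z ∧ ∃ y ∈ Z 0, ∃ l,
    Path M ((W 0 ∪ {y})ᶜ ∪ Z k) l y x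

namespace Tight

variable {M : St a} {D : Set ℕ} {U Y : ℕ → Set ℕ}

theorem nb_iff {H T : Set ℕ} {x : ℕ} : x ∉ Hᶜ ∪ T ↔ x ∈ H ∧ x ∉ T := by
  rw [mem_union, mem_compl_iff, not_or, not_not]

theorem path_inv {B B' : Set ℕ} (P : ℕ → Prop)
    (hstep : ∀ u v, P u → u ∉ B → Adj M u v → v ∉ B → P v) (hP : ∀ u, P u → u ∉ B → u ∉ B') :
    ∀ n x y, Path M B n x y → P x → Path M B' n x y ∧ P y := by
  intro n x y h
  induction h with
  | nil h => exact fun hx => ⟨Path.nil (hP _ hx h), hx⟩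
  | @cons n x y z h h1 h2 ih =>
    intro hx
    have hy := hstep _ _ hx h h1 h2.left_notMem
    exact ⟨Path.cons (hP _ hx h) h1 (ih hy).1, (ih hy).2⟩

/-- the part reached from `Y 0` before `Y i` -/
def A (M : St a) (U Y : ℕ → Set ℕ) (i : ℕ) : Set ℕ :=
  {x | ∃ y ∈ Y 0, Conn M ((U 0 ∪ Y 0)ᶜ ∪ Y i) y x}

/-- tight separators -/
def Z (M : St a) (U Y : ℕ → Set ℕ) (i : ℕ) : Set ℕ :=
  {y | y ∈ Y i ∧ (y ∈ Y 0 ∨ ∃ x ∈ A M U Y i, Adj M x y)}

theorem U_disj (h : Chain M D U Y) (i : ℕ) : Disjoint (U i) (D ∪ Y i) := by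
  rw [← h.nbr i, Set.disjoint_left]
  intro x hx hx'
  exact hx'.1 hx

theorem U_sub (h : Chain M D U Y) (i : ℕ) : U i ⊆ U 0 := by
  induction i with
  | zero => exact Subset.rfl
  | succ i ih => exact (subset_union_left.trans (h.step i)).trans ih

theorem Y_sub (h : Chain M D U Y) (i : ℕ) : Y (i + 1) ⊆ U 0 :=
  (subset_union_right.trans (h.step i)).trans (U_sub h i)

theorem Y_sub' (h : Chain M D U Y) (i : ℕ) : Y i ⊆ U 0 ∪ Y 0 := by
  cases i with
  | zero => exact subset_union_right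
  | succ i => exact (Y_sub h i).trans subset_union_left

theorem D_H (h : Chain M D U Y) {x : ℕ} (hx : x ∈ U 0 ∪ Y 0) : x ∉ D := by
  intro hD
  rcases hx with hx | hx
  · exact Set.disjoint_left.1 (U_disj h 0) hx (Or.inl hD)
  · exact Set.disjoint_left.1 (h.disj 0) hD hx

theorem A_H {i x : ℕ} (hx : x ∈ A M U Y i) : x ∈ U 0 ∪ Y 0 ∧ x ∉ Y i := by
  obtain ⟨y, _, n, hP⟩ := hx
  have := hP.right_notMem
  rw [nb_iff] at this
  exact this

theorem A_step {i u v : ℕ} (hu : u ∈ A M U Y i) (h : Adj M u v) (hv : v ∈ U 0 ∪ Y 0)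
    (hv' : v ∉ Y i) : v ∈ A M U Y i := by
  obtain ⟨y, hy, hc⟩ := hu
  have hn := A_H (⟨y, hy, hc⟩ : u ∈ A M U Y i)
  have h1 : v ∉ (U 0 ∪ Y 0)ᶜ ∪ Y i := by
    rintro (h | h)
    · exact h hv
    · exact hv' h
  have h2 : u ∉ (U 0 ∪ Y 0)ᶜ ∪ Y i := by
    rintro (h | h)
    · exact h hn.1
    · exact hn.2 h
  exact ⟨y, hy, hc.trans ⟨1, Path.cons h2 h (Path.nil h1)⟩⟩

theorem A_U (h : Chain M D U Y) (hs : ∀ x y, Adj M x y → Adj M y x) {i x : ℕ}
    (hx : x ∈ A M U Y i) : x ∉ U i := by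
  obtain ⟨y, hy, n, hP⟩ := hx
  refine (path_inv (B' := (∅ : Set ℕ)) (fun u => u ∉ U i) ?_ (fun _ _ _ => notMem_empty _) n y x hP ?_).2
  · intro u v hu hu' huv _ hvU
    have h1 : u ∈ nbr M (U i) := ⟨hu, v, hvU, hs _ _ huv⟩
    rw [h.nbr i] at h1
    rw [nb_iff] at hu'
    rcases h1 with h1 | h1
    · exact D_H h hu'.1 h1
    · exact hu'.2 h1
  · intro hyU
    exact Set.disjoint_left.1 (U_disj h 0) (U_sub h i hyU) (Or.inr hy)

theorem Z_of (i : ℕ) {u v : ℕ} (hu : u ∈ A M U Y i) (h : Adj M u v) (hv : v ∈ U 0 ∪ Y 0)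
    (hv' : v ∉ A M U Y i) : v ∈ Z M U Y i := by
  have h1 : v ∈ Y i := by
    by_contra hn
    exact hv' (A_step hu h hv hn)
  exact ⟨h1, Or.inr ⟨u, hu, h⟩⟩

/-- the components -/
theorem W_sub (h : Chain M D U Y) (hs : ∀ x y, Adj M x y → Adj M y x) {i x : ℕ} (hx : x ∈ U i)
    {w : ℕ} (hw : w ∈ flapAt M (D ∪ Z M U Y i) x) : w ∈ U 0 ∧ w ∉ A M U Y i := by
  obtain ⟨n, hP⟩ := hw
  refine (path_inv (B' := (∅ : Set ℕ)) (fun u => u ∈ U 0 ∧ u ∉ A M U Y i) ?_
    (fun _ _ _ => notMem_empty _) n x w hP ?_).2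
  · rintro u v ⟨hu1, hu2⟩ hu3 huv hv
    have hvH : v ∈ U 0 ∪ Y 0 := by
      by_cases hvU : v ∈ U 0
      · exact Or.inl hvU
      · have h1 : v ∈ nbr M (U 0) := ⟨hvU, u, hu1, huv⟩
        rw [h.nbr 0] at h1
        rcases h1 with h1 | h1
        · exact absurd (Or.inl h1) hv
        · exact Or.inr h1
    have hvA : v ∉ A M U Y i := by
      intro hvA
      exact hu3 (Or.inr (Z_of i hvA (hs _ _ huv) (Or.inl hu1) hu2))
    refine ⟨?_, hvA⟩
    rcases hvH with h1 | h1
    · exact h1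
    · exfalso
      by_cases h2 : v ∈ Y i
      · exact hv (Or.inr ⟨h2, Or.inl h1⟩)
      · apply hvA
        refine ⟨v, h1, Conn.refl ?_⟩
        rintro (h3 | h3)
        · exact h3 (Or.inr h1)
        · exact h2 h3
  · exact ⟨U_sub h i hx, fun hA => A_U h hs hA hx⟩

theorem A_mono (h : Chain M D U Y) (hs : ∀ x y, Adj M x y → Adj M y x) (i : ℕ) :
    A M U Y i ⊆ A M U Y (i + 1) := by
  rintro x ⟨y, hy, n, hP⟩
  have key := path_inv (B' := (U 0 ∪ Y 0)ᶜ ∪ Y (i + 1)) (fun u => u ∈ A M U Y i) ?_ ?_ n y x hP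
    ⟨y, hy, Conn.refl hP.left_notMem⟩
  · exact ⟨y, hy, n, key.1⟩
  · intro u v hu _ huv hv
    rw [nb_iff] at hv
    exact A_step hu huv hv.1 hv.2
  · rintro u hu _ (h1 | h1)
    · exact h1 (A_H hu).1
    · exact A_U h hs hu (h.step i (Or.inr h1))

theorem Z_A (h : Chain M D U Y) (hs : ∀ x y, Adj M x y → Adj M y x) (i : ℕ) :
    Z M U Y i ⊆ A M U Y (i + 1) := by
  rintro z ⟨hz, hz'⟩
  have h1 : z ∉ Y (i + 1) := fun h2 =>
    Set.disjoint_left.1 (U_disj h i) (h.step i (Or.inr h2)) (Or.inr hz)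
  rcases hz' with hz' | ⟨x, hx, hxz⟩
  · refine ⟨z, hz', Conn.refl ?_⟩
    rintro (h3 | h3)
    · exact h3 (Or.inr hz')
    · exact h1 h3
  · exact A_step (A_mono h hs i hx) hxz (Y_sub' h i hz) h1

end Tight

open Tight in
theorem exists_tchain {α : Ordinal.{0}} {K : Set (St a)} (hK : Good α K) {M : St a} (hM : M ∈ K)
    {V : ℕ → Set ℕ} {n : ℕ} (hV : Pure α M V n) : ∃ W Z, TChain M V n W Z := by
  obtain ⟨U, Y, nn, h, hmono, hn0, hU⟩ := chain_of_end hK hM hV.isEnd n hV.dom hV.ne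
  have hs := hK.symm M hM
  set D := dom M V with hD
  choose x hx using h.ne
  set W : ℕ → Set ℕ := fun i => flapAt M (D ∪ Tight.Z M U Y i) (x i) with hW
  have hUd : ∀ i, Disjoint (U i) (D ∪ Tight.Z M U Y i) := fun i =>
    (U_disj h i).mono_right (union_subset_union_right _ fun z hz => hz.1)
  have hUW : ∀ i, U i ⊆ W i := fun i => (h.conn i).subset_flapAt (hUd i) (hx i)
  have hWU : ∀ i, W i ⊆ U 0 := fun i w hw => (W_sub h hs (hx i) hw).1
  have hWA : ∀ i, ∀ w ∈ W i, w ∉ A M U Y i := fun i w hw => (W_sub h hs (hx i) hw).2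
  have hWc : ∀ i, ConnSet M (W i) := fun i => connSet_flapAt hs (x i)
  have hWn : ∀ i, nbr M (W i) = D ∪ Tight.Z M U Y i := by
    intro i
    apply subset_antisymm (nbr_flapAt (x i))
    intro s hsd
    have h1 : s ∈ nbr M (U i) := by
      rw [h.nbr i]
      rcases hsd with h1 | h1
      · exact Or.inl h1
      · exact Or.inr h1.1
    obtain ⟨_, c, hc, hcs⟩ := h1
    exact ⟨fun hsW => Set.disjoint_left.1 (flapAt_disjoint (x i)) hsW hsd, c, hUW i hc, hcs⟩
  have hWd : ∀ i, Disjoint (W i) (D ∪ Tight.Z M U Y i) := fun i => flapAt_disjoint (x i)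
  have hstep : ∀ i, W (i + 1) ∪ Tight.Z M U Y (i + 1) ⊆ W i := by
    intro i
    apply union_subset
    · apply (hWc (i + 1)).subset_of_meets
      · rw [hWn i, Set.disjoint_left]
        rintro w hw (h1 | h1)
        · exact Set.disjoint_left.1 (hWd (i + 1)) hw (Or.inl h1)
        · exact hWA (i + 1) w hw (Z_A h hs i h1)
      · intro hd
        exact Set.disjoint_left.1 hd (hUW (i + 1) (hx (i + 1)))
          (hUW i (h.step i (Or.inl (hx (i + 1)))))
    · intro z hz
      exact hUW i (h.step i (Or.inr hz.1))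
  have hZ0 : Tight.Z M U Y 0 = Y 0 := by
    ext z
    exact ⟨fun hz => hz.1, fun hz => ⟨hz, Or.inl hz⟩⟩
  have hW0 : W 0 = U 0 := by
    symm
    apply eq_flapAt (h.conn 0) _ (hUd 0) (hx 0)
    rw [hZ0, h.nbr 0]
  -- crossing argument
  have cross : ∀ (y : ℕ), y ∈ Y 0 → ∀ n i x, Path M D n x y → x ∈ W i ∪ Tight.Z M U Y i → i ≤ n := by
    intro y hy n
    have hy0 : y ∉ U 0 := fun h1 => Set.disjoint_left.1 (U_disj h 0) h1 (Or.inr hy)
    have hin : ∀ i, ∀ w ∈ W (i + 1) ∪ Tight.Z M U Y (i + 1), w ∈ W i := fun i w hw => hstep i hw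
    induction n with
    | zero =>
      intro i x hP hxi
      cases hP with
      | nil _ =>
        cases i with
        | zero => exact le_rfl
        | succ i => exact absurd (hWU i (hin i _ hxi)) hy0
    | succ n ih =>
      intro i x hP hxi
      cases hP with
      | @cons _ _ x1 _ hxD hadj hP' =>
        have go : ∀ j, x ∈ W j → j ≤ n := by
          intro j hj
          apply ih j x1 hP'
          by_cases h1 : x1 ∈ W j
          · exact Or.inl h1
          · right
            have h2 : x1 ∈ nbr M (W j) := ⟨h1, x, hj, hadj⟩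
            rw [hWn j] at h2
            exact h2.resolve_left hP'.left_notMem
        cases i with
        | zero => exact Nat.zero_le _
        | succ i =>
          have := go i (hin i x hxi)
          omega
  have hchain : Chain M D W (Tight.Z M U Y) := by
    refine ⟨h.finD, fun i => (h.finY i).subset fun z hz => hz.1, ?_, fun i => ⟨x i, hUW i (hx i)⟩,
      hWc, hWn, fun i => (h.disj i).mono_right fun z hz => hz.1, hstep, ?_⟩
    · intro i
      by_contra hne
      rw [not_nonempty_iff_eq_empty] at hne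
      have h1 : U 0 ⊆ W i := by
        apply (h.conn 0).subset_of_meets
        · rw [hWn i, hne, union_empty]
          exact (U_disj h 0).mono_right subset_union_left
        · intro hd
          exact Set.disjoint_left.1 hd (U_sub h i (hx i)) (hUW i (hx i))
      obtain ⟨y, hy⟩ := h.neY 0
      have h2 : y ∈ nbr M (U 0) := by rw [h.nbr 0]; exact Or.inr hy
      obtain ⟨hyU, c, hc, hcy⟩ := h2
      have h3 : y ∉ W i := fun h3 => hyU (hWU i h3)
      have h4 : y ∈ nbr M (W i) := ⟨h3, c, h1 hc, hcy⟩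
      rw [hWn i, hne, union_empty] at h4
      exact D_H h (Or.inr hy) h4
    · intro z
      by_contra hcon
      push Not at hcon
      have hz0 : z ∈ U 0 ∪ Y 0 := Or.inl (hWU 0 (hcon 0))
      obtain ⟨y, hy, m, hP⟩ := h.exists_path hs hz0
      have hP' : Path M D m z y := by
        apply Path.symm hs
        apply hP.mono
        intro d hd hd'
        apply D_H h _ hd
        rcases hd' with h1 | h1
        · exact Or.inl h1
        · rw [mem_singleton_iff.1 h1]; exact Or.inr hy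
      have := cross y hy m (m + 1) z hP' (Or.inl (hcon (m + 1)))
      omega
  refine ⟨W, Tight.Z M U Y, hchain, ?_, ?_, ?_⟩
  · rw [hW0, hU 0, hn0]
  · intro k
    exact ⟨nn k, by rw [← hU k]; exact hUW k⟩
  · intro k hk z hz
    obtain ⟨i, rfl⟩ : ∃ i, k = i + 1 := ⟨k - 1, by omega⟩
    obtain ⟨hzY, hz'⟩ := hz
    have hzU : z ∈ U 0 := Y_sub h i hzY
    rcases hz' with hz' | ⟨w, hw, hwz⟩
    · exact absurd (Or.inr hz') (Set.disjoint_left.1 (U_disj h 0) hzU)
    · refine ⟨w, hwz, ?_⟩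
      obtain ⟨y0, hy0, l, hP⟩ := hw
      have cut : ∀ l u v, Path M ((U 0 ∪ Y 0)ᶜ ∪ Y (i + 1)) l u v →
          (∃ y ∈ Y 0, ∃ l', Path M ((U 0 ∪ {y})ᶜ ∪ Y (i + 1)) l' y v) ∨
            Path M ((U 0)ᶜ ∪ Y (i + 1)) l u v := by
        intro l u v hP
        induction hP with
        | @nil u hu =>
          rw [nb_iff] at hu
          rcases hu.1 with h1 | h1
          · right
            apply Path.nil
            rintro (h2 | h2)
            · exact h2 h1
            · exact hu.2 h2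
          · left
            refine ⟨u, h1, 0, Path.nil ?_⟩
            rintro (h2 | h2)
            · exact h2 (Or.inr rfl)
            · exact hu.2 h2
        | @cons n u w v hu huw hP ih =>
          rcases ih with ih | ih
          · exact Or.inl ih
          · rw [nb_iff] at hu
            rcases hu.1 with h1 | h1
            · right
              refine Path.cons ?_ huw ih
              rintro (h2 | h2)
              · exact h2 h1
              · exact hu.2 h2
            · left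
              refine ⟨u, h1, n + 1, Path.cons ?_ huw (ih.mono ?_)⟩
              · rintro (h2 | h2)
                · exact h2 (Or.inr rfl)
                · exact hu.2 h2
              · apply union_subset_union_left
                rw [compl_subset_compl]
                exact subset_union_left
      rcases cut l y0 w hP with ⟨y, hy, l', hP'⟩ | hP'
      · refine ⟨y, by rw [hZ0]; exact hy, l', hP'.mono ?_⟩
        rw [hW0]
        exact union_subset_union_right _ fun z hz => hz.1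
      · exfalso
        have := hP'.left_notMem
        rw [nb_iff] at this
        exact Set.disjoint_left.1 (U_disj h 0) this.1 (Or.inr hy0)

end Pool.Agent.H533R2.VC
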